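import Pool.Agent.PWB.Defs
import Pool.Agent.PWM.Blk
import Pool.Agent.PWM.J4
import Pool.Agent.PWM.Fix
import Pool.Agent.PWM.PuT

/-!
# The block: `v` is a coboundary on a block in `P`, and the comparison with the pushed block
-/

namespace Pool.Agent.PWB

open Pool.Agent.PW Pool.Agent.PWM

variable {g n : ℕ} {k : Type} [Field k] [CharZero k] {V : Type} [AddCommGroup V] [Module k V]

/-- `v` vanishes on the normal closure of the commutators of a block in `P`. -/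
theorem kG1 (S : KSys g n k V) (hg : 2 ≤ g) (hE : Bk g n 0 2 ≤ S.P) :
    ∀ x ∈ Subgroup.normalClosure (DB g n 0 2 : Set (F g n)), S.ρ x = 1 ∧ S.v x = 0 := by
  have hρ := S.ρ_DB hE
  have hm : 0 + 2 ≤ g := by omega
  have hv : ∀ d ∈ DB g n 0 2, S.v d = 0 := by
    intro d hd
    refine JB st_Blk st_J hm le_rfl (L := S.v) ?_ ?_ hd
    · intro x hx y hy
      rw [S.coc, hρ x hx, Module.End.one_apply]
    · intro Ψ hΨ i hi
      have hmem : Ψ (dl i) ∈ DB g n 0 2 := by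
        rw [aut_dl]
        apply Subgroup.commutator_mem_commutator
        · exact hΨ.map_bk (Bk_a (Nat.zero_le _) (by omega))
        · exact hΨ.map_bk (Bk_b (Nat.zero_le _) (by omega))
      obtain ⟨M, hM, -, h2⟩ := (S.kill Ψ hΨ.1 i).2.2
      rw [S.v_pow (hρ _ hmem)] at h2
      rcases smul_eq_zero.mp h2 with h3 | h3
      · exact absurd (Nat.cast_eq_zero.mp h3) hM.ne'
      · exact h3
  have hK := S.K_normal
  have hle : Subgroup.normalClosure (DB g n 0 2 : Set (F g n)) ≤ S.K :=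
    Subgroup.normalClosure_le_normal (fun d hd => ⟨hρ d hd, hv d hd⟩)
  exact fun x hx => hle hx

theorem NN_le : NN g n ≤ Subgroup.normalClosure (DB g n 0 2 : Set (F g n)) := by
  unfold NN
  apply Subgroup.normalClosure_mono
  rintro x ⟨i, hi, rfl⟩
  exact Subgroup.commutator_mem_commutator (Bk_a (Nat.zero_le _) (by omega))
    (Bk_b (Nat.zero_le _) (by omega))

/-- A subgroup `Q` of a finitely generated subgroup `H` which contains `⁅H, H⁆` and powers of the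
generators of `H` has finite index in `H`. -/
theorem relIndex_ne {G : Type*} [Group G] (X : Set G) (hX : X.Finite) (Q : Subgroup G)
    (h1 : ⁅Subgroup.closure X, Subgroup.closure X⁆ ≤ Q)
    (h2 : ∀ x ∈ X, ∃ m : ℕ, 0 < m ∧ x ^ m ∈ Q) : Q.relIndex (Subgroup.closure X) ≠ 0 := by
  set H : Subgroup G := Subgroup.closure X with hH
  have hle : commutator H ≤ Q.subgroupOf H := by
    rw [commutator_def, Subgroup.commutator_le]
    intro a _ b _
    rw [Subgroup.mem_subgroupOf]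
    exact h1 (Subgroup.commutator_mem_commutator a.2 b.2)
  have hN : (Q.subgroupOf H).Normal := Subgroup.Normal.of_commutator_le _ hle
  have hc : IsMulCommutative (H ⧸ Q.subgroupOf H) :=
    Subgroup.Normal.quotient_commutative_iff_commutator_le.mpr hle
  let : CommGroup (H ⧸ Q.subgroupOf H) :=
    { (inferInstance : Group (H ⧸ Q.subgroupOf H)) with
      mul_comm := fun a b => hc.is_comm.comm a b }
  have : Group.FG H := (Group.fg_iff_subgroup_fg H).mpr ((Subgroup.fg_iff H).mpr ⟨X, rfl, hX⟩)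
  have : Group.FG (H ⧸ Q.subgroupOf H) := QuotientGroup.fg _
  have key : ∀ x (hx : x ∈ H), IsOfFinOrder (QuotientGroup.mk ⟨x, hx⟩ : H ⧸ Q.subgroupOf H) := by
    intro x hx
    induction hx using Subgroup.closure_induction with
    | mem x hx =>
      obtain ⟨m, hm, hm'⟩ := h2 x hx
      rw [isOfFinOrder_iff_pow_eq_one]
      refine ⟨m, hm, ?_⟩
      rw [← QuotientGroup.mk_pow, QuotientGroup.eq_one_iff, Subgroup.mem_subgroupOf]
      exact hm'
    | one => exact IsOfFinOrder.one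
    | mul x y hx hy h3 h4 => exact h3.mul h4
    | inv x hx h3 => exact h3.inv
  have ht : IsMulTorsion (H ⧸ Q.subgroupOf H) := by
    intro z
    obtain ⟨x, rfl⟩ := QuotientGroup.mk_surjective z
    exact key x.1 x.2
  have : Finite (H ⧸ Q.subgroupOf H) := CommGroup.finite_of_fg_isMulTorsion _ ht
  unfold Subgroup.relIndex Subgroup.index
  exact Nat.card_pos.ne'

/-- `v` is a coboundary on a block in `P`. -/
theorem kG2 (S : KSys g n k V) (hg : 2 ≤ g) (hE : Bk g n 0 2 ≤ S.P) :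
    ∃ u, ∀ x ∈ Bk g n 0 2, S.v x = u - S.ρ x u := by
  have h1' := kG1 S hg hE
  let Q : Subgroup (F g n) := Bk g n 0 2 ⊓ S.K
  have hQH : Q ≤ Bk g n 0 2 := inf_le_left
  have hC : ⁅Bk g n 0 2, Bk g n 0 2⁆ ≤ Q := by
    intro x hx
    refine ⟨?_, h1' x (Subgroup.subset_normalClosure hx)⟩
    exact (Subgroup.commutator_le.mpr fun a ha b hb => by
      rw [commutatorElement_def]
      exact Subgroup.mul_mem _ (Subgroup.mul_mem _ (Subgroup.mul_mem _ ha hb)
        (Subgroup.inv_mem _ ha)) (Subgroup.inv_mem _ hb)) hx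
  have hfin : ({x : F g n | ∃ i : Fin g, 0 ≤ (i : ℕ) ∧ (i : ℕ) < 0 + 2 ∧
      (x = ga i ∨ x = gb i)}).Finite := by
    refine Set.Finite.subset ((Set.finite_range fun i : Fin g => (ga i : F g n)).union
      (Set.finite_range fun i : Fin g => (gb i : F g n))) ?_
    rintro x ⟨i, -, -, rfl | rfl⟩
    · exact Or.inl ⟨i, rfl⟩
    · exact Or.inr ⟨i, rfl⟩
  have hrel : Q.relIndex (Bk g n 0 2) ≠ 0 := by
    refine relIndex_ne _ hfin Q hC ?_
    rintro x ⟨i, h0, hi, hx⟩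
    obtain ⟨ha, hb, -⟩ := S.kill 1 (Subgroup.one_mem _) i
    rcases hx with rfl | rfl
    · obtain ⟨m, hm, h2, h3⟩ := ha
      exact ⟨m, hm, Subgroup.pow_mem _ (Bk_a h0 hi) m, h2, h3⟩
    · obtain ⟨m, hm, h2, h3⟩ := hb
      exact ⟨m, hm, Subgroup.pow_mem _ (Bk_b h0 hi) m, h2, h3⟩
  exact st_Fix S.ρ S.v S.coc (Bk g n 0 2) Q hQH hrel fun x hx => hx.2.2

/-- The comparison with the block `y T₀ y⁻¹`, `T₁`. -/
theorem kStar (S : KSys g n k V) (hg : 2 ≤ g) (hE : Bk g n 0 2 ≤ S.P)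
    (hv : ∀ t ∈ Bk g n 0 2, S.v t = 0) (y : F g n) (hy : y ∈ Fge g n 2) :
    ∃ w0 w1 : V, S.v y = w1 + S.ρ y w0 ∧
      (∀ i : Fin g, (i : ℕ) = 0 → S.ρ (ga i) w0 = w0 ∧ S.ρ (gb i) w0 = w0) ∧
      ∀ i : Fin g, (i : ℕ) = 1 → S.ρ (ga i) w1 = w1 ∧ S.ρ (gb i) w1 = w1 := by
  have hN : ∀ q ∈ NN g n, S.ρ q = 1 ∧ S.v q = 0 := fun q hq => kG1 S hg hE q (NN_le hq)
  have hEq : ∀ {x x' : F g n}, x⁻¹ * x' ∈ NN g n → S.v x' = S.v x ∧ S.ρ x' = S.ρ x := by
    intro x x' h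
    have e : x' = x * (x⁻¹ * x') := by group
    constructor
    · rw [e, S.coc, (hN _ h).2, map_zero, add_zero]
    · rw [e, map_mul, (hN _ h).1, mul_one]
  obtain ⟨φ, hφ, hf1, hf0, hfz, hfN⟩ := st_Push y hg hy
  have hNP : NN g n ≤ S.P := by
    have hP : S.P.Normal := ⟨fun x hx w => S.nor x hx w⟩
    unfold NN
    apply Subgroup.normalClosure_le_normal
    rintro x ⟨i, hi, rfl⟩
    have ha : (ga i : F g n) ∈ S.P := hE (Bk_a (Nat.zero_le _) (by omega))
    have hb : (gb i : F g n) ∈ S.P := hE (Bk_b (Nat.zero_le _) (by omega))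
    show (cm (ga i) (gb i) : F g n) ∈ S.P
    unfold cm
    exact S.P.mul_mem (S.P.mul_mem (S.P.mul_mem ha hb) (S.P.inv_mem ha)) (S.P.inv_mem hb)
  -- the pushed block is in `P`
  have hE' : Bk g n 0 2 ≤ (S.comp hφ).P := by
    unfold Bk
    rw [Subgroup.closure_le]
    have key : ∀ t : F g n, t ∈ S.P → (y * t * y⁻¹)⁻¹ * φ t ∈ NN g n → φ t ∈ S.P := by
      intro t ht h
      have e : φ t = (y * t * y⁻¹) * ((y * t * y⁻¹)⁻¹ * φ t) := by group
      rw [e]
      exact S.P.mul_mem (S.nor t ht y) (hNP h)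
    rintro x ⟨i, -, hi, hx⟩
    have ha : (ga i : F g n) ∈ S.P := hE (Bk_a (Nat.zero_le _) hi)
    have hb : (gb i : F g n) ∈ S.P := hE (Bk_b (Nat.zero_le _) hi)
    rcases Nat.lt_or_ge (i : ℕ) 1 with h | h
    · obtain ⟨h1, h2⟩ := hf0 i (by omega)
      rcases hx with rfl | rfl
      · exact key _ ha h1
      · exact key _ hb h2
    · obtain ⟨h1, h2⟩ := hf1 i (by omega)
      rcases hx with rfl | rfl
      · show φ (ga i) ∈ S.P
        rw [h1]
        exact ha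
      · show φ (gb i) ∈ S.P
        rw [h2]
        exact hb
  obtain ⟨u, hu⟩ := kG2 (S.comp hφ) hg hE'
  have hu' : ∀ x ∈ Bk g n 0 2, S.v (φ x) = u - S.ρ (φ x) u := hu
  -- the first handle
  have h0 : ∀ t : F g n, t ∈ Bk g n 0 2 → (y * t * y⁻¹)⁻¹ * φ t ∈ NN g n →
      S.ρ t (S.ρ y⁻¹ (S.v y - u)) = S.ρ y⁻¹ (S.v y - u) := by
    intro t ht h
    have h1 := hu' t ht
    rw [(hEq h).1, (hEq h).2, S.v_conj (hv t ht)] at h1
    have h2 : S.ρ (y * t * y⁻¹) (S.v y - u) = S.v y - u := by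
      rw [map_sub]
      have h3 : S.v y - u - (S.ρ (y * t * y⁻¹) (S.v y) - S.ρ (y * t * y⁻¹) u) =
          (S.v y - S.ρ (y * t * y⁻¹) (S.v y)) - (u - S.ρ (y * t * y⁻¹) u) := by abel
      rw [h1, sub_self] at h3
      exact (sub_eq_zero.mp h3).symm
    have h4 : S.ρ y⁻¹ (S.ρ (y * t * y⁻¹) (S.v y - u)) = S.ρ t (S.ρ y⁻¹ (S.v y - u)) := by
      rw [← Module.End.mul_apply, ← Module.End.mul_apply, ← map_mul, ← map_mul]
      congr 2
      group
    rw [← h4, h2]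
  refine ⟨S.ρ y⁻¹ (S.v y - u), u, ?_, ?_, ?_⟩
  · rw [S.ρ_mul_inv]
    abel
  · intro i hi
    obtain ⟨h1, h2⟩ := hf0 i hi
    exact ⟨h0 _ (Bk_a (Nat.zero_le _) (by omega)) h1, h0 _ (Bk_b (Nat.zero_le _) (by omega)) h2⟩
  · intro i hi
    obtain ⟨h1, h2⟩ := hf1 i hi
    have key : ∀ t : F g n, t ∈ Bk g n 0 2 → φ t = t → S.ρ t u = u := by
      intro t ht h
      have h3 := hu' t ht
      rw [h, hv t ht] at h3
      exact (sub_eq_zero.mp h3.symm).symm
    exact ⟨key _ (Bk_a (Nat.zero_le _) (by omega)) h1, key _ (Bk_b (Nat.zero_le _) (by omega)) h2⟩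

end Pool.Agent.PWB
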