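import Pool.Agent.PWB.BlkA
import Pool.Agent.PWM.Two
import Pool.Agent.PWM.Sep

/-!
# The block: functionals which are alive at both ends
-/

namespace Pool.Agent.PWB

open Pool.Agent.PW Pool.Agent.PWM

private theorem lt01 : ((0 : Fin 2) : ℕ) < ((1 : Fin 2) : ℕ) := by decide

private theorem suc01 : ((1 : Fin 2) : ℕ) = ((0 : Fin 2) : ℕ) + 1 := by decide

private theorem ne01 : (0 : Fin 2) ≠ 1 := by decide

section

variable {A : Type} [CommGroup A]

/-- The values of a homomorphism to a commutative group after `Lp`. -/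
private theorem val_L (μ : F 2 0 →* A) :
    μ (Lp (n := 0) (0 : Fin 2) 1 lt01 (ga 0)) = μ (ga 0) ∧
    μ (Lp (n := 0) (0 : Fin 2) 1 lt01 (ga 1)) = μ (ga 1) ∧
    μ (Lp (n := 0) (0 : Fin 2) 1 lt01 (gb 0)) = μ (gb 0) * μ (ga 1) ∧
    μ (Lp (n := 0) (0 : Fin 2) 1 lt01 (gb 1)) = μ (gb 1) * μ (ga 0) := by
  refine ⟨by rw [Lp_az], ?_, ?_, ?_⟩
  · rw [Lp_ao lt01 suc01]
    unfold gg
    simp only [map_mul, map_inv, mul_inv_cancel_comm]
    rw [mul_comm (μ (ga 0))⁻¹, inv_mul_cancel_right]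
  · rw [Lp_bz lt01 suc01]
    unfold gg
    simp only [map_mul, map_inv, mul_inv_cancel_comm]
    rw [mul_assoc, mul_assoc, mul_comm (μ (gb 0)), ← mul_assoc, mul_comm (μ (ga 0))⁻¹,
      mul_assoc, inv_mul_cancel_left, mul_comm]
  · rw [Lp_bo lt01 suc01]
    unfold gg
    simp only [map_mul, map_inv, mul_inv_cancel_comm]

/-- Two homomorphisms which are nontrivial on a handle have a common nontrivial letter. -/
private theorem common (i : Fin 2) (ν ν' : F 2 0 →* A) (h : ν (ga i) ≠ 1 ∨ ν (gb i) ≠ 1)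
    (h' : ν' (ga i) ≠ 1 ∨ ν' (gb i) ≠ 1) : ∃ r ∈ MCGd 2, ν (r (ga i)) ≠ 1 ∧ ν' (r (ga i)) ≠ 1 ∧
      (∀ j, j ≠ i → r (ga j) = ga j ∧ r (gb j) = gb j) ∧
      ∀ μ : F 2 0 →* A, μ (ga i) = 1 → μ (gb i) = 1 → μ (r (ga i)) = 1 ∧ μ (r (gb i)) = 1 := by
  have hE : ∀ μ : F 2 0 →* A, μ (ga i) = 1 → μ (gb i) = 1 →
      μ (e2 (n := 0) i 1 (ga i)) = 1 ∧ μ (e2 (n := 0) i 1 (gb i)) = 1 := by
    intro μ ha hb
    rw [e2_apply, e2_apply, e2h_a, e2h_b, zpow_one, map_mul, ha, hb]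
    simp
  have hR : ∀ μ : F 2 0 →* A, μ (ga i) = 1 → μ (gb i) = 1 →
      μ (rr (n := 0) i (ga i)) = 1 ∧ μ (rr (n := 0) i (gb i)) = 1 := by
    intro μ ha hb
    rw [rr_a, rr_b, map_mul, map_mul, map_inv, ha, hb]
    simp
  by_cases h1 : ν (ga i) = 1
  · have h2 : ν (gb i) ≠ 1 := h.resolve_left (fun h => h h1)
    by_cases h3 : ν' (gb i) = 1
    · have h4 : ν' (ga i) ≠ 1 := h'.resolve_right (fun h => h h3)
      refine ⟨e2 i 1, e2_bdry i 1, ?_, ?_, fun j hj => ⟨?_, ?_⟩, hE⟩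
      · rw [e2_apply, e2h_a, zpow_one, map_mul, h1, one_mul]
        exact h2
      · rw [e2_apply, e2h_a, zpow_one, map_mul, h3, mul_one]
        exact h4
      · rw [e2_apply, e2h_a' hj]
      · rw [e2_apply, e2h_b]
    · refine ⟨rr i, rr_bdry i, ?_, ?_, fun j hj => ⟨rr_a' hj, rr_b' hj⟩, hR⟩
      · rw [rr_a]
        simpa using h2
      · rw [rr_a]
        simpa using h3
  · by_cases h3 : ν' (ga i) = 1
    · have h4 : ν' (gb i) ≠ 1 := h'.resolve_left (fun h => h h3)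
      by_cases h2 : ν (gb i) = 1
      · refine ⟨e2 i 1, e2_bdry i 1, ?_, ?_, fun j hj => ⟨?_, ?_⟩, hE⟩
        · rw [e2_apply, e2h_a, zpow_one, map_mul, h2, mul_one]
          exact h1
        · rw [e2_apply, e2h_a, zpow_one, map_mul, h3, one_mul]
          exact h4
        · rw [e2_apply, e2h_a' hj]
        · rw [e2_apply, e2h_b]
      · refine ⟨rr i, rr_bdry i, ?_, ?_, fun j hj => ⟨rr_a' hj, rr_b' hj⟩, hR⟩
        · rw [rr_a]
          simpa using h2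
        · rw [rr_a]
          simpa using h4
    · exact ⟨1, Subgroup.one_mem _, h1, h3, fun j _ => ⟨rfl, rfl⟩, fun μ ha hb => ⟨ha, hb⟩⟩

/-- (Two, for pairs) -/
theorem two_pair (ν ν' : F 2 0 →* A) (hν : ν ≠ 1) (hν' : ν' ≠ 1) : ∃ ψ ∈ MCGd 2,
    (ν (ψ (ga 1)) ≠ 1 ∨ ν (ψ (gb 1)) ≠ 1) ∧ (ν' (ψ (ga 0)) ≠ 1 ∨ ν' (ψ (gb 0)) ≠ 1) := by
  have hz : ∀ μ : F 2 0 →* A, μ ≠ 1 → ¬ (μ (ga 0) ≠ 1 ∨ μ (gb 0) ≠ 1) →
      (μ (ga 1) ≠ 1 ∨ μ (gb 1) ≠ 1) := by
    intro μ hμ h0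
    by_contra h1
    push Not at h0 h1
    apply hμ
    apply FreeGroup.ext_hom
    intro x
    cases x with
    | a i =>
      fin_cases i
      · exact h0.1
      · exact h1.1
    | b i =>
      fin_cases i
      · exact h0.2
      · exact h1.2
    | c j => exact j.elim0
  have hL : Lp (n := 0) (0 : Fin 2) 1 lt01 ∈ MCGd 2 := Lp_bdry lt01
  by_cases h1 : ν (ga 1) ≠ 1 ∨ ν (gb 1) ≠ 1
  · by_cases h2 : ν' (ga 0) ≠ 1 ∨ ν' (gb 0) ≠ 1
    · exact ⟨1, Subgroup.one_mem _, h1, h2⟩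
    · obtain ⟨r, hr, hr1, hr2, hr3, -⟩ := common 1 ν ν' h1 (hz ν' hν' h2)
      push Not at h2
      obtain ⟨h2a, h2b⟩ := h2
      refine ⟨r * Lp 0 1 lt01, Subgroup.mul_mem _ hr hL, Or.inl ?_, Or.inr ?_⟩
      · have := (val_L (ν.comp r.toMonoidHom)).2.1
        show ν (r (Lp 0 1 lt01 (ga 1))) ≠ 1
        have e : ν (r (Lp 0 1 lt01 (ga 1))) = ν (r (ga 1)) := this
        rw [e]
        exact hr1
      · have := (val_L (ν'.comp r.toMonoidHom)).2.2.1
        show ν' (r (Lp 0 1 lt01 (gb 0))) ≠ 1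
        have e : ν' (r (Lp 0 1 lt01 (gb 0))) = ν' (r (gb 0)) * ν' (r (ga 1)) := this
        rw [e, (hr3 0 ne01).2, h2b, one_mul]
        exact hr2
  · have h0 : ν (ga 0) ≠ 1 ∨ ν (gb 0) ≠ 1 := by
      by_contra h
      exact h1 (hz ν hν h)
    push Not at h1
    obtain ⟨h1a, h1b⟩ := h1
    by_cases h2 : ν' (ga 0) ≠ 1 ∨ ν' (gb 0) ≠ 1
    · obtain ⟨r, hr, hr1, hr2, hr3, -⟩ := common 0 ν ν' h0 h2
      refine ⟨r * Lp 0 1 lt01, Subgroup.mul_mem _ hr hL, Or.inr ?_, Or.inl ?_⟩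
      · have := (val_L (ν.comp r.toMonoidHom)).2.2.2
        show ν (r (Lp 0 1 lt01 (gb 1))) ≠ 1
        have e : ν (r (Lp 0 1 lt01 (gb 1))) = ν (r (gb 1)) * ν (r (ga 0)) := this
        rw [e, (hr3 1 ne01.symm).2, h1b, one_mul]
        exact hr1
      · have := (val_L (ν'.comp r.toMonoidHom)).1
        show ν' (r (Lp 0 1 lt01 (ga 0))) ≠ 1
        have e : ν' (r (Lp 0 1 lt01 (ga 0))) = ν' (r (ga 0)) := this
        rw [e]
        exact hr2
    · have h3 := hz ν' hν' h2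
      push Not at h2
      obtain ⟨h2a, h2b⟩ := h2
      obtain ⟨r, hr, hr1, -, hr3, hr4⟩ := common 0 ν ν h0 h0
      obtain ⟨s, hs, hs1, -, hs3, hs4⟩ := common 1 ν' ν' h3 h3
      refine ⟨s * r * Lp 0 1 lt01, Subgroup.mul_mem _ (Subgroup.mul_mem _ hs hr) hL,
        Or.inr ?_, Or.inr ?_⟩
      · have := (val_L (ν.comp (s * r).toMonoidHom)).2.2.2
        show ν ((s * r) (Lp 0 1 lt01 (gb 1))) ≠ 1
        have e : ν ((s * r) (Lp 0 1 lt01 (gb 1))) = ν ((s * r) (gb 1)) * ν ((s * r) (ga 0)) := this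
        have hx : ∀ x : F 2 0, ν (s x) = ν x := by
          have h5 : ν.comp s.toMonoidHom = ν := by
            apply FreeGroup.ext_hom
            intro x
            cases x with
            | a i =>
              fin_cases i
              · show ν (s (ga 0)) = ν (ga 0)
                rw [(hs3 0 ne01).1]
              · show ν (s (ga 1)) = ν (ga 1)
                rw [(hs4 ν h1a h1b).1, h1a]
            | b i =>
              fin_cases i
              · show ν (s (gb 0)) = ν (gb 0)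
                rw [(hs3 0 ne01).2]
              · show ν (s (gb 1)) = ν (gb 1)
                rw [(hs4 ν h1a h1b).2, h1b]
            | c j => exact j.elim0
          intro x
          exact DFunLike.congr_fun h5 x
        rw [e, MulAut.mul_apply, MulAut.mul_apply, hx, hx, (hr3 1 ne01.symm).2, h1b, one_mul]
        exact hr1
      · have := (val_L (ν'.comp (s * r).toMonoidHom)).2.2.1
        show ν' ((s * r) (Lp 0 1 lt01 (gb 0))) ≠ 1
        have e : ν' ((s * r) (Lp 0 1 lt01 (gb 0))) = ν' ((s * r) (gb 0)) * ν' ((s * r) (ga 1)) :=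
          this
        have h6 : ν' (s (r (gb 0))) = 1 := (hr4 (ν'.comp s.toMonoidHom) (by
          show ν' (s (ga 0)) = 1
          rw [(hs3 0 ne01).1, h2a]) (by
          show ν' (s (gb 0)) = 1
          rw [(hs3 0 ne01).2, h2b])).2
        rw [e, MulAut.mul_apply, MulAut.mul_apply, (hr3 1 ne01.symm).1, h6, one_mul]
        exact hs1

end

variable {g n : ℕ} {k : Type} [Field k] [CharZero k] {V : Type} [AddCommGroup V] [Module k V]

/-- A functional which is alive at both ends of `y` vanishes at `v y`. -/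
theorem kPair (S : KSys g n k V) (hg : 2 ≤ g) (hE : Bk g n 0 2 ≤ S.P)
    (hv : ∀ t ∈ Bk g n 0 2, S.v t = 0) (l : V →ₗ[k] k) (ν : F g n → k)
    (hl : ∀ x ∈ S.P, ∀ w, l (S.ρ x w) = ν x * l w) (y : F g n) (hy : y ∈ Fge g n 2)
    (h1 : ∃ t ∈ Bk g n 0 2, ∃ w, l (S.ρ t w) ≠ l w)
    (h2 : ∃ t ∈ Bk g n 0 2, ∃ w, l (S.ρ y (S.ρ t w)) ≠ l (S.ρ y w)) : l (S.v y) = 0 := by
  obtain ⟨t1, ht1, w1, hw1⟩ := h1
  obtain ⟨t2, ht2, w2, hw2⟩ := h2
  -- the functional is not zero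
  obtain ⟨u, hu⟩ : ∃ u, l u ≠ 0 := by
    by_contra hc
    push Not at hc
    exact hw1 (by rw [hc, hc])
  have hνmul : ∀ a ∈ S.P, ∀ b ∈ S.P, ν (a * b) = ν a * ν b := by
    intro a ha b hb
    have h1 := hl (a * b) (S.P.mul_mem ha hb) u
    rw [map_mul, Module.End.mul_apply, hl a ha, hl b hb, ← mul_assoc] at h1
    exact (mul_right_cancel₀ hu h1).symm
  have hν1 : ν 1 = 1 := by
    have h1 := hl 1 S.P.one_mem u
    rw [map_one, Module.End.one_apply] at h1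
    exact (mul_right_cancel₀ hu (by rw [one_mul]; exact h1)).symm
  have hν0 : ∀ a ∈ S.P, ν a ≠ 0 := by
    intro a ha h0
    have h1 := hνmul a ha a⁻¹ (S.P.inv_mem ha)
    rw [mul_inv_cancel, hν1, h0, zero_mul] at h1
    exact one_ne_zero h1
  have hm : 0 + 2 ≤ g := by omega
  have hBm : ∀ x : F 2 0, blk 2 g n 0 hm x ∈ Bk g n 0 2 := by
    intro x
    rw [← blk_range hm]
    exact ⟨x, rfl⟩
  have hBP : ∀ x : F 2 0, blk 2 g n 0 hm x ∈ S.P := fun x => hE (hBm x)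
  have hBP' : ∀ x : F 2 0, y * blk 2 g n 0 hm x * y⁻¹ ∈ S.P := fun x => S.nor _ (hBP x) y
  let N : F 2 0 →* kˣ := MonoidHom.mk' (fun x => Units.mk0 (ν (blk 2 g n 0 hm x)) (hν0 _ (hBP x)))
    (by
      intro a b
      apply Units.ext
      show ν (blk 2 g n 0 hm (a * b)) = ν (blk 2 g n 0 hm a) * ν (blk 2 g n 0 hm b)
      rw [map_mul, hνmul _ (hBP a) _ (hBP b)])
  let N' : F 2 0 →* kˣ := MonoidHom.mk'
    (fun x => Units.mk0 (ν (y * blk 2 g n 0 hm x * y⁻¹)) (hν0 _ (hBP' x)))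
    (by
      intro a b
      apply Units.ext
      show ν (y * blk 2 g n 0 hm (a * b) * y⁻¹) =
        ν (y * blk 2 g n 0 hm a * y⁻¹) * ν (y * blk 2 g n 0 hm b * y⁻¹)
      rw [← hνmul _ (hBP' a) _ (hBP' b), map_mul]
      congr 1
      group)
  have hN : ∀ x, ((N x : kˣ) : k) = ν (blk 2 g n 0 hm x) := fun x => rfl
  have hN' : ∀ x, ((N' x : kˣ) : k) = ν (y * blk 2 g n 0 hm x * y⁻¹) := fun x => rfl
  have hl' : ∀ t ∈ S.P, ∀ w, l (S.ρ y (S.ρ t w)) = ν (y * t * y⁻¹) * l (S.ρ y w) := by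
    intro t ht w
    rw [← hl _ (S.nor t ht y), ← Module.End.mul_apply, ← Module.End.mul_apply, ← map_mul,
      ← map_mul]
    congr 3
    group
  have hNne : N ≠ 1 := by
    intro h
    have ht' := ht1
    rw [← blk_range hm] at ht'
    obtain ⟨x, hx⟩ := ht'
    apply hw1
    have h3 := hN x
    rw [h, MonoidHom.one_apply, Units.val_one, hx] at h3
    rw [hl t1 (hE ht1), ← h3, one_mul]
  have hNne' : N' ≠ 1 := by
    intro h
    have ht' := ht2
    rw [← blk_range hm] at ht'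
    obtain ⟨x, hx⟩ := ht'
    apply hw2
    have h3 := hN' x
    rw [h, MonoidHom.one_apply, Units.val_one, hx] at h3
    rw [hl' t2 (hE ht2), ← h3, one_mul]
  obtain ⟨ψ, hψ, hψ1, hψ0⟩ := two_pair N N' hNne hNne'
  obtain ⟨Ψ, hΨ, hΨb⟩ := exists_blkExt (n := n) st_Blk hm hψ
  have hΨy : Ψ y = y := hΨ.fix_ge (by omega) hy
  have hE' : Bk g n 0 2 ≤ (S.comp hΨ.1).P := by
    intro x hx
    exact hE (hΨ.map_bk hx)
  have hv' : ∀ t ∈ Bk g n 0 2, (S.comp hΨ.1).v t = 0 := fun t ht => hv _ (hΨ.map_bk ht)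
  obtain ⟨z0, z1, hz, h0, h1⟩ := kStar (S.comp hΨ.1) hg hE' hv' y hy
  have hz' : S.v y = z1 + S.ρ y z0 := by
    have h3 : S.v (Ψ y) = z1 + S.ρ (Ψ y) z0 := hz
    rwa [hΨy] at h3
  have k1 : ∀ (x : F 2 0), N (ψ x) ≠ 1 → S.ρ (Ψ (blk 2 g n 0 hm x)) z1 = z1 → l z1 = 0 := by
    intro x hx hw
    rw [hΨb] at hw
    have h2 := hl _ (hBP (ψ x)) z1
    rw [hw] at h2
    have h3 : (ν (blk 2 g n 0 hm (ψ x)) - 1) * l z1 = 0 := by
      rw [sub_mul, ← h2, one_mul, sub_self]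
    rcases mul_eq_zero.mp h3 with h | h
    · exfalso
      apply hx
      apply Units.ext
      rw [hN, Units.val_one]
      exact sub_eq_zero.mp h
    · exact h
  have k0 : ∀ (x : F 2 0), N' (ψ x) ≠ 1 → S.ρ (Ψ (blk 2 g n 0 hm x)) z0 = z0 →
      l (S.ρ y z0) = 0 := by
    intro x hx hw
    rw [hΨb] at hw
    have h2 := hl' _ (hBP (ψ x)) z0
    rw [hw] at h2
    have h3 : (ν (y * blk 2 g n 0 hm (ψ x) * y⁻¹) - 1) * l (S.ρ y z0) = 0 := by
      rw [sub_mul, ← h2, one_mul, sub_self]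
    rcases mul_eq_zero.mp h3 with h | h
    · exfalso
      apply hx
      apply Units.ext
      rw [hN', Units.val_one]
      exact sub_eq_zero.mp h
    · exact h
  have hl1 : l z1 = 0 := by
    rcases hψ1 with h | h
    · refine k1 (ga 1) h ?_
      rw [blk_a]
      exact (h1 _ (by simp)).1
    · refine k1 (gb 1) h ?_
      rw [blk_b]
      exact (h1 _ (by simp)).2
  have hl0 : l (S.ρ y z0) = 0 := by
    rcases hψ0 with h | h
    · refine k0 (ga 0) h ?_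
      rw [blk_a]
      exact (h0 _ (by simp)).1
    · refine k0 (gb 0) h ?_
      rw [blk_b]
      exact (h0 _ (by simp)).2
  rw [hz', map_add, hl1, hl0, add_zero]

end Pool.Agent.PWB
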