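import Pool.Agent.PWB.BlkB
import Pool.Agent.PW.Central

/-!
# The block: `v = 0` on the elements away from the block with trivial operator
-/

namespace Pool.Agent.PWB

open Pool.Agent.PW Pool.Agent.PWM

variable {g n : ℕ} {k : Type} [Field k] {V : Type} [AddCommGroup V] [Module k V]

/-- `v y` is fixed by the block. -/
theorem kG5 [CharZero k] (S : KSys g n k V) (hg : 2 ≤ g) (hE : Bk g n 0 2 ≤ S.P)
    (hv : ∀ t ∈ Bk g n 0 2, S.v t = 0) (y : F g n) (hy : y ∈ Fge g n 2) (hy1 : S.ρ y = 1)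
    (t : F g n) (ht : t ∈ Bk g n 0 2) : S.ρ t (S.v y) = S.v y := by
  by_contra hne
  have hz : S.ρ t (S.v y) - S.v y ≠ 0 := sub_ne_zero.mpr hne
  obtain ⟨l, ν, hl, hlz⟩ := st_Sep S.ρ S.P S.fin S.comm S.roots _ hz
  have e : l (S.ρ t (S.v y) - S.v y) = (ν t - 1) * l (S.v y) := by
    rw [map_sub, hl t (hE ht)]
    ring
  have h1 : (ν t - 1) * l (S.v y) ≠ 0 := by
    rw [← e]
    exact hlz
  have h2 : l (S.v y) ≠ 0 := right_ne_zero_of_mul h1
  have h3 : l (S.ρ t (S.v y)) ≠ l (S.v y) := by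
    intro h
    apply hlz
    rw [map_sub, h, sub_self]
  refine h2 (kPair S hg hE hv l ν hl y hy ⟨t, ht, _, h3⟩ ⟨t, ht, S.v y, ?_⟩)
  rw [hy1]
  exact h3

private theorem cj (S : KSys g n k V) (x : F g n) {y : F g n} (hy : S.ρ y = 1) :
    S.v (x * y * x⁻¹) = S.ρ x (S.v y) := by
  rw [S.coc, S.coc, map_mul, hy, mul_one, S.ρ_v_inv]
  abel

/-- The operators permute the values at the elements with trivial operator. -/
private theorem perm (S : KSys g n k V)
    (h5 : ∀ y ∈ Fge g n 2, S.ρ y = 1 → ∀ t ∈ Bk g n 0 2, S.ρ t (S.v y) = S.v y) (x : F g n) :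
    ∀ y ∈ Fge g n 2, S.ρ y = 1 → ∃ y' ∈ Fge g n 2, S.ρ y' = 1 ∧ S.ρ x (S.v y) = S.v y' := by
  let P : Subgroup (F g n) :=
    { carrier := {x | (∀ y ∈ Fge g n 2, S.ρ y = 1 →
          ∃ y' ∈ Fge g n 2, S.ρ y' = 1 ∧ S.ρ x (S.v y) = S.v y') ∧
        (∀ y ∈ Fge g n 2, S.ρ y = 1 →
          ∃ y' ∈ Fge g n 2, S.ρ y' = 1 ∧ S.ρ x⁻¹ (S.v y) = S.v y')}
      one_mem' := by
        constructor
        · intro y hy h
          exact ⟨y, hy, h, by rw [map_one, Module.End.one_apply]⟩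
        · intro y hy h
          exact ⟨y, hy, h, by rw [inv_one, map_one, Module.End.one_apply]⟩
      mul_mem' := by
        rintro a b ⟨ha, ha'⟩ ⟨hb, hb'⟩
        constructor
        · intro y hy h
          obtain ⟨y1, h1, h2, h3⟩ := hb y hy h
          obtain ⟨y2, h4, h5, h6⟩ := ha y1 h1 h2
          exact ⟨y2, h4, h5, by rw [map_mul, Module.End.mul_apply, h3, h6]⟩
        · intro y hy h
          obtain ⟨y1, h1, h2, h3⟩ := ha' y hy h
          obtain ⟨y2, h4, h5, h6⟩ := hb' y1 h1 h2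
          exact ⟨y2, h4, h5, by rw [mul_inv_rev, map_mul, Module.End.mul_apply, h3, h6]⟩
      inv_mem' := by
        rintro a ⟨ha, ha'⟩
        refine ⟨ha', ?_⟩
        rw [inv_inv]
        exact ha }
  have hF : Fge g n 2 ≤ P := by
    have key : ∀ x ∈ Fge g n 2, ∀ y ∈ Fge g n 2, S.ρ y = 1 →
        ∃ y' ∈ Fge g n 2, S.ρ y' = 1 ∧ S.ρ x (S.v y) = S.v y' := by
      intro x hx y hy h
      refine ⟨x * y * x⁻¹, (Fge g n 2).mul_mem ((Fge g n 2).mul_mem hx hy)
        ((Fge g n 2).inv_mem hx), ?_, (cj S x h).symm⟩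
      rw [map_mul, map_mul, h, mul_one, ← map_mul, mul_inv_cancel, map_one]
    intro x hx
    exact ⟨key x hx, key x⁻¹ ((Fge g n 2).inv_mem hx)⟩
  have hB : Flt g n 2 ≤ P := by
    rw [Flt_eq]
    intro x hx
    exact ⟨fun y hy h => ⟨y, hy, h, h5 y hy h x hx⟩,
      fun y hy h => ⟨y, hy, h, h5 y hy h x⁻¹ ((Bk g n 0 2).inv_mem hx)⟩⟩
  have htop : (⊤ : Subgroup (F g n)) ≤ P := by
    rw [← Flt_sup_Fge 2]
    exact sup_le hB hF
  exact (htop (Subgroup.mem_top x)).1

/-- The values are fixed by the normal closure of the block. -/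
private theorem fixQ (S : KSys g n k V)
    (h5 : ∀ y ∈ Fge g n 2, S.ρ y = 1 → ∀ t ∈ Bk g n 0 2, S.ρ t (S.v y) = S.v y) :
    ∀ q ∈ Subgroup.normalClosure (Bk g n 0 2 : Set (F g n)), ∀ y ∈ Fge g n 2, S.ρ y = 1 →
      S.ρ q (S.v y) = S.v y := by
  intro q hq y hy h
  unfold Subgroup.normalClosure at hq
  induction hq using Subgroup.closure_induction with
  | mem z hz =>
    rw [Group.mem_conjugatesOfSet_iff] at hz
    obtain ⟨t, ht, hc⟩ := hz
    obtain ⟨c, hc⟩ := isConj_iff.mp hc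
    obtain ⟨y', h1, h2, h3⟩ := perm S h5 c⁻¹ y hy h
    rw [← hc, map_mul, map_mul, Module.End.mul_apply, Module.End.mul_apply, h3,
      h5 y' h1 h2 t ht, ← h3, S.ρ_mul_inv]
  | one => rw [map_one, Module.End.one_apply]
  | mul a b _ _ ha hb => rw [map_mul, Module.End.mul_apply, hb, ha]
  | inv a _ ha =>
    have h1 := S.ρ_inv_mul a (S.v y)
    rwa [ha] at h1

/-- Invariant functionals vanish on the values at the normal closure. -/
private theorem zeroQ (S : KSys g n k V) (hv : ∀ t ∈ Bk g n 0 2, S.v t = 0)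
    (m : V →ₗ[k] k)
    (hm : ∀ q ∈ Subgroup.normalClosure (Bk g n 0 2 : Set (F g n)), ∀ u, m (S.ρ q u) = m u) :
    ∀ q ∈ Subgroup.normalClosure (Bk g n 0 2 : Set (F g n)), m (S.v q) = 0 := by
  have key : Subgroup.normalClosure (Bk g n 0 2 : Set (F g n)) ≤
      ({ carrier := {q | q ∈ Subgroup.normalClosure (Bk g n 0 2 : Set (F g n)) ∧
            m (S.v q) = 0}
         one_mem' := ⟨Subgroup.one_mem _, by rw [S.v_one, map_zero]⟩
         mul_mem' := by
          rintro a b ⟨ha, ha'⟩ ⟨hb, hb'⟩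
          exact ⟨Subgroup.mul_mem _ ha hb, by rw [S.coc, map_add, hm a ha, ha', hb', add_zero]⟩
         inv_mem' := by
          rintro a ⟨ha, ha'⟩
          refine ⟨Subgroup.inv_mem _ ha, ?_⟩
          rw [S.v_inv, map_neg, hm _ (Subgroup.inv_mem _ ha), ha', neg_zero] } :
        Subgroup (F g n)) := by
    conv_lhs => rw [Subgroup.normalClosure]
    rw [Subgroup.closure_le]
    intro z hz
    have hz1 : z ∈ Subgroup.normalClosure (Bk g n 0 2 : Set (F g n)) :=
      Subgroup.conjugatesOfSet_subset_normalClosure hz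
    refine ⟨hz1, ?_⟩
    rw [Group.mem_conjugatesOfSet_iff] at hz
    obtain ⟨t, ht, hc⟩ := hz
    obtain ⟨c, hc⟩ := isConj_iff.mp hc
    have e1 : S.v z = S.v c - S.ρ z (S.v c) := by
      rw [← hc, S.v_conj (hv t ht)]
    rw [e1, map_sub, hm z hz1, sub_self]
  exact fun q hq => (key hq).2

private theorem away' {z : Fin g} (hz : (z : ℕ) = 0) : Fge g n 2 ≤ away z := by
  unfold Fge
  rw [Subgroup.closure_le]
  rintro x (⟨i, hi, rfl | rfl⟩ | ⟨j, rfl⟩)
  · exact away_a (by rintro rfl; omega)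
  · exact away_b (by rintro rfl; omega)
  · exact away_c z j

/-- Invariant functionals vanish at `v y`. -/
private theorem invm [CharZero k] (S : KSys g n k V) (hg : 2 ≤ g)
    (hv : ∀ t ∈ Bk g n 0 2, S.v t = 0) (m : V →ₗ[k] k)
    (hm : ∀ q ∈ Subgroup.normalClosure (Bk g n 0 2 : Set (F g n)), ∀ u, m (S.ρ q u) = m u)
    {y : F g n} (hy : y ∈ Fge g n 2) (hρ : S.ρ y = 1) : m (S.v y) = 0 := by
  have hQ := zeroQ S hv m hm
  obtain ⟨-, φ, hφ, hqa⟩ := pushable_eq (n := n) (z := (⟨0, by omega⟩ : Fin g)) rfl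
    (away' rfl hy)
  have hbk : ∀ x ∈ Bk g n 0 2, x ∈ Subgroup.normalClosure (Bk g n 0 2 : Set (F g n)) :=
    fun x hx => Subgroup.subset_normalClosure hx
  obtain ⟨q, hq, he⟩ : ∃ q ∈ Subgroup.normalClosure (Bk g n 0 2 : Set (F g n)),
      φ (gb ⟨0, by omega⟩) = y * q := by
    unfold qa at hqa
    rw [QuotientGroup.mk'_apply, QuotientGroup.mk'_apply, QuotientGroup.eq] at hqa
    have hle : Subgroup.normalClosure {(ga ⟨0, by omega⟩ : F g n)} ≤
        Subgroup.normalClosure (Bk g n 0 2 : Set (F g n)) := by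
      apply Subgroup.normalClosure_mono
      rintro _ rfl
      exact Bk_a (le_refl _) (by simp)
    have h1 := hle hqa
    refine ⟨y⁻¹ * φ (gb ⟨0, by omega⟩), ?_, by group⟩
    have e : y⁻¹ * φ (gb (⟨0, by omega⟩ : Fin g)) =
        gb ⟨0, by omega⟩ * ((φ (gb ⟨0, by omega⟩))⁻¹ * (y * gb ⟨0, by omega⟩))⁻¹ := by
      group
    rw [e]
    exact Subgroup.mul_mem _ (hbk _ (Bk_b (le_refl _) (by simp))) (Subgroup.inv_mem _ h1)
  obtain ⟨M, hM, -, hvM⟩ := (S.kill φ hφ.1 ⟨0, by omega⟩).2.1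
  rw [he] at hvM
  have key : ∀ j : ℕ, m (S.v ((y * q) ^ j)) = j * m (S.v y) := by
    intro j
    induction j with
    | zero => simp [S.v_one]
    | succ j ih =>
      have e1 : S.ρ ((y * q) ^ j) = S.ρ (q ^ j) := by
        rw [map_pow, map_mul, hρ, one_mul, ← map_pow]
      rw [pow_succ, S.coc, map_add, ih, e1, hm _ (Subgroup.pow_mem _ hq j), S.coc, map_add, hρ,
        Module.End.one_apply, hQ q hq, add_zero]
      push_cast
      ring
  have h2 := key M
  rw [hvM, map_zero] at h2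
  have h3 : (M : k) ≠ 0 := by exact_mod_cast hM.ne'
  rcases mul_eq_zero.mp h2.symm with h4 | h4
  · exact absurd h4 h3
  · exact h4

/-- `v` vanishes on the elements away from the block with trivial operator. -/
theorem kG7 [CharZero k] (S : KSys g n k V) (hg : 2 ≤ g) (hE : Bk g n 0 2 ≤ S.P)
    (hv : ∀ t ∈ Bk g n 0 2, S.v t = 0) (y : F g n) (hy : y ∈ Fge g n 2) (hρ : S.ρ y = 1) :
    S.v y = 0 := by
  have h5' : ∀ y ∈ Fge g n 2, S.ρ y = 1 → ∀ t ∈ Bk g n 0 2, S.ρ t (S.v y) = S.v y :=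
    fun y hy h t ht => kG5 S hg hE hv y hy h t ht
  by_contra hne
  obtain ⟨m0, hm0⟩ : ∃ m0 : V →ₗ[k] k, m0 (S.v y) ≠ 0 := by
    by_contra hc
    push Not at hc
    exact hne ((Module.forall_dual_apply_eq_zero_iff k (S.v y)).mp hc)
  have hfin : (S.ρ '' (Subgroup.normalClosure (Bk g n 0 2 : Set (F g n)) :
      Set (F g n))).Finite := S.fin.subset (Set.image_subset_range _ _)
  have hmem : ∀ r, r ∈ hfin.toFinset ↔
      ∃ q ∈ Subgroup.normalClosure (Bk g n 0 2 : Set (F g n)), S.ρ q = r := by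
    intro r
    rw [Set.Finite.mem_toFinset]
    rfl
  let m : V →ₗ[k] k := ∑ r ∈ hfin.toFinset, m0 ∘ₗ r
  have hmval : ∀ u, m u = ∑ r ∈ hfin.toFinset, m0 (r u) := by
    intro u
    show (∑ r ∈ hfin.toFinset, m0 ∘ₗ r) u = _
    rw [LinearMap.sum_apply]
    rfl
  have hm : ∀ q ∈ Subgroup.normalClosure (Bk g n 0 2 : Set (F g n)), ∀ u,
      m (S.ρ q u) = m u := by
    intro q hq u
    rw [hmval, hmval]
    apply Finset.sum_nbij' (fun r => r * S.ρ q) (fun r => r * S.ρ q⁻¹)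
    · intro r hr
      obtain ⟨q', hq', rfl⟩ := (hmem r).mp hr
      exact (hmem _).mpr ⟨q' * q, Subgroup.mul_mem _ hq' hq, map_mul _ _ _⟩
    · intro r hr
      obtain ⟨q', hq', rfl⟩ := (hmem r).mp hr
      exact (hmem _).mpr ⟨q' * q⁻¹, Subgroup.mul_mem _ hq' (Subgroup.inv_mem _ hq),
        map_mul _ _ _⟩
    · intro r _
      show r * S.ρ q * S.ρ q⁻¹ = r
      rw [mul_assoc, ← map_mul, mul_inv_cancel, map_one, mul_one]
    · intro r _
      show r * S.ρ q⁻¹ * S.ρ q = r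
      rw [mul_assoc, ← map_mul, inv_mul_cancel, map_one, mul_one]
    · intro r _
      rfl
  have h0 := invm S hg hv m hm hy hρ
  rw [hmval, Finset.sum_congr rfl (g := fun _ => m0 (S.v y)) (by
    intro r hr
    obtain ⟨q, hq, rfl⟩ := (hmem r).mp hr
    rw [fixQ S h5' q hq y hy hρ]), Finset.sum_const, nsmul_eq_mul] at h0
  have hcard : ((hfin.toFinset.card : ℕ) : k) ≠ 0 := by
    have : 0 < hfin.toFinset.card := Finset.card_pos.mpr
      ⟨1, (hmem 1).mpr ⟨1, Subgroup.one_mem _, map_one _⟩⟩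
    exact_mod_cast this.ne'
  rcases mul_eq_zero.mp h0 with h | h
  · exact hcard h
  · exact hm0 h

/-- The elements of `H` with trivial operator. -/
def kQ (S : KSys g n k V) (H : Subgroup (F g n)) : Subgroup (F g n) where
  carrier := {y | y ∈ H ∧ S.ρ y = 1}
  one_mem' := ⟨H.one_mem, map_one _⟩
  mul_mem' := by
    rintro x y ⟨hx, h1⟩ ⟨hy, h2⟩
    exact ⟨H.mul_mem hx hy, by rw [map_mul, h1, h2, one_mul]⟩
  inv_mem' := by
    rintro x ⟨hx, h1⟩
    exact ⟨H.inv_mem hx, S.ρ_inv_one h1⟩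

theorem kQ_index (S : KSys g n k V) (H : Subgroup (F g n)) : (kQ S H).relIndex H ≠ 0 := by
  have hfin : Finite (Set.range S.ρ) := S.fin
  have : Finite (H ⧸ (kQ S H).subgroupOf H) := by
    let F' : H ⧸ (kQ S H).subgroupOf H → Set.range S.ρ :=
      Quotient.lift (s := QuotientGroup.leftRel ((kQ S H).subgroupOf H))
        (fun x : H => (⟨S.ρ x, x, rfl⟩ : Set.range S.ρ)) (by
          intro a b hab
          have h1 : a⁻¹ * b ∈ (kQ S H).subgroupOf H := QuotientGroup.leftRel_apply.mp hab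
          have h2 : S.ρ ((a : F g n)⁻¹ * b) = 1 := (Subgroup.mem_subgroupOf.mp h1).2
          apply Subtype.ext
          show S.ρ (a : F g n) = S.ρ (b : F g n)
          have e : (b : F g n) = a * ((a : F g n)⁻¹ * b) := by group
          rw [e, map_mul, h2, mul_one])
    apply Finite.of_injective F'
    intro x y hxy
    induction x using Quotient.inductionOn with
    | _ a =>
    induction y using Quotient.inductionOn with
    | _ b =>
    have h1 : S.ρ (a : F g n) = S.ρ (b : F g n) := congrArg Subtype.val hxy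
    apply Quotient.sound
    show (QuotientGroup.leftRel ((kQ S H).subgroupOf H)).r a b
    rw [QuotientGroup.leftRel_apply, Subgroup.mem_subgroupOf]
    refine ⟨H.mul_mem (H.inv_mem a.2) b.2, ?_⟩
    show S.ρ ((a : F g n)⁻¹ * b) = 1
    rw [map_mul, ← h1, ← map_mul, inv_mul_cancel, map_one]
  exact Subgroup.index_ne_zero_of_finite

/-- `v` is a coboundary away from the block. -/
theorem kGF [CharZero k] (S : KSys g n k V) (hg : 2 ≤ g) (hE : Bk g n 0 2 ≤ S.P)
    (hv : ∀ t ∈ Bk g n 0 2, S.v t = 0) : ∃ u, ∀ y ∈ Fge g n 2, S.v y = u - S.ρ y u :=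
  st_Fix S.ρ S.v S.coc (Fge g n 2) (kQ S (Fge g n 2)) (fun y hy => hy.1) (kQ_index S _)
    fun y hy => kG7 S hg hE hv y hy.1 hy.2

end Pool.Agent.PWB
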