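import Pool.Agent.PWB.BlkC

/-!
# The block: gluing
-/

namespace Pool.Agent.PWB

open Pool.Agent.PW Pool.Agent.PWM

variable {g n : ℕ} {k : Type} [Field k] {V : Type} [AddCommGroup V] [Module k V]

/-- `m` is not invariant under the block. -/
def Alive (S : KSys g n k V) (m : V →ₗ[k] k) : Prop :=
  ∃ t ∈ Bk g n 0 2, ∃ w, m (S.ρ t w) ≠ m w

/-- `m` is an eigenfunctional of `P`. -/
def Egn (S : KSys g n k V) (m : V →ₗ[k] k) : Prop :=
  ∃ ν : F g n → k, ∀ x ∈ S.P, ∀ w, m (S.ρ x w) = ν x * m w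

theorem Egn.comp {S : KSys g n k V} {m : V →ₗ[k] k} (h : Egn S m) (y : F g n) :
    Egn S (m ∘ₗ S.ρ y) := by
  obtain ⟨ν, hν⟩ := h
  refine ⟨fun x => ν (y * x * y⁻¹), fun x hx w => ?_⟩
  show m (S.ρ y (S.ρ x w)) = ν (y * x * y⁻¹) * m (S.ρ y w)
  rw [← hν _ (S.nor x hx y), ← Module.End.mul_apply, ← Module.End.mul_apply, ← map_mul,
    ← map_mul]
  congr 3
  group

theorem comp_comp (S : KSys g n k V) (m : V →ₗ[k] k) (x y : F g n) :
    (m ∘ₗ S.ρ x) ∘ₗ S.ρ y = m ∘ₗ S.ρ (x * y) := by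
  apply LinearMap.ext
  intro w
  show m (S.ρ x (S.ρ y w)) = m (S.ρ (x * y) w)
  rw [map_mul, Module.End.mul_apply]

theorem comp_one (S : KSys g n k V) (m : V →ₗ[k] k) {x : F g n} (hx : S.ρ x = 1) :
    m ∘ₗ S.ρ x = m := by
  apply LinearMap.ext
  intro w
  show m (S.ρ x w) = m w
  rw [hx, Module.End.one_apply]

open Classical in
/-- The value of the fixed point at the functional `m`. -/
noncomputable def cval (S : KSys g n k V) (u : V) (m : V →ₗ[k] k) : k :=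
  if h : ∃ y, y ∈ Fge g n 2 ∧ Alive S (m ∘ₗ S.ρ y) then m (S.v h.choose) else m u

/-- The value does not depend on the choice. -/
theorem cval_eq [CharZero k] (S : KSys g n k V) (hg : 2 ≤ g) (hE : Bk g n 0 2 ≤ S.P)
    (hv : ∀ t ∈ Bk g n 0 2, S.v t = 0) (u : V) {m : V →ₗ[k] k} (hm : Egn S m) {y : F g n}
    (hy : y ∈ Fge g n 2) (ha : Alive S (m ∘ₗ S.ρ y)) : cval S u m = m (S.v y) := by
  have h : ∃ y, y ∈ Fge g n 2 ∧ Alive S (m ∘ₗ S.ρ y) := ⟨y, hy, ha⟩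
  have e1 : cval S u m = m (S.v h.choose) := by
    unfold cval
    rw [dif_pos h]
  obtain ⟨h1, h2⟩ := h.choose_spec
  set y0 := h.choose with hy0
  rw [e1]
  obtain ⟨ν, hν⟩ := hm.comp y0
  have h3 : (m ∘ₗ S.ρ y0) (S.v (y0⁻¹ * y)) = 0 := by
    refine kPair S hg hE hv (m ∘ₗ S.ρ y0) ν hν (y0⁻¹ * y)
      ((Fge g n 2).mul_mem ((Fge g n 2).inv_mem h1) hy) h2 ?_
    obtain ⟨t, ht, w, hw⟩ := ha
    refine ⟨t, ht, w, ?_⟩
    have e2 : ∀ z, (m ∘ₗ S.ρ y0) (S.ρ (y0⁻¹ * y) z) = m (S.ρ y z) := by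
      intro z
      show m (S.ρ y0 (S.ρ (y0⁻¹ * y) z)) = m (S.ρ y z)
      rw [← Module.End.mul_apply, ← map_mul, mul_inv_cancel_left]
    rw [e2, e2]
    exact hw
  have e3 : S.v y = S.v y0 + S.ρ y0 (S.v (y0⁻¹ * y)) := by
    rw [← S.coc, mul_inv_cancel_left]
  have h4 : m (S.ρ y0 (S.v (y0⁻¹ * y))) = 0 := h3
  rw [e3, map_add, h4, add_zero]

/-- The elements at which `v` is the coboundary of the values `cval`. -/
def Tg (S : KSys g n k V) (u : V) : Subgroup (F g n) where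
  carrier := {x | ∀ m, Egn S m → m (S.v x) = cval S u m - cval S u (m ∘ₗ S.ρ x)}
  one_mem' := by
    intro m _
    rw [S.v_one, map_zero, comp_one S m (map_one _), sub_self]
  mul_mem' := by
    intro x y hx hy m hm
    have h1 := hx m hm
    have h2 : m (S.ρ x (S.v y)) = cval S u (m ∘ₗ S.ρ x) - cval S u ((m ∘ₗ S.ρ x) ∘ₗ S.ρ y) :=
      hy (m ∘ₗ S.ρ x) (hm.comp x)
    rw [comp_comp] at h2
    rw [S.coc, map_add, h1, h2]
    ring
  inv_mem' := by
    intro x hx m hm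
    have h1 : m (S.ρ x⁻¹ (S.v x)) = cval S u (m ∘ₗ S.ρ x⁻¹) -
        cval S u ((m ∘ₗ S.ρ x⁻¹) ∘ₗ S.ρ x) := hx (m ∘ₗ S.ρ x⁻¹) (hm.comp _)
    rw [comp_comp, inv_mul_cancel, comp_one S m (map_one _)] at h1
    rw [S.v_inv, map_neg, h1]
    ring

theorem Tg_top [CharZero k] (S : KSys g n k V) (hg : 2 ≤ g) (hE : Bk g n 0 2 ≤ S.P)
    (hv : ∀ t ∈ Bk g n 0 2, S.v t = 0) (u : V) (hu : ∀ y ∈ Fge g n 2, S.v y = u - S.ρ y u) :
    Tg S u = ⊤ := by
  have hB : Flt g n 2 ≤ Tg S u := by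
    rw [Flt_eq]
    intro t ht m hm
    rw [hv t ht, map_zero]
    by_cases ha : Alive S m
    · have h1 : cval S u m = m (S.v 1) := cval_eq S hg hE hv u hm (Fge g n 2).one_mem (by
        rw [comp_one S m (map_one _)]
        exact ha)
      have ha' : Alive S (m ∘ₗ S.ρ t) := by
        obtain ⟨ν, hν⟩ := hm
        obtain ⟨s, hs, w, hw⟩ := ha
        have h0 : ν t ≠ 0 := by
          intro h0
          have h2 := hν t (hE ht) (S.ρ t⁻¹ (S.ρ s w))
          have h3 := hν t (hE ht) (S.ρ t⁻¹ w)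
          rw [S.ρ_mul_inv, h0, zero_mul] at h2 h3
          exact hw (by rw [h2, h3])
        refine ⟨s, hs, w, ?_⟩
        show m (S.ρ t (S.ρ s w)) ≠ m (S.ρ t w)
        rw [hν t (hE ht), hν t (hE ht)]
        intro h
        exact hw (mul_left_cancel₀ h0 h)
      have h2 : cval S u (m ∘ₗ S.ρ t) = (m ∘ₗ S.ρ t) (S.v 1) :=
        cval_eq S hg hE hv u (hm.comp t) (Fge g n 2).one_mem (by
          rw [comp_one S _ (map_one _)]
          exact ha')
      rw [h1, h2, S.v_one, map_zero, map_zero, sub_self]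
    · have e : m ∘ₗ S.ρ t = m := by
        apply LinearMap.ext
        intro w
        show m (S.ρ t w) = m w
        by_contra h
        exact ha ⟨t, ht, w, h⟩
      rw [e, sub_self]
  have hZ : Fge g n 2 ≤ Tg S u := by
    intro y hy m hm
    by_cases h : ∃ y', y' ∈ Fge g n 2 ∧ Alive S (m ∘ₗ S.ρ y')
    · obtain ⟨y', hy', ha⟩ := h
      have h1 : cval S u m = m (S.v y') := cval_eq S hg hE hv u hm hy' ha
      have h2 : cval S u (m ∘ₗ S.ρ y) = (m ∘ₗ S.ρ y) (S.v (y⁻¹ * y')) :=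
        cval_eq S hg hE hv u (hm.comp y) ((Fge g n 2).mul_mem ((Fge g n 2).inv_mem hy) hy') (by
          rw [comp_comp, mul_inv_cancel_left]
          exact ha)
      have e3 : S.v y' = S.v y + S.ρ y (S.v (y⁻¹ * y')) := by
        rw [← S.coc, mul_inv_cancel_left]
      have h3 : (m ∘ₗ S.ρ y) (S.v (y⁻¹ * y')) = m (S.ρ y (S.v (y⁻¹ * y'))) := rfl
      rw [h1, h2, h3, e3, map_add]
      ring
    · have h' : ¬ ∃ y', y' ∈ Fge g n 2 ∧ Alive S ((m ∘ₗ S.ρ y) ∘ₗ S.ρ y') := by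
        rintro ⟨y', hy', ha⟩
        rw [comp_comp] at ha
        exact h ⟨y * y', (Fge g n 2).mul_mem hy hy', ha⟩
      have h1 : cval S u m = m u := by
        unfold cval
        rw [dif_neg h]
      have h2 : cval S u (m ∘ₗ S.ρ y) = m (S.ρ y u) := by
        unfold cval
        rw [dif_neg h']
        rfl
      rw [h1, h2, hu y hy, map_sub]
  rw [eq_top_iff, ← Flt_sup_Fge 2]
  exact sup_le hB hZ

/-- If a block of two handles is in `P` then `v` vanishes on the kernel of `ρ`. -/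
theorem kMain [CharZero k] (S : KSys g n k V) (hg : 2 ≤ g) (hE : Bk g n 0 2 ≤ S.P)
    (x : F g n) (hx : S.ρ x = 1) : S.v x = 0 := by
  obtain ⟨u0, hu0⟩ := kG2 S hg hE
  have hE' : Bk g n 0 2 ≤ (S.addCob u0).P := hE
  have hv : ∀ t ∈ Bk g n 0 2, (S.addCob u0).v t = 0 := by
    intro t ht
    show S.v t + (S.ρ t u0 - u0) = 0
    rw [hu0 t ht]
    abel
  obtain ⟨u, hu⟩ := kGF (S.addCob u0) hg hE' hv
  have hT := Tg_top (S.addCob u0) hg hE' hv u hu
  have h0 : (S.addCob u0).v x = 0 := by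
    by_contra hne
    obtain ⟨l, ν, hl, hlz⟩ := st_Sep (S.addCob u0).ρ (S.addCob u0).P (S.addCob u0).fin
      (S.addCob u0).comm (S.addCob u0).roots _ hne
    have h1 : x ∈ Tg (S.addCob u0) u := by
      rw [hT]
      exact Subgroup.mem_top x
    have h2 := h1 l ⟨ν, hl⟩
    have h3 : l ∘ₗ (S.addCob u0).ρ x = l := comp_one (S.addCob u0) l hx
    rw [h3, sub_self] at h2
    exact hlz h2
  have h4 : S.v x + (S.ρ x u0 - u0) = 0 := h0
  rw [hx, Module.End.one_apply, sub_self, add_zero] at h4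
  exact h4

end Pool.Agent.PWB
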