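import Pool.Agent.PWM.StB

/-!
# Systems with a block in an abelian normal subgroup: definitions
-/

namespace Pool.Agent.PWB

open Pool.Agent.PW Pool.Agent.PWM

variable {g n : ℕ}

/-- Systems: `P` is a normal subgroup which acts by commuting operators. -/
structure KSys (g n : ℕ) (k : Type) [Field k] (V : Type) [AddCommGroup V] [Module k V] where
  ρ : F g n →* Module.End k V
  v : F g n → V
  P : Subgroup (F g n)
  coc : ∀ x y, v (x * y) = v x + ρ x (v y)
  fin : (Set.range ρ).Finite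
  roots : ∃ (N : ℕ) (ζ : k), 0 < N ∧ (∀ x, ρ x ^ N = 1) ∧ IsPrimitiveRoot ζ N
  nor : ∀ x ∈ P, ∀ w, w * x * w⁻¹ ∈ P
  comm : ∀ x ∈ P, ∀ y ∈ P, ρ x * ρ y = ρ y * ρ x
  kill : ∀ φ ∈ MCG g n, ∀ i : Fin g,
    FinOrd ρ v (φ (ga i)) ∧ FinOrd ρ v (φ (gb i)) ∧ FinOrd ρ v (φ (dl i))

variable {k : Type} [Field k] {V : Type} [AddCommGroup V] [Module k V]

namespace KSys

variable (S : KSys g n k V)

theorem v_one : S.v 1 = 0 := by
  have h := S.coc 1 1
  rw [mul_one, map_one, Module.End.one_apply] at h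
  exact left_eq_add.mp h

theorem v_inv (x : F g n) : S.v x⁻¹ = -S.ρ x⁻¹ (S.v x) := by
  have h := S.coc x⁻¹ x
  rw [inv_mul_cancel, S.v_one] at h
  exact eq_neg_of_add_eq_zero_left h.symm

theorem ρ_mul_inv (x : F g n) (u : V) : S.ρ x (S.ρ x⁻¹ u) = u := by
  rw [← Module.End.mul_apply, ← map_mul, mul_inv_cancel, map_one, Module.End.one_apply]

theorem ρ_inv_mul (x : F g n) (u : V) : S.ρ x⁻¹ (S.ρ x u) = u := by
  rw [← Module.End.mul_apply, ← map_mul, inv_mul_cancel, map_one, Module.End.one_apply]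

theorem ρ_v_inv (x : F g n) : S.ρ x (S.v x⁻¹) = -S.v x := by
  rw [S.v_inv, map_neg, S.ρ_mul_inv]

theorem ρ_inv_one {x : F g n} (hx : S.ρ x = 1) : S.ρ x⁻¹ = 1 := by
  have h3 : S.ρ x⁻¹ * S.ρ x = 1 := by rw [← map_mul, inv_mul_cancel, map_one]
  rwa [hx, mul_one] at h3

/-- The value at a conjugate of an element with value zero. -/
theorem v_conj {t : F g n} (ht : S.v t = 0) (y : F g n) :
    S.v (y * t * y⁻¹) = S.v y - S.ρ (y * t * y⁻¹) (S.v y) := by
  have e2 : S.ρ (y * t) (S.v y⁻¹) = -S.ρ (y * t * y⁻¹) (S.v y) := by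
    have e3 : y * t = (y * t * y⁻¹) * y := by group
    rw [e3, map_mul _ (y * t * y⁻¹) y, Module.End.mul_apply, S.ρ_v_inv, map_neg]
    congr 3
    group
  rw [S.coc, S.coc, ht, map_zero, add_zero, e2]
  abel

/-- The system moved by a mapping class. -/
def comp {φ : MulAut (F g n)} (hφ : φ ∈ MCG g n) : KSys g n k V where
  ρ := S.ρ.comp φ.toMonoidHom
  v := fun x => S.v (φ x)
  P := S.P.comap φ.toMonoidHom
  coc := by
    intro x y
    show S.v (φ (x * y)) = S.v (φ x) + S.ρ (φ x) (S.v (φ y))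
    rw [map_mul, S.coc]
  fin := S.fin.subset (by
    rintro _ ⟨x, rfl⟩
    exact ⟨φ x, rfl⟩)
  roots := by
    obtain ⟨N, ζ, hN, h1, h2⟩ := S.roots
    exact ⟨N, ζ, hN, fun x => h1 (φ x), h2⟩
  nor := by
    intro x hx w
    show φ (w * x * w⁻¹) ∈ S.P
    rw [map_mul, map_mul, map_inv]
    exact S.nor _ hx _
  comm := fun x hx y hy => S.comm _ hx _ hy
  kill := by
    intro ψ hψ i
    have h := S.kill (φ * ψ) ((MCG g n).mul_mem hφ hψ) i
    exact ⟨h.1.map_of (φ := φ.toMonoidHom) (fun _ => rfl) (fun _ => rfl) rfl,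
      h.2.1.map_of (φ := φ.toMonoidHom) (fun _ => rfl) (fun _ => rfl) rfl,
      h.2.2.map_of (φ := φ.toMonoidHom) (fun _ => rfl) (fun _ => rfl) rfl⟩

/-- Adding a coboundary. -/
def addCob (w : V) : KSys g n k V where
  ρ := S.ρ
  v := fun x => S.v x + (S.ρ x w - w)
  P := S.P
  coc := by
    intro x y
    show S.v (x * y) + (S.ρ (x * y) w - w) =
      S.v x + (S.ρ x w - w) + S.ρ x (S.v y + (S.ρ y w - w))
    rw [S.coc, map_mul, Module.End.mul_apply, map_add, map_sub]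
    abel
  fin := S.fin
  roots := S.roots
  nor := S.nor
  comm := S.comm
  kill := fun ψ hψ i => ⟨finOrd_addCob w (S.kill ψ hψ i).1, finOrd_addCob w (S.kill ψ hψ i).2.1,
    finOrd_addCob w (S.kill ψ hψ i).2.2⟩

/-- The elements with trivial affine map. -/
def K : Subgroup (F g n) where
  carrier := {x | S.ρ x = 1 ∧ S.v x = 0}
  one_mem' := ⟨map_one _, S.v_one⟩
  mul_mem' := by
    rintro x y ⟨h1, h2⟩ ⟨h3, h4⟩
    refine ⟨by rw [map_mul, h1, h3, one_mul], ?_⟩
    rw [S.coc, h2, h4, map_zero, add_zero]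
  inv_mem' := by
    rintro x ⟨h1, h2⟩
    exact ⟨S.ρ_inv_one h1, by rw [S.v_inv, h2, map_zero, neg_zero]⟩

theorem K_normal : S.K.Normal := by
  refine ⟨fun x hx w => ?_⟩
  obtain ⟨h1, h2⟩ := hx
  refine ⟨?_, ?_⟩
  · rw [map_mul, map_mul, h1, mul_one, ← map_mul, mul_inv_cancel, map_one]
  · rw [S.coc, S.coc, h2, map_zero, add_zero, map_mul, h1, mul_one, S.ρ_v_inv, add_neg_cancel]

theorem v_pow {x : F g n} (hx : S.ρ x = 1) (m : ℕ) : S.v (x ^ m) = (m : k) • S.v x := by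
  induction m with
  | zero => rw [pow_zero, S.v_one, Nat.cast_zero, zero_smul]
  | succ m ih =>
    rw [pow_succ, S.coc, ih, map_pow, hx, one_pow, Module.End.one_apply, Nat.cast_succ, add_smul,
      one_smul]

/-- A block in `P` acts by commuting operators. -/
theorem ρ_DB (hE : Bk g n 0 2 ≤ S.P) : ∀ d ∈ DB g n 0 2, S.ρ d = 1 := by
  intro d hd
  have h1 : DB g n 0 2 ≤ S.ρ.toHomUnits.ker := by
    rw [Subgroup.commutator_le]
    intro a ha b hb
    rw [MonoidHom.mem_ker, commutatorElement_def]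
    apply Units.ext
    show S.ρ (a * b * a⁻¹ * b⁻¹) = 1
    have e : a * b * a⁻¹ * b⁻¹ = (a * b) * (b * a)⁻¹ := by group
    have h2 : S.ρ (a * b) = S.ρ (b * a) := by
      rw [map_mul, map_mul]
      exact S.comm a (hE ha) b (hE hb)
    rw [e, map_mul, h2, ← map_mul, mul_inv_cancel, map_one]
  have h3 := h1 hd
  rw [MonoidHom.mem_ker] at h3
  exact congrArg Units.val h3

end KSys

end Pool.Agent.PWB
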