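import Pool.Agent.PWB.KSt

/-!
# Killing handles: an abelian chief factor costs one handle
-/

namespace Pool.Agent.PWB

open Pool.Agent.PW Pool.Agent.PWM

/-- Iteration of `St_KPair`. -/
private theorem KChief_iter (hp : St_KPair) {Q : Type} [Group Q] [Finite Q] {g n h : ℕ}
    (hg : h + 1 ≤ g) (ρ : F g n →* Q) (N : Subgroup Q) (hρ : Function.Surjective ρ)
    (hN : N.Normal) (hc : ∀ x ∈ N, ∀ y ∈ N, x * y = y * x)
    (hmin : ∀ L : Subgroup Q, L.Normal → L ≤ N → L = ⊥ ∨ L = N) (hI : Inv (h + 1) N ρ)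
    (t : ℕ) (ht : t ≤ h) : ∃ φ ∈ MCG g n, Inv (h + 1) N (ρ.comp (MulEquiv.toMonoidHom φ)) ∧
      ∀ l : Fin g, (l : ℕ) < t → ρ (φ (ga l)) = 1 ∧ ρ (φ (gb l)) = 1 := by
  induction t with
  | zero =>
    exact ⟨1, (MCG g n).one_mem, hI, fun l hl => absurd hl (Nat.not_lt_zero _)⟩
  | succ t ih =>
    obtain ⟨φ, hφ, h1, h2⟩ := ih (by omega)
    have hit : t < g := by omega
    have hhg : h < g := by omega
    obtain ⟨ψ, hψ, a1, a2, a3, a4, a5⟩ := hp (ρ.comp (MulEquiv.toMonoidHom φ)) N hN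
      (hρ.comp φ.surjective) hc hmin h1 ⟨t, hit⟩ ⟨h, hhg⟩ (by show t < h; omega)
      (by show h < h + 1; omega)
    refine ⟨φ * ψ, (MCG g n).mul_mem hφ hψ, ?_, ?_⟩
    · intro l hl
      by_cases e1 : l = ⟨t, hit⟩
      · rw [e1]
        constructor
        · show ρ (φ (ψ (ga ⟨t, hit⟩))) ∈ N
          have : ρ (φ (ψ (ga ⟨t, hit⟩))) = 1 := a1
          rw [this]
          exact N.one_mem
        · show ρ (φ (ψ (gb ⟨t, hit⟩))) ∈ N
          have : ρ (φ (ψ (gb ⟨t, hit⟩))) = 1 := a2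
          rw [this]
          exact N.one_mem
      · by_cases e2 : l = ⟨h, hhg⟩
        · rw [e2]
          exact ⟨a3, a4⟩
        · obtain ⟨b1, b2⟩ := a5 l e1 e2 hl
          obtain ⟨c1, c2⟩ := h1 l hl
          constructor
          · show ρ (φ (ψ (ga l))) ∈ N
            have : ρ (φ (ψ (ga l))) = ρ (φ (ga l)) := b1
            rw [this]
            exact c1
          · show ρ (φ (ψ (gb l))) ∈ N
            have : ρ (φ (ψ (gb l))) = ρ (φ (gb l)) := b2
            rw [this]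
            exact c2
    · intro l hl
      by_cases e1 : l = ⟨t, hit⟩
      · rw [e1]
        exact ⟨a1, a2⟩
      · have hlt : (l : ℕ) < t := by
          have : (l : ℕ) ≠ t := fun h => e1 (Fin.ext h)
          omega
        have e2 : l ≠ ⟨h, hhg⟩ := by
          intro h3
          have : (l : ℕ) = h := congrArg Fin.val h3
          omega
        obtain ⟨b1, b2⟩ := a5 l e1 e2 (by omega)
        obtain ⟨c1, c2⟩ := h2 l hlt
        exact ⟨Eq.trans b1 c1, Eq.trans b2 c2⟩

theorem st_KChief (hp : St_KPair) : St_KChief := by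
  intro Q _ _ g n h hg ρ N M hρ hN hM hMN hab hmin hI
  have hsurj : Function.Surjective (QuotientGroup.mk' M) := QuotientGroup.mk'_surjective M
  have hN' : (N.map (QuotientGroup.mk' M)).Normal := Subgroup.Normal.map hN _ hsurj
  have hcomap : (N.map (QuotientGroup.mk' M)).comap (QuotientGroup.mk' M) = N := by
    rw [Subgroup.comap_map_eq, QuotientGroup.ker_mk']
    exact sup_eq_left.2 hMN
  have hc : ∀ x ∈ N.map (QuotientGroup.mk' M), ∀ y ∈ N.map (QuotientGroup.mk' M),
      x * y = y * x := by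
    rintro _ ⟨x, hx, rfl⟩ _ ⟨y, hy, rfl⟩
    have h1 := hab x hx y hy
    have h2 : QuotientGroup.mk' M (x * y * x⁻¹ * y⁻¹) = 1 :=
      (QuotientGroup.eq_one_iff _).2 h1
    rw [map_mul, map_mul, map_mul, map_inv, map_inv] at h2
    rw [mul_inv_eq_one] at h2
    exact mul_inv_eq_iff_eq_mul.1 h2
  have hmin' : ∀ L : Subgroup (Q ⧸ M), L.Normal → L ≤ N.map (QuotientGroup.mk' M) →
      L = ⊥ ∨ L = N.map (QuotientGroup.mk' M) := by
    intro L hL hLN
    have hL2 : (L.comap (QuotientGroup.mk' M)).Normal := Subgroup.Normal.comap hL _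
    have hML : M ≤ L.comap (QuotientGroup.mk' M) := by
      intro x hx
      rw [Subgroup.mem_comap]
      have : QuotientGroup.mk' M x = 1 := (QuotientGroup.eq_one_iff _).2 hx
      rw [this]
      exact L.one_mem
    have hLN2 : L.comap (QuotientGroup.mk' M) ≤ N := by
      rw [← hcomap]
      exact Subgroup.comap_mono hLN
    have hmc : (L.comap (QuotientGroup.mk' M)).map (QuotientGroup.mk' M) = L :=
      Subgroup.map_comap_eq_self_of_surjective hsurj L
    rcases hmin _ hL2 hML hLN2 with h1 | h1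
    · left
      rw [← hmc, h1, Subgroup.map_eq_bot_iff, QuotientGroup.ker_mk']
    · right
      rw [← hmc, h1]
  have hI' : Inv (h + 1) (N.map (QuotientGroup.mk' M)) ((QuotientGroup.mk' M).comp ρ) := by
    intro l hl
    exact ⟨Subgroup.mem_map_of_mem _ (hI l hl).1, Subgroup.mem_map_of_mem _ (hI l hl).2⟩
  obtain ⟨φ, hφ, _, h2⟩ := KChief_iter hp hg ((QuotientGroup.mk' M).comp ρ)
    (N.map (QuotientGroup.mk' M)) (hsurj.comp hρ) hN' hc hmin' hI' h le_rfl
  refine ⟨φ, hφ, ?_⟩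
  intro l hl
  obtain ⟨b1, b2⟩ := h2 l hl
  exact ⟨(QuotientGroup.eq_one_iff _).1 b1, (QuotientGroup.eq_one_iff _).1 b2⟩

end Pool.Agent.PWB
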