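import Pool.Agent.PWB.KSt

/-!
# KChr: a cyclic quotient is given by a character
-/

namespace Pool.Agent.PWB

open Pool.Agent.PW Pool.Agent.PWM

theorem st_KChr : St_KChr := by
  intro Q _ N M hMN hconj ⟨c, hcN, hc⟩
  let S : AddSubgroup ℤ :=
    { carrier := {k : ℤ | c ^ k ∈ M}
      zero_mem' := by
        change c ^ (0 : ℤ) ∈ M
        rw [zpow_zero]
        exact M.one_mem
      add_mem' := by
        intro a b ha hb
        change c ^ (a + b) ∈ M
        rw [zpow_add]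
        exact M.mul_mem ha hb
      neg_mem' := by
        intro a ha
        change c ^ (-a) ∈ M
        rw [zpow_neg]
        exact M.inv_mem ha }
  have hS : ∀ k : ℤ, k ∈ S ↔ c ^ k ∈ M := fun k => Iff.rfl
  obtain ⟨a, ha⟩ := Int.subgroup_cyclic S
  have hd : ∀ k : ℤ, ((k : ZMod a.natAbs) = 0 ↔ c ^ k ∈ M) := by
    intro k
    rw [← hS, ha, AddSubgroup.mem_closure_singleton, CharP.intCast_eq_zero_iff (ZMod a.natAbs) a.natAbs,
      Int.natAbs_dvd]
    constructor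
    · rintro ⟨n, hn⟩
      exact ⟨n, by rw [hn, smul_eq_mul, mul_comm]⟩
    · rintro ⟨n, hn⟩
      exact ⟨n, by rw [← hn, smul_eq_mul, mul_comm]⟩
  have huniq : ∀ (x : Q) (k l : ℤ), (c ^ k)⁻¹ * x ∈ M → (c ^ l)⁻¹ * x ∈ M →
      (k : ZMod a.natAbs) = l := by
    intro x k l hk hl
    have h1 := M.mul_mem hl (M.inv_mem hk)
    have h2 : (c ^ l)⁻¹ * x * ((c ^ k)⁻¹ * x)⁻¹ = c ^ (k - l) := by
      have h3 : (c ^ l)⁻¹ * x * ((c ^ k)⁻¹ * x)⁻¹ = c ^ (-l) * c ^ k := by group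
      rw [h3, ← zpow_add, sub_eq_neg_add]
    rw [h2, ← hd] at h1
    rw [Int.cast_sub, sub_eq_zero] at h1
    exact h1
  classical
  let X : Q → ZMod a.natAbs := fun x => if h : x ∈ N then ((Classical.choose (hc x h) : ℤ) : ZMod _)
    else 0
  have hX : ∀ (x : Q) (k : ℤ), x ∈ N → (c ^ k)⁻¹ * x ∈ M → X x = k := by
    intro x k hx hk
    have h1 : X x = ((Classical.choose (hc x hx) : ℤ) : ZMod _) := dif_pos hx
    rw [h1]
    exact huniq x _ _ (Classical.choose_spec (hc x hx)) hk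
  refine ⟨a.natAbs, X, ⟨fun x hx y hy => ?_, fun x hx => ?_⟩⟩
  · obtain ⟨k, hk⟩ := hc x hx
    obtain ⟨l, hl⟩ := hc y hy
    rw [hX x k hx hk, hX y l hy hl, hX (x * y) (k + l) (N.mul_mem hx hy) ?_, Int.cast_add]
    have h1 := hconj (c ^ l)⁻¹ (N.inv_mem (N.zpow_mem hcN l)) _ hk
    have h2 := M.mul_mem h1 hl
    have h3 : (c ^ l)⁻¹ * ((c ^ k)⁻¹ * x) * (c ^ l)⁻¹⁻¹ * ((c ^ l)⁻¹ * y) =
        (c ^ (k + l))⁻¹ * (x * y) := by
      rw [zpow_add]
      group
    rw [h3] at h2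
    exact h2
  · obtain ⟨k, hk⟩ := hc x hx
    rw [hX x k hx hk, hd]
    constructor
    · intro h1
      have h2 := M.mul_mem h1 hk
      rw [mul_inv_cancel_left] at h2
      exact h2
    · intro h1
      have h2 := M.mul_mem h1 (M.inv_mem hk)
      rw [mul_inv_rev, inv_inv, mul_inv_cancel_left] at h2
      exact h2

end Pool.Agent.PWB
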