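import Pool.Agent.PWB.KSt
import Pool.Agent.PWM.Cla

/-!
# Conjugation of one handle, all the others fixed
-/

namespace Pool.Agent.PWB

open Pool.Agent.PW Pool.Agent.PWM

section

variable {Q : Type} [Group Q] {g n : ℕ}

/-- `ρ'` agrees with `ρ` outside of the handle `i`, and maps this handle to `N`. -/
private def KGd (N : Subgroup Q) (i : Fin g) (ρ ρ' : F g n →* Q) : Prop :=
  (∀ l : Fin g, l ≠ i → ρ' (ga l) = ρ (ga l) ∧ ρ' (gb l) = ρ (gb l)) ∧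
  (∀ l : Fin n, ρ' (gc l) = ρ (gc l)) ∧ ρ' (ga i) ∈ N ∧ ρ' (gb i) ∈ N

/-- `φ` conjugates the handle `i` by `q`. -/
private def KCj (i : Fin g) (ρ' : F g n →* Q) (φ : MulAut (F g n)) (q : Q) : Prop :=
  (∀ l : Fin g, l ≠ i → ρ' (φ (ga l)) = ρ' (ga l) ∧ ρ' (φ (gb l)) = ρ' (gb l)) ∧
  (∀ l : Fin n, ρ' (φ (gc l)) = ρ' (gc l)) ∧
  ρ' (φ (ga i)) = q * ρ' (ga i) * q⁻¹ ∧ ρ' (φ (gb i)) = q * ρ' (gb i) * q⁻¹

private def KE (N : Subgroup Q) (i : Fin g) (ρ : F g n →* Q) (q : Q) : Prop :=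
  ∀ ρ' : F g n →* Q, KGd N i ρ ρ' → ∃ φ ∈ MCG g n, KCj i ρ' φ q

private theorem ke_mul {N : Subgroup Q} (hN : N.Normal) {i : Fin g} {ρ : F g n →* Q} {q r : Q}
    (hq : KE N i ρ q) (hr : KE N i ρ r) : KE N i ρ (q * r) := by
  intro ρ' hρ'
  obtain ⟨φ, hφ, h1, h2, h3, h4⟩ := hr ρ' hρ'
  obtain ⟨g1, g2, g3, g4⟩ := hρ'
  have hg : KGd N i ρ (ρ'.comp (MulEquiv.toMonoidHom φ)) := by
    refine ⟨fun l hl => ⟨?_, ?_⟩, fun l => ?_, ?_, ?_⟩
    · exact (h1 l hl).1.trans (g1 l hl).1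
    · exact (h1 l hl).2.trans (g1 l hl).2
    · exact (h2 l).trans (g2 l)
    · show ρ' (φ (ga i)) ∈ N
      rw [h3]
      exact hN.conj_mem _ g3 r
    · show ρ' (φ (gb i)) ∈ N
      rw [h4]
      exact hN.conj_mem _ g4 r
  obtain ⟨ψ, hψ, k1, k2, k3, k4⟩ := hq _ hg
  refine ⟨φ * ψ, (MCG g n).mul_mem hφ hψ, fun l hl => ⟨?_, ?_⟩, fun l => ?_, ?_, ?_⟩
  · exact (k1 l hl).1.trans (h1 l hl).1
  · exact (k1 l hl).2.trans (h1 l hl).2
  · exact (k2 l).trans (h2 l)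
  · have e : ρ' ((φ * ψ) (ga i)) = q * ρ' (φ (ga i)) * q⁻¹ := k3
    rw [e, h3]
    group
  · have e : ρ' ((φ * ψ) (gb i)) = q * ρ' (φ (gb i)) * q⁻¹ := k4
    rw [e, h4]
    group

private theorem ke_N {N : Subgroup Q} (hc : ∀ x ∈ N, ∀ y ∈ N, x * y = y * x) {i : Fin g}
    {ρ : F g n →* Q} {q : Q} (hq : q ∈ N) : KE N i ρ q := by
  rintro ρ' ⟨-, -, g3, g4⟩
  refine ⟨1, (MCG g n).one_mem, fun l _ => ⟨rfl, rfl⟩, fun l => rfl, ?_, ?_⟩
  · rw [hc q hq _ g3]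
    show ρ' (ga i) = _
    group
  · rw [hc q hq _ g4]
    show ρ' (gb i) = _
    group

/-- The subgroup. -/
private def KEs [Finite Q] (N : Subgroup Q) (hN : N.Normal)
    (hc : ∀ x ∈ N, ∀ y ∈ N, x * y = y * x) (i : Fin g) (ρ : F g n →* Q) : Subgroup Q where
  carrier := {q | KE N i ρ q}
  mul_mem' := fun h1 h2 => ke_mul hN h1 h2
  one_mem' := ke_N hc N.one_mem
  inv_mem' := by
    intro q hq
    have h1 : ∀ m : ℕ, KE N i ρ (q ^ m) := by
      intro m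
      induction m with
      | zero =>
        rw [pow_zero]
        exact ke_N hc N.one_mem
      | succ m ih =>
        rw [pow_succ]
        exact ke_mul hN ih hq
    have h2 : q⁻¹ = q ^ (orderOf q - 1) := by
      symm
      apply eq_inv_of_mul_eq_one_left
      rw [← pow_succ, Nat.sub_add_cancel (orderOf_pos q), pow_orderOf_eq_one]
    show KE N i ρ q⁻¹
    rw [h2]
    exact h1 _

private theorem kgd_dl {N : Subgroup Q} (hc : ∀ x ∈ N, ∀ y ∈ N, x * y = y * x) {i : Fin g}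
    {ρ ρ' : F g n →* Q} (h : KGd N i ρ ρ') : ρ' (dl i) = 1 := by
  rw [dl, map_cm]
  unfold cm
  rw [hc _ h.2.2.1 _ h.2.2.2]
  group

private theorem kgd_mid {N : Subgroup Q} {i : Fin g} {ρ ρ' : F g n →* Q} (h : KGd N i ρ ρ')
    (s m : ℕ) (hs : (i : ℕ) < s) : ρ' (seg g n s m) = ρ (seg g n s m) := by
  apply seg_congr
  intro l h1 _
  apply h.1
  rintro rfl
  omega

private theorem kgd_tw {N : Subgroup Q} {i j : Fin g} (hij : (i : ℕ) < j) {ρ ρ' : F g n →* Q}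
    (h : KGd N i ρ ρ') : ρ' (sw i j) = ρ (sw i j) ∧ ρ' (tw i j) = ρ (tw i j) := by
  have h1 : ρ' (mid g n i j) = ρ (mid g n i j) := kgd_mid h _ _ (Nat.lt_succ_self _)
  have h2 := h.1 j (far_ne hij)
  constructor
  · simp only [sw, map_mul, map_inv, h1, h2.1]
  · simp only [tw, map_mul, map_inv, h1, h2.2]

private theorem kgd_sc {N : Subgroup Q} {i : Fin g} (j : Fin n) {ρ ρ' : F g n →* Q}
    (h : KGd N i ρ ρ') : ρ' (sc i j) = ρ (sc i j) := by
  have h1 : ρ' (midc g n i j) = ρ (midc g n i j) := by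
    rw [midc, map_mul, map_mul, kgd_mid h _ _ (Nat.lt_succ_self _)]
    congr 1
    apply cseg_congr
    intro l _ _
    exact h.2.1 l
  simp only [sc, map_mul, map_inv, h1, h.2.1 j]

/-- The push changes nothing outside of the handle `i` for a homomorphism which kills `dl i`. -/
private theorem k_pb (σ : F g n →* Q) {i j : Fin g} (h : (i : ℕ) < j) (hd : σ (dl i) = 1) :
    (∀ l : Fin g, l ≠ i → σ (Pb i j h (ga l)) = σ (ga l) ∧ σ (Pb i j h (gb l)) = σ (gb l)) ∧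
    ∀ l : Fin n, σ (Pb i j h (gc l)) = σ (gc l) := by
  have hx : σ (px i j) = 1 := by
    rw [px, map_mul, map_mul, hd, map_inv, mul_one, inv_mul_cancel]
  have hy : σ (py i j) = 1 := by
    rw [py, map_mul, map_mul, hx, map_inv, mul_one, mul_inv_cancel]
  refine ⟨fun l hl => ?_, fun l => by rw [Pb_c]⟩
  by_cases hlj : l = j
  · subst hlj
    rw [Pb_aj, Pb_bj]
    simp only [map_mul, map_inv, hx, hy, inv_one, one_mul, mul_one, and_self]
  · rw [Pb_a' h hl hlj, Pb_b' h hl hlj]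
    exact ⟨rfl, rfl⟩

private theorem ke_tw {N : Subgroup Q} (hc : ∀ x ∈ N, ∀ y ∈ N, x * y = y * x) {i j : Fin g}
    (hij : (i : ℕ) < j) (ρ : F g n →* Q) : KE N i ρ (ρ (tw i j)) := by
  intro ρ' hρ'
  have hk := k_pb ρ' hij (kgd_dl hc hρ')
  refine ⟨Pb i j hij, Pb_mem hij, hk.1, hk.2, ?_, ?_⟩
  · rw [Pb_ai, map_mul, map_mul, map_inv, (kgd_tw hij hρ').2]
  · rw [Pb_bi, map_mul, map_mul, map_inv, (kgd_tw hij hρ').2]

private theorem ke_sw {N : Subgroup Q} (hc : ∀ x ∈ N, ∀ y ∈ N, x * y = y * x) {i j : Fin g}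
    (hij : (i : ℕ) < j) (ρ : F g n →* Q) : KE N i ρ (ρ (sw i j))⁻¹ := by
  intro ρ' hρ'
  have hne : i ≠ j := (far_ne hij).symm
  have hk := k_pb (ρ'.comp (MulEquiv.toMonoidHom (rr j))) hij (by
    show ρ' (rr j (dl i)) = 1
    rw [rr_dl]
    exact kgd_dl hc hρ')
  obtain ⟨k1, k2⟩ := hk
  have k1' : ∀ l : Fin g, l ≠ i → ρ' (rr j (Pb i j hij (ga l))) = ρ' (rr j (ga l)) ∧
      ρ' (rr j (Pb i j hij (gb l))) = ρ' (rr j (gb l)) := k1
  have k2' : ∀ l : Fin n, ρ' (rr j (Pb i j hij (gc l))) = ρ' (rr j (gc l)) := k2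
  refine ⟨rr j * Pb i j hij * (rr j)⁻¹, (MCG g n).mul_mem ((MCG g n).mul_mem (rr_mem j)
    (Pb_mem hij)) ((MCG g n).inv_mem (rr_mem j)), fun l hl => ?_, fun l => ?_, ?_, ?_⟩
  · simp only [MulAut.mul_apply]
    by_cases hlj : l = j
    · subst hlj
      constructor
      · rw [rri_a, map_inv, map_inv, map_inv, (k1' l hl).2, rr_b, map_inv, inv_inv]
      · rw [rri_b]
        simp only [map_mul, map_inv, (k1' l hl).1, (k1' l hl).2]
        rw [rr_a, rr_b]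
        simp only [map_mul, map_inv]
        group
    · rw [rri_a' hlj, rri_b' hlj, (k1' l hl).1, (k1' l hl).2, rr_a' hlj, rr_b' hlj]
      exact ⟨rfl, rfl⟩
  · simp only [MulAut.mul_apply]
    rw [rri_c, k2' l, rr_c]
  · simp only [MulAut.mul_apply]
    rw [rri_a' hne, Pb_ai]
    simp only [map_mul, map_inv]
    rw [rr_tw, rr_a' hne, map_inv, (kgd_tw hij hρ').1]
  · simp only [MulAut.mul_apply]
    rw [rri_b' hne, Pb_bi]
    simp only [map_mul, map_inv]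
    rw [rr_tw, rr_b' hne, map_inv, (kgd_tw hij hρ').1]

private theorem ke_sc {N : Subgroup Q} (hc : ∀ x ∈ N, ∀ y ∈ N, x * y = y * x) {i : Fin g}
    (j : Fin n) (ρ : F g n →* Q) : KE N i ρ (ρ (sc i j)) := by
  intro ρ' hρ'
  have hd := kgd_dl hc hρ'
  have hx : ρ' (cx i j) = 1 := by
    rw [cx, map_mul, map_mul, hd, map_inv, mul_one, inv_mul_cancel]
  refine ⟨Pc i j, Pc_mem i j, fun l hl => ?_, fun l => ?_, ?_, ?_⟩
  · rw [Pc_a' i j hl, Pc_b' i j hl]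
    exact ⟨rfl, rfl⟩
  · by_cases hl : l = j
    · subst hl
      rw [Pc_cj, map_mul, map_mul, map_inv, hx, one_mul, inv_one, mul_one]
    · rw [Pc_c' i j hl]
  · rw [Pc_ai]
    simp only [map_mul, map_inv, hd, one_mul, kgd_sc j hρ']
  · rw [Pc_bi]
    simp only [map_mul, map_inv, hd, one_mul, kgd_sc j hρ']

end

theorem st_KConj : St_KConj := by
  intro Q _ _ g n h ρ N hN hs hc hI i hi q
  have key : (KEs N hN hc i ρ).comap ρ = ⊤ := by
    have hm := gen_moved' (E := (KEs N hN hc i ρ).comap ρ) (z := i) (by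
      intro j hj
      constructor
      · have h1 : (ρ (sw i j))⁻¹ ∈ KEs N hN hc i ρ := ke_sw hc hj ρ
        have h2 := (KEs N hN hc i ρ).inv_mem h1
        rw [inv_inv] at h2
        exact h2
      · exact ke_tw hc hj ρ) (fun j => ke_sc hc j ρ)
    have hNl : ∀ l : Fin g, (l : ℕ) ≤ i → ρ (ga l) ∈ KEs N hN hc i ρ ∧
        ρ (gb l) ∈ KEs N hN hc i ρ := by
      intro l hl
      have h1 := hI l (by omega)
      exact ⟨ke_N hc h1.1, ke_N hc h1.2⟩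
    apply eq_top_of_gens
    · intro l
      rcases Nat.lt_or_ge (i : ℕ) l with h1 | h1
      · exact (hm.1 l h1).1
      · exact (hNl l h1).1
    · intro l
      rcases Nat.lt_or_ge (i : ℕ) l with h1 | h1
      · exact (hm.1 l h1).2
      · exact (hNl l h1).2
    · exact hm.2
  obtain ⟨x, rfl⟩ := hs q
  have hx : x ∈ (KEs N hN hc i ρ).comap ρ := by
    rw [key]
    exact Subgroup.mem_top x
  have hx' : KE N i ρ (ρ x) := hx
  obtain ⟨φ, hφ, h1, -, h3, h4⟩ := hx' ρ ⟨fun l _ => ⟨rfl, rfl⟩, fun l => rfl, (hI i hi).1,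
    (hI i hi).2⟩
  exact ⟨φ, hφ, h3, h4, h1⟩

end Pool.Agent.PWB
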