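import Pool.Agent.PWB.KSt

/-!
# Killing handles, module KCyc: a cyclic quotient costs one handle
-/

namespace Pool.Agent.PWB

open Pool.Agent.PW Pool.Agent.PWM

/-- Clear all the pairs but the last one. -/
private theorem KCyc_all (he : St_KEuc) {g m h : ℕ} (v : Fin g → ZMod m × ZMod m) (j : Fin g)
    (hj : (j : ℕ) < h) (t : ℕ) (ht : t ≤ j) :
    ∃ v', Relation.ReflTransGen (Op h) v v' ∧ ∀ l : Fin g, (l : ℕ) < t → v' l = 0 := by
  induction t with
  | zero => exact ⟨v, Relation.ReflTransGen.refl, fun l hl => absurd hl (Nat.not_lt_zero _)⟩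
  | succ t ih =>
    obtain ⟨v1, a1, a2⟩ := ih (by omega)
    obtain ⟨v2, b1, b2, b3⟩ := he (h := h) v1 ⟨t, by omega⟩ j (by simp only; omega) hj
    refine ⟨v2, a1.trans b1, fun l hl => ?_⟩
    by_cases hlt : (l : ℕ) = t
    · have : l = ⟨t, by omega⟩ := Fin.ext hlt
      rw [this]
      exact b2
    · rw [b3 l (fun h => hlt (by rw [h])) (fun h => by rw [h] at hl; omega)]
      exact a2 l (by omega)

theorem st_KCyc (he : St_KEuc) : St_KCyc := by
  intro Q _ H M m X hX g n h hhg ρ hI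
  obtain ⟨v', h1, h2⟩ := KCyc_all he (h := h + 1) (vals X ρ) ⟨h, hhg⟩ (Nat.lt_succ_self h) h le_rfl
  obtain ⟨φ, hφ, h3, h4⟩ := real_ops hX hI h1
  refine ⟨φ, hφ, fun i hi => ?_⟩
  have h5 := h3 i (by omega)
  have h6 := h2 i hi
  rw [← h4] at h6
  exact ⟨(hX.ker _ h5.1).mp (congrArg Prod.fst h6), (hX.ker _ h5.2).mp (congrArg Prod.snd h6)⟩

end Pool.Agent.PWB
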