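import Pool.Agent.PWB.KSt

/-!
# Euclid's algorithm on two pairs (`St_KEuc`)
-/

set_option autoImplicit false

namespace Pool.Agent.PWB

open Pool.Agent.PW Pool.Agent.PWM

/-- One pair: every pair can be moved to a pair with first entry zero. -/
private theorem KEuc_one {F : ℤ → ℤ → Prop} (h1 : ∀ a b k, F a (b + k * a) → F a b)
    (h2 : ∀ a b k, F (a + k * b) b → F a b) (h : ∀ e, F 0 e) :
    ∀ (n : ℕ) (a b : ℤ), a.natAbs ≤ n → F a b := by
  intro n
  induction n using Nat.strong_induction_on with
  | _ n ih =>
    intro a b hn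
    by_cases ha : a = 0
    · rw [ha]
      exact h b
    · have hr : b + -(b / a) * a = b % a := by
        have := Int.mul_ediv_add_emod b a
        linarith
      apply h1 a b (-(b / a))
      rw [hr]
      by_cases hb : b % a = 0
      · rw [hb]
        apply h1 a 0 1
        apply h2 _ _ (-1)
        have e1 : a + -1 * (0 + 1 * a) = 0 := by ring
        rw [e1]
        exact h _
      · have hb0 : 0 < b % a := lt_of_le_of_ne (Int.emod_nonneg b ha) (Ne.symm hb)
        have hb1 : b % a < |a| := Int.emod_lt_abs b ha
        have hs : a + -(a / (b % a)) * (b % a) = a % (b % a) := by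
          have := Int.mul_ediv_add_emod a (b % a)
          linarith
        apply h2 _ _ (-(a / (b % a)))
        rw [hs]
        have hc0 : 0 ≤ a % (b % a) := Int.emod_nonneg _ hb
        have hc1 : a % (b % a) < b % a := Int.emod_lt_of_pos _ hb0
        have hlt : (a % (b % a)).natAbs < n := by
          have e1 : |a| = (a.natAbs : ℤ) := (Int.natCast_natAbs a).symm
          omega
        exact ih _ hlt _ _ le_rfl

private theorem KEuc_sw {F : ℤ → ℤ → Prop} (h1 : ∀ a b k, F a (b + k * a) → F a b)
    (h2 : ∀ a b k, F (a + k * b) b → F a b) (e : ℤ) (h : F e 0) : F 0 e := by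
  apply h2 0 e 1
  apply h1 _ _ (-1)
  have e1 : e + -1 * (0 + 1 * e) = 0 := by ring
  have e2 : (0 : ℤ) + 1 * e = e := by ring
  rw [e1, e2]
  exact h

private theorem KEuc_sw' {F : ℤ → ℤ → Prop} (h1 : ∀ a b k, F a (b + k * a) → F a b)
    (h2 : ∀ a b k, F (a + k * b) b → F a b) (e : ℤ) (h : F 0 e) : F e 0 := by
  apply h1 e 0 1
  apply h2 _ _ (-1)
  have e1 : e + -1 * (0 + 1 * e) = 0 := by ring
  have e2 : (0 : ℤ) + 1 * e = e := by ring
  rw [e1, e2]
  exact h

/-- Two pairs. -/
private theorem KEuc_two {G : ℤ → ℤ → ℤ → ℤ → Prop} (h0 : ∀ c d, G 0 0 c d)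
    (h1 : ∀ a b c d k, G a (b + k * a) c d → G a b c d)
    (h2 : ∀ a b c d k, G (a + k * b) b c d → G a b c d)
    (h3 : ∀ a b c d k, G a b c (d + k * c) → G a b c d)
    (h4 : ∀ a b c d k, G a b (c + k * d) d → G a b c d)
    (h5 : ∀ a b c d k, G a (b + k * (c - a)) c (d + k * a) → G a b c d) :
    ∀ a b c d, G a b c d := by
  have swi : ∀ e c d, G e 0 c d → G 0 e c d := fun e c d h =>
    KEuc_sw (F := fun a b => G a b c d) (fun a b k => h1 a b c d k) (fun a b k => h2 a b c d k) e h
  have swi' : ∀ e c d, G 0 e c d → G e 0 c d := fun e c d h =>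
    KEuc_sw' (F := fun a b => G a b c d) (fun a b k => h1 a b c d k) (fun a b k => h2 a b c d k) e h
  have swj : ∀ e a b, G a b e 0 → G a b 0 e := fun e a b h =>
    KEuc_sw (F := fun c d => G a b c d) (fun c d k => h3 a b c d k) (fun c d k => h4 a b c d k) e h
  have swj' : ∀ e a b, G a b 0 e → G a b e 0 := fun e a b h =>
    KEuc_sw' (F := fun c d => G a b c d) (fun c d k => h3 a b c d k) (fun c d k => h4 a b c d k) e h
  have main : ∀ (n : ℕ) (y : ℤ), y.natAbs ≤ n → ∀ x, G 0 x y 0 := by
    intro n
    induction n using Nat.strong_induction_on with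
    | _ n ih =>
      intro y hn x
      by_cases hy : y = 0
      · rw [hy]
        apply swi
        apply h5 x 0 0 0 1
        apply h1 _ _ _ _ 1
        have e1 : (0 : ℤ) + 1 * (0 - x) + 1 * x = 0 := by ring
        have e2 : (0 : ℤ) + 1 * x = x := by ring
        rw [e1, e2]
        apply swj
        apply swi'
        apply h5 0 x x 0 (-1)
        have e3 : x + -1 * (x - 0) = 0 := by ring
        rw [e3]
        exact h0 _ _
      · apply h5 0 x y 0 (-(x / y))
        have e1 : x + -(x / y) * (y - 0) = x % y := by
          have := Int.mul_ediv_add_emod x y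
          linarith
        have e2 : (0 : ℤ) + -(x / y) * 0 = 0 := by ring
        rw [e1, e2]
        by_cases hx : x % y = 0
        · rw [hx]
          exact h0 _ _
        · have hx0 : 0 < x % y := lt_of_le_of_ne (Int.emod_nonneg x hy) (Ne.symm hx)
          have hx1 : x % y < |y| := Int.emod_lt_abs x hy
          apply swi
          apply swj'
          apply h5 (x % y) 0 0 y (-(y / (x % y)))
          apply h1 _ _ _ _ (-(y / (x % y)))
          have e3 : (0 : ℤ) + -(y / (x % y)) * (0 - x % y) + -(y / (x % y)) * (x % y) = 0 := by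
            ring
          have e4 : y + -(y / (x % y)) * (x % y) = y % (x % y) := by
            have := Int.mul_ediv_add_emod y (x % y)
            linarith
          rw [e3, e4]
          have hc0 : 0 ≤ y % (x % y) := Int.emod_nonneg _ hx
          have hc1 : y % (x % y) < x % y := Int.emod_lt_of_pos _ hx0
          have hlt : (y % (x % y)).natAbs < n := by
            have e5 : |y| = (y.natAbs : ℤ) := (Int.natCast_natAbs y).symm
            omega
          apply swi'
          apply swj
          exact ih _ hlt _ le_rfl _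
  intro a b c d
  refine KEuc_one (F := fun a b => G a b c d) (fun a b k => h1 a b c d k)
    (fun a b k => h2 a b c d k) ?_ a.natAbs a b le_rfl
  intro e
  refine KEuc_one (F := fun c d => G 0 e c d) (fun c d k => h3 0 e c d k)
    (fun c d k => h4 0 e c d k) ?_ c.natAbs c d le_rfl
  intro e'
  apply swj
  exact main _ _ le_rfl _

/-- KEuc. -/
theorem st_KEuc : St_KEuc := by
  intro g m h v i j hij hj
  have hi : (i : ℕ) < h := lt_trans hij hj
  have hne : i ≠ j := by
    rintro rfl
    exact lt_irrefl _ hij
  have key : ∀ a b c d : ℤ, ∀ v : Fin g → ZMod m × ZMod m, v i = ((a : ZMod m), (b : ZMod m)) →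
      v j = ((c : ZMod m), (d : ZMod m)) → ∃ v', Relation.ReflTransGen (Op h) v v' ∧ v' i = 0 ∧
        ∀ l, l ≠ i → l ≠ j → v' l = v l := by
    refine KEuc_two ?_ ?_ ?_ ?_ ?_ ?_
    · intro c d v hvi _
      refine ⟨v, Relation.ReflTransGen.refl, ?_, fun _ _ _ => rfl⟩
      rw [hvi]
      refine Prod.ext ?_ ?_
      · simp
      · simp
    · intro a b c d k ih v hvi hvj
      obtain ⟨v', c1, c2, c3⟩ := ih (Function.update v i ((v i).1, (v i).2 + k * (v i).1))
        (by
          rw [Function.update_self, hvi]
          push_cast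
          rfl)
        (by
          rw [Function.update_of_ne hne.symm]
          exact hvj)
      refine ⟨v', Relation.ReflTransGen.head (Or.inl ⟨i, hi, k, rfl⟩) c1, c2, fun l hl1 hl2 => ?_⟩
      rw [c3 l hl1 hl2, Function.update_of_ne hl1]
    · intro a b c d k ih v hvi hvj
      obtain ⟨v', c1, c2, c3⟩ := ih (Function.update v i ((v i).1 + k * (v i).2, (v i).2))
        (by
          rw [Function.update_self, hvi]
          push_cast
          rfl)
        (by
          rw [Function.update_of_ne hne.symm]
          exact hvj)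
      refine ⟨v', Relation.ReflTransGen.head (Or.inr (Or.inl ⟨i, hi, k, rfl⟩)) c1, c2,
        fun l hl1 hl2 => ?_⟩
      rw [c3 l hl1 hl2, Function.update_of_ne hl1]
    · intro a b c d k ih v hvi hvj
      obtain ⟨v', c1, c2, c3⟩ := ih (Function.update v j ((v j).1, (v j).2 + k * (v j).1))
        (by
          rw [Function.update_of_ne hne]
          exact hvi)
        (by
          rw [Function.update_self, hvj]
          push_cast
          rfl)
      refine ⟨v', Relation.ReflTransGen.head (Or.inl ⟨j, hj, k, rfl⟩) c1, c2, fun l hl1 hl2 => ?_⟩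
      rw [c3 l hl1 hl2, Function.update_of_ne hl2]
    · intro a b c d k ih v hvi hvj
      obtain ⟨v', c1, c2, c3⟩ := ih (Function.update v j ((v j).1 + k * (v j).2, (v j).2))
        (by
          rw [Function.update_of_ne hne]
          exact hvi)
        (by
          rw [Function.update_self, hvj]
          push_cast
          rfl)
      refine ⟨v', Relation.ReflTransGen.head (Or.inr (Or.inl ⟨j, hj, k, rfl⟩)) c1, c2,
        fun l hl1 hl2 => ?_⟩
      rw [c3 l hl1 hl2, Function.update_of_ne hl2]
    · intro a b c d k ih v hvi hvj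
      obtain ⟨v', c1, c2, c3⟩ := ih (Function.update
        (Function.update v i ((v i).1, (v i).2 + k * ((v j).1 - (v i).1))) j
        ((v j).1, (v j).2 + k * (v i).1))
        (by
          rw [Function.update_of_ne hne, Function.update_self, hvi, hvj]
          push_cast
          rfl)
        (by
          rw [Function.update_self, hvi, hvj]
          push_cast
          rfl)
      refine ⟨v', Relation.ReflTransGen.head (Or.inr (Or.inr ⟨i, j, hij, hj, k, rfl⟩)) c1, c2,
        fun l hl1 hl2 => ?_⟩
      rw [c3 l hl1 hl2, Function.update_of_ne hl2, Function.update_of_ne hl1]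
  obtain ⟨a, ha⟩ := ZMod.intCast_surjective (v i).1
  obtain ⟨b, hb⟩ := ZMod.intCast_surjective (v i).2
  obtain ⟨c, hc⟩ := ZMod.intCast_surjective (v j).1
  obtain ⟨d, hd⟩ := ZMod.intCast_surjective (v j).2
  exact key a b c d v (by rw [ha, hb]) (by rw [hc, hd])

end Pool.Agent.PWB
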