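import Pool.Agent.PWB.KSt

/-!
# Killing handles: a central Frattini factor costs nothing
-/

namespace Pool.Agent.PWB

open Pool.Agent.PW Pool.Agent.PWM

/-- The letters of the handles `≥ h` generate the group, together with central non-generators. -/
private theorem kfrat_top {Q : Type} [Group Q] {g n h : ℕ} (ρ : F g n →* Q)
    (N : Subgroup Q) (hρ : Function.Surjective ρ) (hg : ∀ H : Subgroup Q, H ⊔ N = ⊤ → H = ⊤)
    (hI : Inv h N ρ) (q : Q) : ∃ y ∈ Fge g n h, ρ y = q := by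
  have h1 : (Fge g n h).map ρ ⊔ N = ⊤ := by
    rw [eq_top_iff]
    intro x _
    obtain ⟨w, rfl⟩ := hρ x
    have h2 : ∀ w : F g n, ρ w ∈ (Fge g n h).map ρ ⊔ N := by
      intro w
      induction w using FreeGroup.induction_on with
      | C1 =>
        rw [map_one]
        exact Subgroup.one_mem _
      | of x =>
        cases x with
        | a i =>
          by_cases hi : (i : ℕ) < h
          · exact (le_sup_right : N ≤ _) (hI i hi).1
          · refine (le_sup_left : (Fge g n h).map ρ ≤ _) (Subgroup.mem_map_of_mem ρ ?_)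
            exact Subgroup.subset_closure (Or.inl ⟨i, not_lt.mp hi, Or.inl rfl⟩)
        | b i =>
          by_cases hi : (i : ℕ) < h
          · exact (le_sup_right : N ≤ _) (hI i hi).2
          · refine (le_sup_left : (Fge g n h).map ρ ≤ _) (Subgroup.mem_map_of_mem ρ ?_)
            exact Subgroup.subset_closure (Or.inl ⟨i, not_lt.mp hi, Or.inr rfl⟩)
        | c j =>
          refine (le_sup_left : (Fge g n h).map ρ ≤ _) (Subgroup.mem_map_of_mem ρ ?_)
          exact Subgroup.subset_closure (Or.inr ⟨j, rfl⟩)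
      | inv_of x ih =>
        rw [map_inv]
        exact Subgroup.inv_mem _ ih
      | mul x y hx hy =>
        rw [map_mul]
        exact Subgroup.mul_mem _ hx hy
    exact h2 w
  have h3 : q ∈ (Fge g n h).map ρ := by
    rw [hg _ h1]
    exact Subgroup.mem_top q
  obtain ⟨y, hy, hyq⟩ := h3
  exact ⟨y, hy, hyq⟩

/-- Kill one handle. -/
private theorem kfrat_one (hp : St_KPush) {Q : Type} [Group Q] [Finite Q] {g n h : ℕ}
    (ρ : F g n →* Q) (N : Subgroup Q) (hρ : Function.Surjective ρ)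
    (hz : ∀ x ∈ N, ∀ y : Q, x * y = y * x) (hg : ∀ H : Subgroup Q, H ⊔ N = ⊤ → H = ⊤)
    (hI : Inv h N ρ) (i : Fin g) (hi : (i : ℕ) < h) : ∃ φ ∈ MCG g n,
      ρ (φ (ga i)) = 1 ∧ ρ (φ (gb i)) = 1 ∧
      ∀ l : Fin g, (l : ℕ) < h → l ≠ i → ρ (φ (ga l)) = ρ (ga l) ∧ ρ (φ (gb l)) = ρ (gb l) := by
  obtain ⟨y, hy, hyq⟩ := kfrat_top ρ N hρ hg hI (ρ (gb i))⁻¹
  obtain ⟨φ, hφ, h1, ⟨k, h2⟩, h3, -⟩ := hp ρ N hz hI i hi y hy
  rw [hyq, inv_mul_cancel, one_mul] at h2
  -- the composite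
  have hψ : φ * e1 i (-k) * rr i ∈ MCG g n :=
    (MCG g n).mul_mem ((MCG g n).mul_mem hφ (e1_mem i _)) (rr_mem i)
  set ψ : MulAut (F g n) := φ * e1 i (-k) * rr i with hψd
  have a1 : ρ (ψ (ga i)) = 1 := by
    rw [hψd, MulAut.mul_apply, MulAut.mul_apply, rr_a]
    simp only [map_mul, map_inv, e1_a, e1_b, map_zpow, h1, h2]
    group
  have b1 : ρ (ψ (gb i)) = (ρ (ga i))⁻¹ := by
    rw [hψd, MulAut.mul_apply, MulAut.mul_apply, rr_b]
    simp only [map_inv, e1_a, h1]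
  have c1 : ∀ l : Fin g, (l : ℕ) < h → l ≠ i →
      ρ (ψ (ga l)) = ρ (ga l) ∧ ρ (ψ (gb l)) = ρ (gb l) := by
    intro l hl hli
    rw [hψd, MulAut.mul_apply, MulAut.mul_apply, MulAut.mul_apply, MulAut.mul_apply, rr_a' hli,
      rr_b' hli, e1_a, e1_b' hli]
    exact h3 l hl hli
  have hI' : Inv h N (ρ.comp (MulEquiv.toMonoidHom ψ)) := by
    intro l hl
    show ρ (ψ (ga l)) ∈ N ∧ ρ (ψ (gb l)) ∈ N
    by_cases hli : l = i
    · subst hli
      rw [a1, b1]
      exact ⟨N.one_mem, N.inv_mem (hI l hl).1⟩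
    · rw [(c1 l hl hli).1, (c1 l hl hli).2]
      exact hI l hl
  have hρ' : Function.Surjective (ρ.comp (MulEquiv.toMonoidHom ψ)) := hρ.comp ψ.surjective
  obtain ⟨y', hy', hyq'⟩ := kfrat_top (ρ.comp (MulEquiv.toMonoidHom ψ)) N hρ' hg hI' (ρ (ga i))
  obtain ⟨θ, hθ, d1, ⟨k', d2⟩, d3, -⟩ := hp (ρ.comp (MulEquiv.toMonoidHom ψ)) N hz hI' i hi y' hy'
  have e : ∀ x : F g n, (ρ.comp (MulEquiv.toMonoidHom ψ)) x = ρ (ψ x) := fun _ => rfl
  rw [hyq'] at d2
  rw [e, e] at d1 d2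
  rw [e] at d2
  rw [a1] at d1 d2
  rw [b1, mul_inv_cancel, one_mul, one_zpow] at d2
  refine ⟨ψ * θ, (MCG g n).mul_mem hψ hθ, d1, d2, fun l hl hli => ?_⟩
  have d4 := d3 l hl hli
  rw [e, e, e, e] at d4
  exact ⟨d4.1.trans (c1 l hl hli).1, d4.2.trans (c1 l hl hli).2⟩

/-- Kill all the handles. -/
private theorem kfrat_all (hp : St_KPush) {Q : Type} [Group Q] [Finite Q] {g n h : ℕ}
    (ρ : F g n →* Q) (N : Subgroup Q) (hρ : Function.Surjective ρ)
    (hz : ∀ x ∈ N, ∀ y : Q, x * y = y * x) (hg : ∀ H : Subgroup Q, H ⊔ N = ⊤ → H = ⊤)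
    (hI : Inv h N ρ) (t : ℕ) (ht : t ≤ h) : ∃ φ ∈ MCG g n,
      Inv h N (ρ.comp (MulEquiv.toMonoidHom φ)) ∧
      ∀ l : Fin g, (l : ℕ) < t → ρ (φ (ga l)) = 1 ∧ ρ (φ (gb l)) = 1 := by
  induction t with
  | zero => exact ⟨1, (MCG g n).one_mem, hI, fun l hl => absurd hl (Nat.not_lt_zero _)⟩
  | succ t ih =>
    obtain ⟨φ, hφ, h1, h2⟩ := ih (by omega)
    by_cases htg : t < g
    · obtain ⟨ψ, hψ, a1, b1, c1⟩ := kfrat_one hp (ρ.comp (MulEquiv.toMonoidHom φ)) N
        (hρ.comp φ.surjective) hz hg h1 ⟨t, htg⟩ (by simp only; omega)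
      have e : ∀ x : F g n, (ρ.comp (MulEquiv.toMonoidHom φ)) x = ρ (φ x) := fun _ => rfl
      rw [e] at a1 b1
      refine ⟨φ * ψ, (MCG g n).mul_mem hφ hψ, fun l hl => ?_, fun l hl => ?_⟩
      · show ρ (φ (ψ (ga l))) ∈ N ∧ ρ (φ (ψ (gb l))) ∈ N
        by_cases hlt : l = ⟨t, htg⟩
        · subst hlt
          rw [a1, b1]
          exact ⟨N.one_mem, N.one_mem⟩
        · have c2 := c1 l hl hlt
          rw [e, e, e, e] at c2
          rw [c2.1, c2.2]
          exact h1 l hl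
      · show ρ (φ (ψ (ga l))) = 1 ∧ ρ (φ (ψ (gb l))) = 1
        by_cases hlt : l = ⟨t, htg⟩
        · subst hlt
          exact ⟨a1, b1⟩
        · have hlt' : (l : ℕ) ≠ t := fun h => hlt (Fin.ext h)
          have c2 := c1 l (by omega) hlt
          rw [e, e, e, e] at c2
          rw [c2.1, c2.2]
          exact h2 l (by omega)
    · refine ⟨φ, hφ, h1, fun l hl => h2 l ?_⟩
      have := l.2
      omega

theorem st_KFrat (hp : St_KPush) : St_KFrat := by
  intro Q _ _ g n h _ ρ N M hρ hN hM hMN hz hg hI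
  have e : ∀ x : Q, QuotientGroup.mk' M x = 1 ↔ x ∈ M := fun x => by
    rw [QuotientGroup.mk'_apply, QuotientGroup.eq_one_iff]
  obtain ⟨φ, hφ, -, h1⟩ := kfrat_all hp ((QuotientGroup.mk' M).comp ρ)
    (N.map (QuotientGroup.mk' M)) ((QuotientGroup.mk'_surjective M).comp hρ) (by
      rintro _ ⟨x, hx, rfl⟩ y
      obtain ⟨y, rfl⟩ := QuotientGroup.mk'_surjective M y
      have h2 := (e _).mpr (hz x hx y)
      rw [map_mul, map_mul, map_mul, map_inv, map_inv] at h2
      rw [mul_inv_eq_one, mul_inv_eq_iff_eq_mul] at h2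
      exact h2) (by
      intro H hH
      have h2 : (H.comap (QuotientGroup.mk' M) ⊔ N) = ⊤ := by
        have h3 : (H.comap (QuotientGroup.mk' M) ⊔ N).map (QuotientGroup.mk' M) = ⊤ := by
          rw [Subgroup.map_sup, Subgroup.map_comap_eq_self_of_surjective
            (QuotientGroup.mk'_surjective M), hH]
        have h4 := congrArg (Subgroup.comap (QuotientGroup.mk' M)) h3
        rw [Subgroup.comap_map_eq, QuotientGroup.ker_mk', Subgroup.comap_top] at h4
        rw [sup_assoc, sup_eq_left.mpr hMN] at h4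
        exact h4
      have h3 := hg _ h2
      have h4 : M ≤ H.comap (QuotientGroup.mk' M) := by
        intro x hx
        rw [Subgroup.mem_comap, (e x).mpr hx]
        exact H.one_mem
      rw [sup_eq_left.mpr h4] at h3
      have h5 := congrArg (Subgroup.map (QuotientGroup.mk' M)) h3
      rw [Subgroup.map_comap_eq_self_of_surjective (QuotientGroup.mk'_surjective M),
        Subgroup.map_top_of_surjective _ (QuotientGroup.mk'_surjective M)] at h5
      exact h5) (fun l hl => ⟨Subgroup.mem_map_of_mem _ (hI l hl).1,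
        Subgroup.mem_map_of_mem _ (hI l hl).2⟩) h le_rfl
  refine ⟨φ, hφ, fun l hl => ?_⟩
  obtain ⟨h2, h3⟩ := h1 l hl
  exact ⟨(e _).mp h2, (e _).mp h3⟩

end Pool.Agent.PWB
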