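import Pool.Agent.PWB.KSt

/-!
# The module KNil of the killing part (Putman-Wieland)
-/

set_option autoImplicit false

namespace Pool.Agent.PWB

/-- In a finite nilpotent group the commutator subgroup consists of non-generators. -/
theorem knil_frat {Q : Type} [Group Q] [Finite Q] [hn : Group.IsNilpotent Q] (H : Subgroup Q)
    (h : H ⊔ commutator Q = ⊤) : H = ⊤ := by
  by_contra hne
  obtain ⟨K, hK, hHK⟩ := (eq_top_or_exists_le_coatom H).resolve_left hne
  have hnorm : K.Normal :=
    Subgroup.NormalizerCondition.normal_of_coatom K Group.normalizerCondition_of_isNilpotent hK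
  have hKc : K ⊔ commutator Q = ⊤ := by
    rw [eq_top_iff, ← h]
    exact sup_le_sup_right hHK _
  have hnt : Nontrivial (Q ⧸ K) := by
    rw [QuotientGroup.nontrivial_iff]
    exact hK.1
  have h1 : (commutator (Q ⧸ K)) = ⊤ := by
    have h2 : (K ⊔ commutator Q).map (QuotientGroup.mk' K) = ⊤ := by
      rw [hKc]
      exact Subgroup.map_top_of_surjective _ (QuotientGroup.mk'_surjective K)
    rw [Subgroup.map_sup, QuotientGroup.map_mk'_self, bot_sup_eq, commutator_def,
      Subgroup.map_commutator, Subgroup.map_top_of_surjective _ (QuotientGroup.mk'_surjective K)]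
      at h2
    rw [commutator_def]
    exact h2
  have h3 := Group.IsSolvable.commutator_lt_top_of_nontrivial (Q ⧸ K)
  exact absurd h1 h3.ne

/-- Cyclic steps above a subgroup which contains the commutators. -/
theorem knil_cyc {G : Type} [Group G] (C : Subgroup G) (hC : ∀ x y : G, x * y * x⁻¹ * y⁻¹ ∈ C)
    (T : Finset G) : ∀ u : ℕ, Cost G u (Subgroup.closure (T : Set G) ⊔ C) →
    Cost G (u + T.card) C := by
  classical
  induction T using Finset.induction_on with
  | empty =>
    intro u h
    simpa using h
  | insert s T hs ih =>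
    intro u h
    have h1 : Cost G (u + 1) (Subgroup.closure (T : Set G) ⊔ C) := by
      refine Cost.cyclic h ?_ ?_ ?_
      · refine sup_le_sup_right (Subgroup.closure_mono ?_) _
        simp
      · intro x _ y hy
        have h2 : x * y * x⁻¹ * y⁻¹ ∈ Subgroup.closure (T : Set G) ⊔ C :=
          Subgroup.mem_sup_right (hC x y)
        have h3 := mul_mem h2 hy
        simpa using h3
      · refine ⟨s, ?_, ?_⟩
        · exact Subgroup.mem_sup_left (Subgroup.subset_closure (by simp))
        · have hnorm : (Subgroup.closure (T : Set G) ⊔ C).Normal := by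
            constructor
            intro y hy x
            have h2 : x * y * x⁻¹ * y⁻¹ ∈ Subgroup.closure (T : Set G) ⊔ C :=
              Subgroup.mem_sup_right (hC x y)
            have h3 := mul_mem h2 hy
            simpa using h3
          have hle : Subgroup.closure ((insert s T : Finset G) : Set G) ⊔ C ≤
              Subgroup.zpowers s ⊔ (Subgroup.closure (T : Set G) ⊔ C) := by
            refine sup_le ?_ ?_
            · rw [Subgroup.closure_le]
              intro z hz
              rw [Finset.coe_insert, Set.mem_insert_iff] at hz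
              rcases hz with rfl | hz
              · exact Subgroup.mem_sup_left (Subgroup.mem_zpowers z)
              · exact Subgroup.mem_sup_right (Subgroup.mem_sup_left
                  (Subgroup.subset_closure hz))
            · exact le_trans le_sup_right le_sup_right
          intro x hx
          have h4 := hle hx
          rw [Subgroup.mem_sup_of_normal_right] at h4
          obtain ⟨a, ha, b, hb, rfl⟩ := h4
          obtain ⟨k, rfl⟩ := Subgroup.mem_zpowers_iff.mp ha
          refine ⟨k, ?_⟩
          simpa using hb
    have h5 := ih (u + 1) h1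
    rw [Finset.card_insert_of_notMem hs]
    have : u + (T.card + 1) = u + 1 + T.card := by ring
    rw [this]
    exact h5

theorem st_KNil : St_KNil := by
  classical
  intro G _ _ B hB hn S hS
  have := hn
  set π : G →* G ⧸ B := QuotientGroup.mk' B with hπ
  have hsurj : Function.Surjective π := QuotientGroup.mk'_surjective B
  set L : ℕ → Subgroup G := fun n => ((⊤ : Subgroup (G ⧸ B)).lowerCentralSeries n).comap π
    with hL
  have hLn : ∀ n, (L n).Normal := by
    intro n
    rw [hL]
    infer_instance
  have hBL : ∀ n, B ≤ L n := by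
    intro n x hx
    have h1 : π x = 1 := by
      rw [hπ]
      exact (QuotientGroup.eq_one_iff x).mpr hx
    change π x ∈ ((⊤ : Subgroup (G ⧸ B)).lowerCentralSeries n)
    rw [h1]
    exact one_mem _
  have hcomm : ∀ n, ∀ x ∈ L n, ∀ y, x * y * x⁻¹ * y⁻¹ ∈ L (n + 1) := by
    intro n x hx y
    change π (x * y * x⁻¹ * y⁻¹) ∈ (⊤ : Subgroup (G ⧸ B)).lowerCentralSeries (n + 1)
    rw [Subgroup.lowerCentralSeries_succ, map_mul, map_mul, map_mul, map_inv, map_inv]
    exact Subgroup.commutator_mem_commutator hx (Subgroup.mem_top _)
  have hle : ∀ n, L (n + 1) ≤ L n := by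
    intro n
    exact Subgroup.comap_mono ((⊤ : Subgroup (G ⧸ B)).lowerCentralSeries_antitone (Nat.le_succ n))
  -- the commutator part
  have hC1 : ∀ x y : G, x * y * x⁻¹ * y⁻¹ ∈ L 1 := by
    intro x y
    exact hcomm 0 x (by
      change π x ∈ (⊤ : Subgroup (G ⧸ B)).lowerCentralSeries 0
      rw [Subgroup.lowerCentralSeries_zero]
      exact Subgroup.mem_top _) y
  have hgen : ∀ H : Subgroup G, H ⊔ L 1 = ⊤ → H ⊔ B = ⊤ := by
    intro H hH
    have h1 : (H ⊔ L 1).map π = ⊤ := by
      rw [hH]
      exact Subgroup.map_top_of_surjective _ hsurj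
    rw [Subgroup.map_sup] at h1
    have h2 : (L 1).map π = commutator (G ⧸ B) := by
      rw [← Subgroup.top_lowerCentralSeries_one]
      exact Subgroup.map_comap_eq_self_of_surjective hsurj _
    rw [h2] at h1
    have h3 := knil_frat _ h1
    have h4 : (H.map π).comap π = H ⊔ π.ker := Subgroup.comap_map_eq π H
    rw [h3, Subgroup.comap_top, hπ, QuotientGroup.ker_mk'] at h4
    exact h4.symm
  have hstart : Cost G S.card (L 1) := by
    have h1 : Cost G 0 (Subgroup.closure (S : Set G) ⊔ L 1) := by
      have h2 : Subgroup.closure (S : Set G) ⊔ L 1 = ⊤ := by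
        rw [eq_top_iff, ← hS]
        exact sup_le_sup_left (hBL 1) _
      rw [h2]
      exact Cost.top
    have h3 := knil_cyc (L 1) hC1 S 0 h1
    simpa using h3
  have hall : ∀ n, Cost G S.card (L (n + 1)) := by
    intro n
    induction n with
    | zero => exact hstart
    | succ n ih =>
      refine Cost.frattini ih (hLn _) (hLn _) (hle _) (hcomm _) ?_
      intro H hH
      have h1 : H ⊔ L 1 = ⊤ := by
        rw [eq_top_iff, ← hH]
        refine sup_le_sup_left ?_ _
        exact Subgroup.comap_mono
          ((⊤ : Subgroup (G ⧸ B)).lowerCentralSeries_antitone (by omega))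
      have h2 := hgen H h1
      rw [eq_top_iff, ← h2]
      exact sup_le_sup_left (hBL _) _
  obtain ⟨c, hc⟩ := Subgroup.nilpotent_iff_lowerCentralSeries.mp hn
  have hLc : L (c + 1) = B := by
    have h1 : (⊤ : Subgroup (G ⧸ B)).lowerCentralSeries (c + 1) = ⊥ := by
      rw [eq_bot_iff, ← hc]
      exact (⊤ : Subgroup (G ⧸ B)).lowerCentralSeries_antitone (Nat.le_succ c)
    change ((⊤ : Subgroup (G ⧸ B)).lowerCentralSeries (c + 1)).comap π = B
    rw [h1, MonoidHom.comap_bot, hπ, QuotientGroup.ker_mk']
  rw [← hLc]
  exact hall c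

end Pool.Agent.PWB
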