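import Pool.Agent.PWB.KSt

/-!
# Killing handles: the handle `i` at the expense of the handle `j` (`St_KPair`)
-/

namespace Pool.Agent.PWB

open Pool.Agent.PW Pool.Agent.PWM

namespace KPair

variable {Q : Type} [Group Q] {g n h : ℕ}

/-- `ρ₂` comes from `ρ₁` by a mapping class which does not change the handles other than `i`, `j`. -/
structure T (N : Subgroup Q) (h : ℕ) (i j : Fin g) (ρ₁ ρ₂ : F g n →* Q) : Prop where
  ex : ∃ φ ∈ MCG g n, ∀ x, ρ₂ x = ρ₁ (φ x)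
  inv : Inv h N ρ₂
  oth : ∀ l : Fin g, l ≠ i → l ≠ j → ρ₂ (ga l) = ρ₁ (ga l) ∧ ρ₂ (gb l) = ρ₁ (gb l)

theorem T.refl {N : Subgroup Q} {i j : Fin g} {ρ : F g n →* Q} (hI : Inv h N ρ) :
    T N h i j ρ ρ :=
  ⟨⟨1, (MCG g n).one_mem, fun _ => rfl⟩, hI, fun _ _ _ => ⟨rfl, rfl⟩⟩

theorem T.trans {N : Subgroup Q} {i j : Fin g} {ρ₁ ρ₂ ρ₃ : F g n →* Q} (h1 : T N h i j ρ₁ ρ₂)
    (h2 : T N h i j ρ₂ ρ₃) : T N h i j ρ₁ ρ₃ := by
  obtain ⟨φ, hφ, e1⟩ := h1.ex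
  obtain ⟨ψ, hψ, e2⟩ := h2.ex
  refine ⟨⟨φ * ψ, (MCG g n).mul_mem hφ hψ, fun x => ?_⟩, h2.inv, fun l hi hj => ?_⟩
  · rw [e2, e1]
    rfl
  · obtain ⟨a1, b1⟩ := h1.oth l hi hj
    obtain ⟨a2, b2⟩ := h2.oth l hi hj
    exact ⟨a2.trans a1, b2.trans b1⟩

theorem T.surj {N : Subgroup Q} {i j : Fin g} {ρ₁ ρ₂ : F g n →* Q} (h1 : T N h i j ρ₁ ρ₂)
    (hρ : Function.Surjective ρ₁) : Function.Surjective ρ₂ := by
  obtain ⟨φ, _, e1⟩ := h1.ex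
  intro q
  obtain ⟨x, rfl⟩ := hρ q
  obtain ⟨y, rfl⟩ := φ.surjective x
  exact ⟨y, e1 y⟩

/-- A mapping class which changes only the handles `i`, `j`. -/
theorem T.mk' {N : Subgroup Q} {i j : Fin g} {ρ : F g n →* Q} (hI : Inv h N ρ)
    {φ : MulAut (F g n)} (hφ : φ ∈ MCG g n)
    (ho : ∀ l : Fin g, l ≠ i → l ≠ j → ρ (φ (ga l)) = ρ (ga l) ∧ ρ (φ (gb l)) = ρ (gb l))
    (h1 : ρ (φ (ga i)) ∈ N) (h2 : ρ (φ (gb i)) ∈ N) (h3 : ρ (φ (ga j)) ∈ N)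
    (h4 : ρ (φ (gb j)) ∈ N) : T N h i j ρ (ρ.comp (MulEquiv.toMonoidHom φ)) := by
  refine ⟨⟨φ, hφ, fun _ => rfl⟩, fun l hl => ?_, ho⟩
  by_cases hi : l = i
  · subst hi
    exact ⟨h1, h2⟩
  · by_cases hj : l = j
    · subst hj
      exact ⟨h3, h4⟩
    · obtain ⟨a, b⟩ := ho l hi hj
      obtain ⟨a', b'⟩ := hI l hl
      refine ⟨?_, ?_⟩
      · show ρ (φ (ga l)) ∈ N
        rw [a]
        exact a'
      · show ρ (φ (gb l)) ∈ N
        rw [b]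
        exact b'

/-- The twisted slide. -/
theorem slide (hs : St_KSlide) [Finite Q] {ρ : F g n →* Q} {N : Subgroup Q} (hN : N.Normal)
    (hρ : Function.Surjective ρ) (hc : ∀ x ∈ N, ∀ y ∈ N, x * y = y * x) (hI : Inv h N ρ)
    {i j : Fin g} (hij : (i : ℕ) < j) (hj : (j : ℕ) < h) (q : Q) (k : ℤ) :
    ∃ ρ' : F g n →* Q, T N h i j ρ ρ' ∧ ρ' (ga i) = ρ (ga i) ∧
      ρ' (gb i) = (q * ρ (ga j) ^ k * q⁻¹) * ρ (gb i) ∧ ρ' (ga j) = ρ (ga j) ∧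
      ρ' (gb j) = (q⁻¹ * ρ (ga i) ^ k * q) * ρ (gb j) := by
  obtain ⟨φ, hφ, h1, h2, h3, h4, h5⟩ := hs ρ N hN hρ hc hI i j hij hj q k
  obtain ⟨ai, bi⟩ := hI i (by omega)
  obtain ⟨aj, bj⟩ := hI j hj
  refine ⟨ρ.comp (MulEquiv.toMonoidHom φ), T.mk' hI hφ h5 ?_ ?_ ?_ ?_, h1, h2, h3, h4⟩
  · rw [h1]
    exact ai
  · rw [h2]
    exact N.mul_mem (hN.conj_mem _ (N.zpow_mem aj k) q) bi
  · rw [h3]
    exact aj
  · rw [h4]
    have := hN.conj_mem _ (N.zpow_mem ai k) q⁻¹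
    rw [inv_inv] at this
    exact N.mul_mem this bj

/-- `b i` can be multiplied by any element of the normal subgroup generated by `ρ (a j)`. -/
theorem kill (hs : St_KSlide) [Finite Q] {N : Subgroup Q} (hN : N.Normal)
    (hc : ∀ x ∈ N, ∀ y ∈ N, x * y = y * x) {i j : Fin g} (hij : (i : ℕ) < j) (hj : (j : ℕ) < h)
    {α : Q} {x : Q} (hx : x ∈ Subgroup.normalClosure {α}) :
    ∀ ρ : F g n →* Q, Function.Surjective ρ → Inv h N ρ → ρ (ga j) = α →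
      ∃ ρ' : F g n →* Q, T N h i j ρ ρ' ∧ ρ' (ga i) = ρ (ga i) ∧ ρ' (gb i) = x * ρ (gb i) ∧
        ρ' (ga j) = α := by
  have key : ∀ x ∈ Submonoid.closure (Group.conjugatesOfSet {α} ∪ (Group.conjugatesOfSet {α})⁻¹),
      ∀ ρ : F g n →* Q, Function.Surjective ρ → Inv h N ρ → ρ (ga j) = α →
      ∃ ρ' : F g n →* Q, T N h i j ρ ρ' ∧ ρ' (ga i) = ρ (ga i) ∧ ρ' (gb i) = x * ρ (gb i) ∧
        ρ' (ga j) = α := by
    intro x hx
    induction hx using Submonoid.closure_induction with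
    | mem x hx =>
      intro ρ hρ hI hα
      have h1 : ∃ (q : Q) (k : ℤ), x = q * α ^ k * q⁻¹ := by
        rcases hx with hx | hx
        · rw [Group.mem_conjugatesOfSet_iff] at hx
          obtain ⟨a, ha, hax⟩ := hx
          rw [Set.mem_singleton_iff] at ha
          subst ha
          rw [isConj_iff] at hax
          obtain ⟨c, hc⟩ := hax
          exact ⟨c, 1, by rw [zpow_one, hc]⟩
        · rw [Set.mem_inv, Group.mem_conjugatesOfSet_iff] at hx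
          obtain ⟨a, ha, hax⟩ := hx
          rw [Set.mem_singleton_iff] at ha
          subst ha
          rw [isConj_iff] at hax
          obtain ⟨c, hc⟩ := hax
          refine ⟨c, -1, ?_⟩
          rw [← inv_inj, ← hc]
          group
      obtain ⟨q, k, rfl⟩ := h1
      obtain ⟨ρ', h1, h2, h3, h4, _⟩ := slide hs hN hρ hc hI hij hj q k
      rw [hα] at h3 h4
      exact ⟨ρ', h1, h2, h3, h4⟩
    | one =>
      intro ρ _ hI hα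
      exact ⟨ρ, T.refl hI, rfl, (one_mul _).symm, hα⟩
    | mul x y _ _ hx hy =>
      intro ρ hρ hI hα
      obtain ⟨ρ', h1, h2, h3, h4⟩ := hy ρ hρ hI hα
      obtain ⟨ρ'', k1, k2, k3, k4⟩ := hx ρ' (h1.surj hρ) h1.inv h4
      exact ⟨ρ'', h1.trans k1, k2.trans h2, by rw [k3, h3, mul_assoc], k4⟩
  refine key x ?_
  rw [← Subgroup.closure_toSubmonoid]
  exact hx

/-- `a i` times `b i`. -/
theorem addb {ρ : F g n →* Q} {N : Subgroup Q} (hI : Inv h N ρ) {i j : Fin g} (hne : i ≠ j)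
    (hi : (i : ℕ) < h) (hj : (j : ℕ) < h) :
    ∃ ρ' : F g n →* Q, T N h i j ρ ρ' ∧ ρ' (ga i) = ρ (ga i) * ρ (gb i) := by
  obtain ⟨ai, bi⟩ := hI i hi
  obtain ⟨aj, bj⟩ := hI j hj
  refine ⟨ρ.comp (MulEquiv.toMonoidHom (e2 i 1)), T.mk' hI (e2_mem i 1) ?_ ?_ ?_ ?_ ?_, ?_⟩
  · intro l hli _
    rw [e2_a' hli, e2_b]
    exact ⟨rfl, rfl⟩
  · rw [e2_a, zpow_one, map_mul]
    exact N.mul_mem ai bi
  · rw [e2_b]
    exact bi
  · rw [e2_a' hne.symm]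
    exact aj
  · rw [e2_b]
    exact bj
  · show ρ (e2 i 1 (ga i)) = _
    rw [e2_a, zpow_one, map_mul]

/-- `a j` times `b j`. -/
theorem addb' {ρ : F g n →* Q} {N : Subgroup Q} (hI : Inv h N ρ) {i j : Fin g} (hne : i ≠ j)
    (hi : (i : ℕ) < h) (hj : (j : ℕ) < h) :
    ∃ ρ' : F g n →* Q, T N h i j ρ ρ' ∧ ρ' (ga j) = ρ (ga j) * ρ (gb j) := by
  obtain ⟨ai, bi⟩ := hI i hi
  obtain ⟨aj, bj⟩ := hI j hj
  refine ⟨ρ.comp (MulEquiv.toMonoidHom (e2 j 1)), T.mk' hI (e2_mem j 1) ?_ ?_ ?_ ?_ ?_, ?_⟩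
  · intro l _ hlj
    rw [e2_a' hlj, e2_b]
    exact ⟨rfl, rfl⟩
  · rw [e2_a' hne]
    exact ai
  · rw [e2_b]
    exact bi
  · rw [e2_a, zpow_one, map_mul]
    exact N.mul_mem aj bj
  · rw [e2_b]
    exact bj
  · show ρ (e2 j 1 (ga j)) = _
    rw [e2_a, zpow_one, map_mul]

/-- The rotation of the handle `i`. -/
theorem rot {ρ : F g n →* Q} {N : Subgroup Q} (hc : ∀ x ∈ N, ∀ y ∈ N, x * y = y * x)
    (hI : Inv h N ρ) {i j : Fin g} (hne : i ≠ j) (hi : (i : ℕ) < h) (hj : (j : ℕ) < h) :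
    ∃ ρ' : F g n →* Q, T N h i j ρ ρ' ∧ ρ' (ga i) = ρ (gb i) ∧ ρ' (gb i) = (ρ (ga i))⁻¹ ∧
      ρ' (ga j) = ρ (ga j) := by
  obtain ⟨ai, bi⟩ := hI i hi
  obtain ⟨aj, bj⟩ := hI j hj
  have e : ρ (rr i (ga i)) = ρ (gb i) := by
    rw [rr_a, map_mul, map_mul, map_inv, hc _ ai _ bi, mul_inv_cancel_right]
  refine ⟨ρ.comp (MulEquiv.toMonoidHom (rr i)), T.mk' hI (rr_mem i) ?_ ?_ ?_ ?_ ?_, e, ?_, ?_⟩
  · intro l hli _
    rw [rr_a' hli, rr_b' hli]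
    exact ⟨rfl, rfl⟩
  · rw [e]
    exact bi
  · rw [rr_b, map_inv]
    exact N.inv_mem ai
  · rw [rr_a' hne.symm]
    exact aj
  · rw [rr_b' hne.symm]
    exact bj
  · show ρ (rr i (gb i)) = _
    rw [rr_b, map_inv]
  · show ρ (rr i (ga j)) = _
    rw [rr_a' hne.symm]

/-- `a j` can be made nontrivial if the handle `j` is alive. -/
theorem aj_of_j {ρ : F g n →* Q} {N : Subgroup Q} (hI : Inv h N ρ) {i j : Fin g} (hne : i ≠ j)
    (hi : (i : ℕ) < h) (hj : (j : ℕ) < h) (hal : ρ (ga j) ≠ 1 ∨ ρ (gb j) ≠ 1) :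
    ∃ ρ' : F g n →* Q, T N h i j ρ ρ' ∧ ρ' (ga j) ≠ 1 := by
  by_cases h1 : ρ (ga j) = 1
  · have h2 : ρ (gb j) ≠ 1 := hal.resolve_left (fun h => h h1)
    obtain ⟨ρ', h3, h4⟩ := addb' hI hne hi hj
    refine ⟨ρ', h3, ?_⟩
    rw [h4, h1, one_mul]
    exact h2
  · exact ⟨ρ, T.refl hI, h1⟩

/-- `a i` can be made nontrivial if the handle `i` is alive. -/
theorem ai_of_i {ρ : F g n →* Q} {N : Subgroup Q} (hI : Inv h N ρ) {i j : Fin g} (hne : i ≠ j)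
    (hi : (i : ℕ) < h) (hj : (j : ℕ) < h) (hal : ρ (ga i) ≠ 1 ∨ ρ (gb i) ≠ 1) :
    ∃ ρ' : F g n →* Q, T N h i j ρ ρ' ∧ ρ' (ga i) ≠ 1 := by
  by_cases h1 : ρ (ga i) = 1
  · have h2 : ρ (gb i) ≠ 1 := hal.resolve_left (fun h => h h1)
    obtain ⟨ρ', h3, h4⟩ := addb hI hne hi hj
    refine ⟨ρ', h3, ?_⟩
    rw [h4, h1, one_mul]
    exact h2
  · exact ⟨ρ, T.refl hI, h1⟩

/-- `a j` can be made nontrivial if one of the handles `i`, `j` is alive. -/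
theorem aj_of (hs : St_KSlide) [Finite Q] {ρ : F g n →* Q} {N : Subgroup Q} (hN : N.Normal)
    (hρ : Function.Surjective ρ) (hc : ∀ x ∈ N, ∀ y ∈ N, x * y = y * x) (hI : Inv h N ρ)
    {i j : Fin g} (hij : (i : ℕ) < j) (hj : (j : ℕ) < h) (hal : ρ (ga i) ≠ 1 ∨ ρ (gb i) ≠ 1) :
    ∃ ρ' : F g n →* Q, T N h i j ρ ρ' ∧ ρ' (ga j) ≠ 1 := by
  have hne : i ≠ j := by
    rintro rfl
    omega
  have hi : (i : ℕ) < h := by omega
  obtain ⟨ρ₁, t1, a1⟩ := ai_of_i (i := i) (j := j) hI hne hi hj hal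
  by_cases hjal : ρ₁ (ga j) ≠ 1 ∨ ρ₁ (gb j) ≠ 1
  · obtain ⟨ρ', h3, h4⟩ := aj_of_j (i := i) (j := j) t1.inv hne hi hj hjal
    exact ⟨ρ', t1.trans h3, h4⟩
  · simp only [not_or, not_not] at hjal
    obtain ⟨ρ₂, t2, _, _, _, b2⟩ := slide hs hN (t1.surj hρ) hc t1.inv hij hj 1 1
    have h5 : ρ₂ (gb j) ≠ 1 := by
      rw [b2, hjal.2]
      simpa using a1
    obtain ⟨ρ', h3, h4⟩ := aj_of_j (i := i) (j := j) t2.inv hne hi hj (Or.inr h5)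
    exact ⟨ρ', (t1.trans t2).trans h3, h4⟩

end KPair

open KPair

/-- (KPair) In a commutative minimal normal subgroup the handle `i` can be killed at the expense of
the handle `j`. -/
theorem st_KPair (hs : St_KSlide) : St_KPair := by
  intro Q _ _ g n h ρ N hN hρ hc hmin hI i j hij hj
  have hne : i ≠ j := by
    rintro rfl
    omega
  have hi : (i : ℕ) < h := by omega
  have fin : ∀ ρ' : F g n →* Q, T N h i j ρ ρ' → ρ' (ga i) = 1 → ρ' (gb i) = 1 →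
      ∃ φ ∈ MCG g n,
      ρ (φ (ga i)) = 1 ∧ ρ (φ (gb i)) = 1 ∧ ρ (φ (ga j)) ∈ N ∧ ρ (φ (gb j)) ∈ N ∧
      ∀ l : Fin g, l ≠ i → l ≠ j → (l : ℕ) < h → ρ (φ (ga l)) = ρ (ga l) ∧
        ρ (φ (gb l)) = ρ (gb l) := by
    intro ρ' t a b
    obtain ⟨φ, hφ, e⟩ := t.ex
    refine ⟨φ, hφ, ?_, ?_, ?_, ?_, ?_⟩
    · rw [← e, a]
    · rw [← e, b]
    · rw [← e]
      exact (t.inv j hj).1
    · rw [← e]
      exact (t.inv j hj).2
    · intro l h1 h2 _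
      rw [← e, ← e]
      exact t.oth l h1 h2
  by_cases hal : ρ (ga i) ≠ 1 ∨ ρ (gb i) ≠ 1
  · obtain ⟨ρ₁, t1, a1⟩ := aj_of hs hN hρ hc hI hij hj hal
    have hL : Subgroup.normalClosure {ρ₁ (ga j)} = N := by
      have hle : Subgroup.normalClosure {ρ₁ (ga j)} ≤ N := by
        have := hN
        refine Subgroup.normalClosure_le_normal ?_
        rw [Set.singleton_subset_iff]
        exact (t1.inv j hj).1
      refine (hmin _ Subgroup.normalClosure_normal hle).resolve_left (fun h0 => a1 ?_)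
      have : ρ₁ (ga j) ∈ Subgroup.normalClosure {ρ₁ (ga j)} :=
        Subgroup.subset_normalClosure (Set.mem_singleton _)
      rw [h0, Subgroup.mem_bot] at this
      exact this
    have hk : ∀ ρ₂ : F g n →* Q, T N h i j ρ ρ₂ → ρ₂ (ga j) = ρ₁ (ga j) →
        ∃ ρ' : F g n →* Q, T N h i j ρ ρ' ∧ ρ' (ga i) = ρ₂ (ga i) ∧ ρ' (gb i) = 1 ∧
          ρ' (ga j) = ρ₁ (ga j) := by
      intro ρ₂ t2 a2
      have hx : (ρ₂ (gb i))⁻¹ ∈ Subgroup.normalClosure {ρ₁ (ga j)} := by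
        rw [hL]
        exact N.inv_mem (t2.inv i hi).2
      obtain ⟨ρ', h1, h2, h3, h4⟩ := kill hs hN hc hij hj hx ρ₂ (t2.surj hρ) t2.inv a2
      exact ⟨ρ', t2.trans h1, h2, by rw [h3, inv_mul_cancel], h4⟩
    obtain ⟨ρ₂, t2, _, b2, c2⟩ := hk ρ₁ t1 rfl
    obtain ⟨ρ₃, t3, a3, _, c3⟩ := rot (i := i) (j := j) hc t2.inv hne hi hj
    obtain ⟨ρ₄, t4, a4, b4, _⟩ := hk ρ₃ (t2.trans t3) (c3.trans c2)
    exact fin ρ₄ t4 (by rw [a4, a3, b2]) b4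
  · simp only [not_or, not_not] at hal
    exact fin ρ (T.refl hI) hal.1 hal.2

end Pool.Agent.PWB
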