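import Pool.Agent.PWB.KSt
import Pool.Agent.PWM.Block
import Pool.Agent.PW.Central

/-!
# KPush: foot push for a handle of the block whose `a`-letter is central
-/

set_option autoImplicit false

namespace Pool.Agent.PWB

open Pool.Agent.PW Pool.Agent.PWM

namespace KPu

variable {Q : Type*} [Group Q] {g n h : ℕ}

/-- `σ` agrees with `ρ` up to `ρ (ga i)` and the letter `gb i`. -/
structure Ok (ρ σ : F g n →* Q) (h : ℕ) (i : Fin g) : Prop where
  a : σ (ga i) = ρ (ga i)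
  o : ∀ l : Fin g, (l : ℕ) < h → l ≠ i → σ (ga l) = ρ (ga l) ∧ σ (gb l) = ρ (gb l)
  r : ∀ z ∈ Fge g n h, ∃ k : ℤ, σ z = ρ z * ρ (ga i) ^ k

/-- the `a`-letters of the block are central -/
def Cen (ρ : F g n →* Q) (h : ℕ) : Prop :=
  ∀ l : Fin g, (l : ℕ) < h → ∀ q : Q, Commute (ρ (ga l)) q

theorem cm_one {G : Type*} [Group G] {x y : G} (hc : Commute x y) : cm x y = 1 := by
  unfold cm
  rw [hc.eq]
  group

theorem seg_one_of (σ : F g n →* Q) (s : ℕ) : ∀ m : ℕ,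
    (∀ l : Fin g, s ≤ (l : ℕ) → (l : ℕ) < s + m → σ (cm (ga l) (gb l)) = 1) →
    σ (seg g n s m) = 1 := by
  intro m
  induction m with
  | zero =>
    intro _
    rw [seg_zero, map_one]
  | succ m ih =>
    intro hh
    rw [seg_add, map_mul, ih (fun l h1 h2 => hh l h1 (by omega)), one_mul, seg_one]
    by_cases hm : s + m < g
    · have h4 : PW.hd g n (s + m) = cm (ga ⟨s + m, hm⟩) (gb ⟨s + m, hm⟩) := hd_fin ⟨s + m, hm⟩
      rw [h4]
      exact hh ⟨s + m, hm⟩ (by simp) (by simp)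
    · simp only [PW.hd, hm, dif_neg, not_false_iff, map_one]

theorem seg_block (σ : F g n →* Q) {i : Fin g} {j : ℕ} (hih : (i : ℕ) < h) (hj : h ≤ j)
    (hc : ∀ l : Fin g, (i : ℕ) < l → (l : ℕ) < h → ∀ q : Q, Commute (σ (ga l)) q) :
    σ (seg g n (i + 1) (j - i - 1)) = σ (seg g n h (j - h)) := by
  have e1 : j - i - 1 = (h - i - 1) + (j - h) := by omega
  have e2 : (i : ℕ) + 1 + (h - i - 1) = h := by omega
  rw [e1, seg_add, e2, map_mul, seg_one_of, one_mul]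
  intro l h1 h2
  rw [map_cm]
  exact cm_one (hc l (by omega) (by omega) _)

theorem seg_block' (σ : F g n →* Q) {i : Fin g} (hih : (i : ℕ) < h)
    (hc : ∀ l : Fin g, (i : ℕ) < l → (l : ℕ) < h → ∀ q : Q, Commute (σ (ga l)) q) :
    σ (seg g n (i + 1) (g - i - 1)) = σ (seg g n h (g - h)) := by
  by_cases hg : h ≤ g
  · exact seg_block σ hih hg hc
  · have e : g - h = 0 := by omega
    rw [e, seg_zero, map_one]
    apply seg_one_of
    intro l h1 h2
    rw [map_cm]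
    exact cm_one (hc l (by omega) (by omega) _)

/-- the word from the block to the handle `j` -/
def so (g n h : ℕ) (j : ℕ) : F g n := seg g n h (j - h)

theorem so_mem (j : ℕ) : so g n h j ∈ Fge g n h :=
  seg_mem fun _ h1 _ => ⟨Fge_a h1, Fge_b h1⟩

/-- the word from the block to the marked point `j` -/
def co (g n h : ℕ) (j : ℕ) : F g n := seg g n h (g - h) * cseg g n 0 j

theorem co_mem (j : ℕ) : co g n h j ∈ Fge g n h :=
  Subgroup.mul_mem _ (seg_mem fun _ h1 _ => ⟨Fge_a h1, Fge_b h1⟩) (cseg_mem fun _ _ _ => Fge_c _)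

theorem r_of {ρ σ : F g n →* Q} {α : Q} (hα : ∀ q, Commute α q)
    (ha : ∀ l : Fin g, h ≤ (l : ℕ) → ∃ k : ℤ, σ (ga l) = ρ (ga l) * α ^ k)
    (hb : ∀ l : Fin g, h ≤ (l : ℕ) → ∃ k : ℤ, σ (gb l) = ρ (gb l) * α ^ k)
    (hc : ∀ l : Fin n, ∃ k : ℤ, σ (gc l) = ρ (gc l) * α ^ k) :
    ∀ z ∈ Fge g n h, ∃ k : ℤ, σ z = ρ z * α ^ k := by
  intro z hz
  unfold Fge at hz
  induction hz using Subgroup.closure_induction with
  | mem x hx =>
    rcases hx with ⟨l, hl, rfl | rfl⟩ | ⟨l, rfl⟩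
    · exact ha l hl
    · exact hb l hl
    · exact hc l
  | one => exact ⟨0, by simp⟩
  | mul x y _ _ h1 h2 =>
    obtain ⟨k, hk⟩ := h1
    obtain ⟨l, hl⟩ := h2
    refine ⟨k + l, ?_⟩
    rw [map_mul, map_mul, hk, hl, zpow_add, mul_assoc (ρ x), mul_assoc (ρ x),
      ← mul_assoc (α ^ k), ((hα (ρ y)).zpow_left k).eq]
    group
  | inv x _ h1 =>
    obtain ⟨k, hk⟩ := h1
    refine ⟨-k, ?_⟩
    rw [map_inv, map_inv, hk, mul_inv_rev, ← zpow_neg]
    exact ((hα (ρ x)⁻¹).zpow_left (-k)).eq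

theorem Ok.refl (ρ : F g n →* Q) (i : Fin g) : Ok ρ ρ h i :=
  ⟨rfl, fun _ _ _ => ⟨rfl, rfl⟩, fun z _ => ⟨0, by simp⟩⟩

theorem Ok.cen {ρ σ : F g n →* Q} {i : Fin g} (hi : (i : ℕ) < h) (hc : Cen ρ h)
    (hσ : Ok ρ σ h i) : Cen σ h := by
  intro l hl q
  by_cases hli : l = i
  · rw [hli, hσ.a]
    exact hc i hi q
  · rw [(hσ.o l hl hli).1]
    exact hc l hl q

/-- the push -/
theorem push_a {ρ σ : F g n →* Q} {i j : Fin g} (hi : (i : ℕ) < h) (hij : (i : ℕ) < j)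
    (hj : h ≤ (j : ℕ)) (hc : Cen ρ h) (hσ : Ok ρ σ h i) :
    Ok ρ (σ.comp (psh i j hij 1).toMonoidHom) h i ∧
      ∃ k : ℤ, σ (psh i j hij 1 (gb i)) =
        ρ (so g n h j * ga j * (so g n h j)⁻¹) * σ (gb i) * ρ (ga i) ^ k := by
  have hcσ := hσ.cen hi hc
  have hα : ∀ q, Commute (σ (ga i)) q := hcσ i hi
  have hmid : σ (mid g n i j) = σ (so g n h j) := by
    unfold mid so
    exact seg_block σ hi hj fun l _ h2 q => hcσ l h2 q
  have hpw : σ (pw i j) = σ (sw i j) * (σ (ga i))⁻¹ := by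
    unfold pw
    rw [map_mul, map_mul, map_mul, map_inv, map_inv, ((hα (σ (gb i))).inv_left).eq.symm,
      mul_assoc (σ (ga i))⁻¹, mul_inv_cancel, mul_one, ((hα (σ (sw i j))).inv_left).eq]
  have haj : σ (ph i j 1 (ga j)) = σ (ga j) := by
    rw [ph_aj]
    simp only [map_mul, map_inv, zpow_one, zpow_neg_one]
    rw [hpw]
    have e1 : σ (sw i j) * (σ (ga i))⁻¹ * σ (sw i j) * (σ (sw i j) * (σ (ga i))⁻¹)⁻¹ =
        σ (sw i j) := by
      rw [mul_assoc (σ (sw i j)) (σ (ga i))⁻¹ (σ (sw i j)),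
        ((hα (σ (sw i j))).inv_left).eq]
      group
    rw [e1]
    unfold sw
    rw [map_mul, map_mul, map_inv]
    group
  have hbj : σ (ph i j 1 (gb j)) = σ (gb j) * σ (ga i) := by
    rw [ph_bj hij]
    simp only [map_mul, map_inv, zpow_one, zpow_neg_one]
    rw [hpw]
    have e1 : σ (tw i j) * σ (sw i j) * (σ (sw i j) * (σ (ga i))⁻¹)⁻¹ =
        σ (tw i j) * σ (ga i) := by
      rw [mul_inv_rev, inv_inv, (hα (σ (sw i j))⁻¹).eq]
      group
    rw [e1]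
    unfold tw
    rw [map_mul, map_mul, map_inv]
    have e2 : (σ (mid g n i j))⁻¹ * (σ (mid g n i j) * σ (gb j) * (σ (mid g n i j))⁻¹ *
        σ (ga i)) * σ (mid g n i j) =
        σ (gb j) * ((σ (mid g n i j))⁻¹ * (σ (ga i) * σ (mid g n i j))) := by group
    rw [e2, (hα (σ (mid g n i j))).eq]
    group
  refine ⟨⟨?_, ?_, ?_⟩, ?_⟩
  · show σ (psh i j hij 1 (ga i)) = _
    rw [psh_apply, ph_ai hij]
    exact hσ.a
  · intro l hl hli
    have hlj : l ≠ j := by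
      rintro rfl
      omega
    show σ (psh i j hij 1 (ga l)) = _ ∧ σ (psh i j hij 1 (gb l)) = _
    rw [psh_apply, psh_apply, ph_a' hlj, ph_b' hli hlj]
    exact hσ.o l hl hli
  · refine r_of (hc i hi) (fun l hl => ?_) (fun l hl => ?_) (fun l => ?_)
    · show ∃ k : ℤ, σ (psh i j hij 1 (ga l)) = _
      rw [psh_apply]
      by_cases hlj : l = j
      · rw [hlj, haj]
        exact hσ.r _ (Fge_a hj)
      · rw [ph_a' hlj]
        exact hσ.r _ (Fge_a hl)
    · show ∃ k : ℤ, σ (psh i j hij 1 (gb l)) = _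
      rw [psh_apply]
      by_cases hlj : l = j
      · rw [hlj, hbj, hσ.a]
        obtain ⟨k, hk⟩ := hσ.r _ (Fge_b hj)
        exact ⟨k + 1, by rw [hk, zpow_add_one, mul_assoc]⟩
      · have hli : l ≠ i := by
          rintro rfl
          omega
        rw [ph_b' hli hlj]
        exact hσ.r _ (Fge_b hl)
    · show ∃ k : ℤ, σ (psh i j hij 1 (gc l)) = _
      rw [psh_apply, ph_c]
      exact hσ.r _ (Fge_c l)
  · obtain ⟨k, hk⟩ := hσ.r (so g n h j * ga j * (so g n h j)⁻¹)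
      (Subgroup.mul_mem _ (Subgroup.mul_mem _ (so_mem _) (Fge_a hj))
        (Subgroup.inv_mem _ (so_mem _)))
    refine ⟨k - 1, ?_⟩
    rw [psh_apply, ph_bi, zpow_one, map_mul, hpw]
    have e1 : σ (sw i j) = σ (so g n h j * ga j * (so g n h j)⁻¹) := by
      unfold sw
      rw [map_mul, map_mul, map_inv, map_mul, map_mul, map_inv, hmid]
    rw [e1, hk, hσ.a, mul_assoc _ (ρ (ga i) ^ k) (ρ (ga i))⁻¹, ← zpow_sub_one, mul_assoc _ _
      (σ (gb i)), ((hc i hi (σ (gb i))).zpow_left (k - 1)).eq]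
    exact (mul_assoc _ _ _).symm

theorem push_c {ρ σ : F g n →* Q} {i : Fin g} (j : Fin n) (hi : (i : ℕ) < h)
    (hc : Cen ρ h) (hσ : Ok ρ σ h i) :
    Ok ρ (σ.comp (qsh i j 1).toMonoidHom) h i ∧
      ∃ k : ℤ, σ (qsh i j 1 (gb i)) =
        ρ (co g n h j * gc j * (co g n h j)⁻¹) * σ (gb i) * ρ (ga i) ^ k := by
  have hcσ := hσ.cen hi hc
  have hα : ∀ q, Commute (σ (ga i)) q := hcσ i hi
  have hmid : σ (midc g n i j) = σ (co g n h j) := by
    unfold midc co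
    rw [map_mul, map_mul, seg_block' σ hi fun l _ h2 q => hcσ l h2 q]
  have hpw : σ (qw i j) = σ (sc i j) * (σ (ga i))⁻¹ := by
    unfold qw
    rw [map_mul, map_mul, map_mul, map_inv, map_inv, ((hα (σ (gb i))).inv_left).eq.symm,
      mul_assoc (σ (ga i))⁻¹, mul_inv_cancel, mul_one, ((hα (σ (sc i j))).inv_left).eq]
  have hcj : σ (qh i j 1 (gc j)) = σ (gc j) := by
    rw [qh_cj]
    simp only [map_mul, map_inv, zpow_one, zpow_neg_one]
    rw [hpw]
    have e1 : σ (sc i j) * (σ (ga i))⁻¹ * σ (sc i j) * (σ (sc i j) * (σ (ga i))⁻¹)⁻¹ =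
        σ (sc i j) := by
      rw [mul_assoc (σ (sc i j)) (σ (ga i))⁻¹ (σ (sc i j)),
        ((hα (σ (sc i j))).inv_left).eq]
      group
    rw [e1]
    unfold sc
    rw [map_mul, map_mul, map_inv]
    group
  refine ⟨⟨?_, ?_, ?_⟩, ?_⟩
  · show σ (qsh i j 1 (ga i)) = _
    rw [qsh_apply, qh_a]
    exact hσ.a
  · intro l hl hli
    show σ (qsh i j 1 (ga l)) = _ ∧ σ (qsh i j 1 (gb l)) = _
    rw [qsh_apply, qsh_apply, qh_a, qh_b' hli]
    exact hσ.o l hl hli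
  · refine r_of (hc i hi) (fun l hl => ?_) (fun l hl => ?_) (fun l => ?_)
    · show ∃ k : ℤ, σ (qsh i j 1 (ga l)) = _
      rw [qsh_apply, qh_a]
      exact hσ.r _ (Fge_a hl)
    · show ∃ k : ℤ, σ (qsh i j 1 (gb l)) = _
      have hli : l ≠ i := by
        rintro rfl
        omega
      rw [qsh_apply, qh_b' hli]
      exact hσ.r _ (Fge_b hl)
    · show ∃ k : ℤ, σ (qsh i j 1 (gc l)) = _
      rw [qsh_apply]
      by_cases hlj : l = j
      · rw [hlj, hcj]
        exact hσ.r _ (Fge_c j)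
      · rw [qh_c' hlj]
        exact hσ.r _ (Fge_c l)
  · obtain ⟨k, hk⟩ := hσ.r (co g n h j * gc j * (co g n h j)⁻¹)
      (Subgroup.mul_mem _ (Subgroup.mul_mem _ (co_mem _) (Fge_c j))
        (Subgroup.inv_mem _ (co_mem _)))
    refine ⟨k - 1, ?_⟩
    rw [qsh_apply, qh_bi, zpow_one, map_mul, hpw]
    have e1 : σ (sc i j) = σ (co g n h j * gc j * (co g n h j)⁻¹) := by
      unfold sc
      rw [map_mul, map_mul, map_inv, map_mul, map_mul, map_inv, hmid]
    rw [e1, hk, hσ.a, mul_assoc _ (ρ (ga i) ^ k) (ρ (ga i))⁻¹, ← zpow_sub_one, mul_assoc _ _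
      (σ (gb i)), ((hc i hi (σ (gb i))).zpow_left (k - 1)).eq]
    exact (mul_assoc _ _ _).symm

/-- an automorphism which fixes the block -/
theorem Ok.comp {ρ σ : F g n →* Q} {i : Fin g} (hi : (i : ℕ) < h) (hσ : Ok ρ σ h i)
    (r : MulAut (F g n)) (h1 : ∀ l : Fin g, (l : ℕ) < h → r (ga l) = ga l ∧ r (gb l) = gb l)
    (h2 : ∀ z ∈ Fge g n h, r z ∈ Fge g n h) :
    Ok (ρ.comp r.toMonoidHom) (σ.comp r.toMonoidHom) h i := by
  refine ⟨?_, ?_, ?_⟩
  · show σ (r (ga i)) = ρ (r (ga i))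
    rw [(h1 i hi).1]
    exact hσ.a
  · intro l hl hli
    show σ (r (ga l)) = ρ (r (ga l)) ∧ σ (r (gb l)) = ρ (r (gb l))
    rw [(h1 l hl).1, (h1 l hl).2]
    exact hσ.o l hl hli
  · intro z hz
    show ∃ k : ℤ, σ (r z) = ρ (r z) * ρ (r (ga i)) ^ k
    rw [(h1 i hi).1]
    exact hσ.r _ (h2 z hz)

theorem e2_Fge (j : Fin g) (hj : h ≤ (j : ℕ)) (k : ℤ) : ∀ z ∈ Fge g n h,
    e2 j k z ∈ Fge g n h := by
  intro z hz
  unfold Fge at hz
  induction hz using Subgroup.closure_induction with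
  | mem x hx =>
    rcases hx with ⟨l, hl, rfl | rfl⟩ | ⟨l, rfl⟩
    · rw [e2_apply]
      by_cases hlj : l = j
      · rw [hlj, e2h_a]
        exact Subgroup.mul_mem _ (Fge_a hj) (Subgroup.zpow_mem _ (Fge_b hj) k)
      · rw [e2h_a' hlj]
        exact Fge_a hl
    · rw [e2_apply, e2h_b]
      exact Fge_b hl
    · rw [e2_apply, e2h_c]
      exact Fge_c l
  | one =>
    rw [map_one]
    exact Subgroup.one_mem _
  | mul x y _ _ h1 h2 =>
    rw [map_mul]
    exact Subgroup.mul_mem _ h1 h2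
  | inv x _ h1 =>
    rw [map_inv]
    exact Subgroup.inv_mem _ h1

theorem e2_blk (j : Fin g) (hj : h ≤ (j : ℕ)) (k : ℤ) (l : Fin g) (hl : (l : ℕ) < h) :
    e2 (n := n) j k (ga l) = ga l ∧ e2 (n := n) j k (gb l) = gb l := by
  have hlj : l ≠ j := by
    rintro rfl
    omega
  rw [e2_apply, e2_apply, e2h_a' hlj, e2h_b]
  exact ⟨rfl, rfl⟩

/-- the subgroup of the values -/
def RR (ρ : F g n →* Q) (h : ℕ) (i : Fin g) (q : Q) : Prop :=
  ∀ σ : F g n →* Q, Ok ρ σ h i → ∃ φ ∈ MCG g n, Ok ρ (σ.comp φ.toMonoidHom) h i ∧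
    ∃ k : ℤ, σ (φ (gb i)) = q * σ (gb i) * ρ (ga i) ^ k

theorem RR.one (ρ : F g n →* Q) (i : Fin g) : RR ρ h i 1 := by
  intro σ hσ
  exact ⟨1, Subgroup.one_mem _, hσ, 0, by simp⟩

theorem RR.mul {ρ : F g n →* Q} {i : Fin g} {q q' : Q} (h1 : RR ρ h i q) (h2 : RR ρ h i q') :
    RR ρ h i (q * q') := by
  intro σ hσ
  obtain ⟨φ, hφ, hφo, k, hk⟩ := h2 σ hσ
  obtain ⟨ψ, hψ, hψo, l, hl⟩ := h1 _ hφo
  refine ⟨φ * ψ, Subgroup.mul_mem _ hφ hψ, hψo, k + l, ?_⟩
  have e1 : σ ((φ * ψ) (gb i)) = (σ.comp φ.toMonoidHom) (ψ (gb i)) := rfl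
  have e2 : (σ.comp φ.toMonoidHom) (gb i) = σ (φ (gb i)) := rfl
  rw [e1, hl, e2, hk, zpow_add]
  group

theorem RR.inv [Finite Q] {ρ : F g n →* Q} {i : Fin g} {q : Q} (h1 : RR ρ h i q) :
    RR ρ h i q⁻¹ := by
  have hp : ∀ m : ℕ, RR ρ h i (q ^ m) := by
    intro m
    induction m with
    | zero =>
      rw [pow_zero]
      exact RR.one ρ i
    | succ m ih =>
      rw [pow_succ]
      exact ih.mul h1
  have h2 : q⁻¹ = q ^ (orderOf q - 1) := by
    have h3 : 0 < orderOf q := orderOf_pos q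
    rw [inv_eq_iff_mul_eq_one, ← pow_succ']
    have h4 : orderOf q - 1 + 1 = orderOf q := by omega
    rw [h4, pow_orderOf_eq_one]
  rw [h2]
  exact hp _

theorem RR.e2 {ρ : F g n →* Q} {i j : Fin g} (hi : (i : ℕ) < h) (hij : (i : ℕ) < j)
    (hj : h ≤ (j : ℕ)) (hc : Cen ρ h) :
    RR ρ h i (ρ (so g n h j * (ga j * gb j) * (so g n h j)⁻¹)) := by
  intro σ hσ
  have h1 := hσ.comp hi (PW.e2 j 1) (e2_blk j hj 1) (e2_Fge j hj 1)
  have hc1 : Cen (ρ.comp (PW.e2 (n := n) j 1).toMonoidHom) h := by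
    intro l hl q
    show Commute (ρ (PW.e2 j 1 (ga l))) q
    rw [(e2_blk j hj 1 l hl).1]
    exact hc l hl q
  obtain ⟨h2, k, hk⟩ := push_a hi hij hj hc1 h1
  have h3 := h2.comp hi (PW.e2 j (-1)) (e2_blk j hj (-1)) (e2_Fge j hj (-1))
  have hinv : (PW.e2 (n := n) j 1) * (PW.e2 j (-1)) = 1 := by
    apply MulEquiv.ext
    intro x
    rw [MulAut.mul_apply, e2_apply, e2_apply, ← MonoidHom.comp_apply, e2h_comp]
    norm_num
    rw [e2h_zero]
    rfl
  have hρ : (ρ.comp (PW.e2 (n := n) j 1).toMonoidHom).comp (PW.e2 j (-1)).toMonoidHom = ρ := by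
    apply MonoidHom.ext
    intro x
    show ρ ((PW.e2 (n := n) j 1 * PW.e2 j (-1) : MulAut (F g n)) x) = ρ x
    rw [hinv]
    rfl
  rw [hρ] at h3
  refine ⟨PW.e2 j 1 * psh i j hij 1 * PW.e2 j (-1), Subgroup.mul_mem _ (Subgroup.mul_mem _
    (e2_mem j 1) (psh_mem hij 1)) (e2_mem j (-1)), h3, k, ?_⟩
  have e1 : (PW.e2 (n := n) j (-1)) (gb i) = gb i := by
    rw [e2_apply, e2h_b]
  have e2 : (PW.e2 (n := n) j 1) (gb i) = gb i := by
    rw [e2_apply, e2h_b]
  rw [MulAut.mul_apply, e1, MulAut.mul_apply]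
  have e3 : (ρ.comp (PW.e2 (n := n) j 1).toMonoidHom) (ga i) = ρ (ga i) := by
    show ρ (PW.e2 j 1 (ga i)) = ρ (ga i)
    rw [(e2_blk j hj 1 i hi).1]
  have e4 : (σ.comp (PW.e2 (n := n) j 1).toMonoidHom) (gb i) = σ (gb i) := by
    show σ (PW.e2 j 1 (gb i)) = σ (gb i)
    rw [e2]
  have e5 : (PW.e2 (n := n) j 1) (so g n h j * ga j * (so g n h j)⁻¹) =
      so g n h j * (ga j * gb j) * (so g n h j)⁻¹ := by
    have e6 : (PW.e2 (n := n) j 1) (so g n h j) = so g n h j := by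
      unfold so
      rw [e2_apply]
      apply seg_congr (ψ := MonoidHom.id _)
      intro l h1 h2
      have hlj : l ≠ j := by
        rintro rfl
        omega
      exact ⟨e2h_a' hlj _, e2h_b _ _ _⟩
    rw [map_mul, map_mul, map_inv, e6, e2_apply, e2h_a, zpow_one]
  have e7 : (ρ.comp (PW.e2 (n := n) j 1).toMonoidHom) (so g n h j * ga j * (so g n h j)⁻¹) =
      ρ (so g n h j * (ga j * gb j) * (so g n h j)⁻¹) := by
    show ρ ((PW.e2 (n := n) j 1) (so g n h j * ga j * (so g n h j)⁻¹)) = _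
    rw [e5]
  rw [e3, e4, e7] at hk
  exact hk

end KPu

open KPu in
theorem st_KPush : St_KPush := by
  intro Q _ _ g n h ρ N hN hInv i hi y hy
  have hc : Cen ρ h := fun l hl q => hN _ (hInv l hl).1 q
  let E : Subgroup Q :=
    { carrier := {q | RR ρ h i q}
      one_mem' := RR.one ρ i
      mul_mem' := fun h1 h2 => RR.mul h1 h2
      inv_mem' := fun h1 => RR.inv h1 }
  have hEm : ∀ q, q ∈ E ↔ RR ρ h i q := fun q => Iff.rfl
  have hstep : ∀ j : Fin g, h ≤ (j : ℕ) → ρ (so g n h j) ∈ E → ρ (ga j) ∈ E ∧ ρ (gb j) ∈ E := by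
    intro j hj hs
    have hij : (i : ℕ) < j := by omega
    have h1 : ρ (so g n h j * ga j * (so g n h j)⁻¹) ∈ E := by
      intro σ hσ
      obtain ⟨h2, h3⟩ := push_a hi hij hj hc hσ
      exact ⟨_, psh_mem hij 1, h2, h3⟩
    have h2 : ρ (so g n h j * (ga j * gb j) * (so g n h j)⁻¹) ∈ E := RR.e2 hi hij hj hc
    rw [map_mul, map_mul, map_inv] at h1 h2
    have h3 := E.mul_mem (E.mul_mem (E.inv_mem hs) h1) hs
    have e3 : (ρ (so g n h j))⁻¹ * (ρ (so g n h j) * ρ (ga j) * (ρ (so g n h j))⁻¹) *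
        ρ (so g n h j) = ρ (ga j) := by group
    rw [e3] at h3
    have h4 := E.mul_mem (E.mul_mem (E.inv_mem hs) h2) hs
    have e4 : (ρ (so g n h j))⁻¹ * (ρ (so g n h j) * ρ (ga j * gb j) * (ρ (so g n h j))⁻¹) *
        ρ (so g n h j) = ρ (ga j) * ρ (gb j) := by
      rw [map_mul]
      group
    rw [e4] at h4
    refine ⟨h3, ?_⟩
    have h5 := E.mul_mem (E.inv_mem h3) h4
    rwa [inv_mul_cancel_left] at h5
  have hseg : ∀ m, ρ (seg g n h m) ∈ E := by
    intro m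
    induction m with
    | zero =>
      rw [seg_zero, map_one]
      exact E.one_mem
    | succ m ih =>
      rw [seg_add, seg_one, map_mul]
      apply E.mul_mem ih
      by_cases hm : h + m < g
      · have h3 := hstep ⟨h + m, hm⟩ (by simp) (by
          have : so g n h ((⟨h + m, hm⟩ : Fin g) : ℕ) = seg g n h m := by
            unfold so
            simp
          rw [this]
          exact ih)
        have h4 : PW.hd g n (h + m) = cm (ga ⟨h + m, hm⟩) (gb ⟨h + m, hm⟩) := hd_fin ⟨h + m, hm⟩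
        rw [h4, map_cm]
        exact E.mul_mem (E.mul_mem (E.mul_mem h3.1 h3.2) (E.inv_mem h3.1)) (E.inv_mem h3.2)
      · simp only [PW.hd, hm, dif_neg, not_false_iff, map_one]
        exact E.one_mem
  have hstepc : ∀ j : Fin n, ρ (cseg g n 0 j) ∈ E → ρ (gc j) ∈ E := by
    intro j hs
    have h1 : ρ (co g n h j * gc j * (co g n h j)⁻¹) ∈ E := by
      intro σ hσ
      obtain ⟨h2, h3⟩ := push_c j hi hc hσ
      exact ⟨_, qsh_mem 1, h2, h3⟩
    have h2 : ρ (co g n h j) ∈ E := by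
      unfold co
      rw [map_mul]
      exact E.mul_mem (hseg _) hs
    rw [map_mul, map_mul, map_inv] at h1
    have h3 := E.mul_mem (E.mul_mem (E.inv_mem h2) h1) h2
    have e3 : (ρ (co g n h j))⁻¹ * (ρ (co g n h j) * ρ (gc j) * (ρ (co g n h j))⁻¹) *
        ρ (co g n h j) = ρ (gc j) := by group
    rwa [e3] at h3
  have hcseg : ∀ m, ρ (cseg g n 0 m) ∈ E := by
    intro m
    induction m with
    | zero =>
      rw [cseg_zero, map_one]
      exact E.one_mem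
    | succ m ih =>
      rw [cseg_add, cseg_one, map_mul]
      apply E.mul_mem ih
      rw [Nat.zero_add]
      by_cases hm : m < n
      · have h4 : pc g n m = gc ⟨m, hm⟩ := pc_fin ⟨m, hm⟩
        rw [h4]
        exact hstepc ⟨m, hm⟩ ih
      · simp only [pc, hm, dif_neg, not_false_iff, map_one]
        exact E.one_mem
  have hall : ∀ z ∈ Fge g n h, ρ z ∈ E := by
    intro z hz
    unfold Fge at hz
    induction hz using Subgroup.closure_induction with
    | mem x hx =>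
      rcases hx with ⟨l, hl, rfl | rfl⟩ | ⟨l, rfl⟩
      · exact (hstep l hl (hseg _)).1
      · exact (hstep l hl (hseg _)).2
      · exact hstepc l (hcseg _)
    | one =>
      rw [map_one]
      exact E.one_mem
    | mul x y _ _ h1 h2 =>
      rw [map_mul]
      exact E.mul_mem h1 h2
    | inv x _ h1 =>
      rw [map_inv]
      exact E.inv_mem h1
  obtain ⟨φ, hφ, hφo, k, hk⟩ := hall y hy ρ (Ok.refl ρ i)
  exact ⟨φ, hφ, hφo.a, ⟨k, hk⟩, hφo.o, hφo.r⟩

end Pool.Agent.PWB
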