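import Pool.Agent.PWB.KSt

/-!
# Slides of handles in a commutative normal subgroup
-/

namespace Pool.Agent.PWB

open Pool.Agent.PW Pool.Agent.PWM

section

variable {Q : Type*} [Group Q] {g n h : ℕ}

/-- Handles in a commutative subgroup have trivial boundary. -/
theorem seg_to_one {ρ : F g n →* Q} {N : Subgroup Q} (hN : ∀ x ∈ N, ∀ y ∈ N, x * y = y * x)
    {s m : ℕ} (hI : ∀ i : Fin g, s ≤ i → (i : ℕ) < s + m → ρ (ga i) ∈ N ∧ ρ (gb i) ∈ N) :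
    ρ (seg g n s m) = 1 := by
  unfold seg
  rw [map_list_prod, List.map_map]
  apply List.prod_eq_one
  intro x hx
  rw [List.mem_map] at hx
  obtain ⟨k, hk, rfl⟩ := hx
  rw [List.mem_range'_1] at hk
  simp only [Function.comp]
  by_cases hkg : k < g
  · have := hI ⟨k, hkg⟩ hk.1 hk.2
    simp only [hd, hkg, dif_pos, cm]
    rw [map_mul, map_mul, map_mul, map_inv, map_inv, hN _ this.1 _ this.2]
    group
  · simp [hd, hkg]

theorem mid_to_one {ρ : F g n →* Q} {N : Subgroup Q} (hN : ∀ x ∈ N, ∀ y ∈ N, x * y = y * x)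
    (hI : Inv h N ρ) {i j : Fin g} (hj : (j : ℕ) < h) :
    ρ (mid g n i j) = 1 := by
  unfold mid
  apply seg_to_one hN
  intro l h1 h2
  exact hI l (by omega)

/-- The slide with `q = 1`. -/
theorem slide_one {ρ : F g n →* Q} {N : Subgroup Q} (hN : ∀ x ∈ N, ∀ y ∈ N, x * y = y * x)
    (hI : Inv h N ρ) {i j : Fin g} (hij : (i : ℕ) < j) (hj : (j : ℕ) < h) (k : ℤ) :
    ∃ φ ∈ MCG g n,
      ρ (φ (ga i)) = ρ (ga i) ∧ ρ (φ (gb i)) = ρ (ga j) ^ k * ρ (gb i) ∧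
      ρ (φ (ga j)) = ρ (ga j) ∧ ρ (φ (gb j)) = ρ (ga i) ^ k * ρ (gb j) ∧
      ∀ l : Fin g, l ≠ i → l ≠ j → ρ (φ (ga l)) = ρ (ga l) ∧ ρ (φ (gb l)) = ρ (gb l) := by
  have hne : j ≠ i := by
    rintro rfl
    exact lt_irrefl _ hij
  obtain ⟨hai, hbi⟩ := hI i (lt_trans hij hj)
  obtain ⟨haj, hbj⟩ := hI j hj
  have hmid : ρ (mid g n i j) = 1 := mid_to_one hN hI hj
  have hsw : ρ (sw i j) = ρ (ga j) := by
    rw [sw, map_mul, map_mul, map_inv, hmid]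
    group
  have htw : ρ (tw i j) = ρ (gb j) := by
    rw [tw, map_mul, map_mul, map_inv, hmid]
    group
  have hpw : ρ (pw i j) = (ρ (ga i))⁻¹ * ρ (ga j) := by
    rw [pw, map_mul, map_mul, map_mul, map_inv, map_inv, hsw,
      hN _ hbi _ (N.inv_mem hai)]
    group
  have hpwk : ρ (pw i j) ^ k = (ρ (ga i) ^ k)⁻¹ * ρ (ga j) ^ k := by
    rw [hpw, Commute.mul_zpow (hN _ (N.inv_mem hai) _ haj), inv_zpow]
  refine ⟨psh i j hij k * e1 i k, (MCG g n).mul_mem (psh_mem hij k) (e1_mem i k), ?_, ?_, ?_, ?_,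
    ?_⟩
  · rw [MulAut.mul_apply, e1_apply, e1h_a, psh_apply, ph_ai hij]
  · rw [MulAut.mul_apply, e1_apply, e1h_b, psh_apply, map_mul, map_zpow, ph_bi, ph_ai hij, map_mul,
      map_mul, map_zpow, map_zpow, hpwk]
    have c1 := hN _ hbi _ (N.zpow_mem hai k)
    have c2 := hN _ (N.mul_mem (N.zpow_mem haj k) hbi) _ (N.zpow_mem hai k)
    calc (ρ (ga i) ^ k)⁻¹ * ρ (ga j) ^ k * ρ (gb i) * ρ (ga i) ^ k
        = (ρ (ga i) ^ k)⁻¹ * (ρ (ga j) ^ k * ρ (gb i) * ρ (ga i) ^ k) := by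
          simp only [mul_assoc]
      _ = (ρ (ga i) ^ k)⁻¹ * (ρ (ga i) ^ k * (ρ (ga j) ^ k * ρ (gb i))) := by rw [c2]
      _ = ρ (ga j) ^ k * ρ (gb i) := by rw [inv_mul_cancel_left]
  · rw [MulAut.mul_apply, e1_apply, e1h_a, psh_apply, ph_aj]
    simp only [map_mul, map_inv, map_zpow, hmid, hsw, zpow_neg]
    have hp : ρ (pw i j) ∈ N := by
      rw [hpw]
      exact N.mul_mem (N.inv_mem hai) haj
    rw [hN _ (N.zpow_mem hp k) _ haj]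
    group
  · rw [MulAut.mul_apply, e1_apply, e1h_b' hne, psh_apply, ph_bj hij]
    simp only [map_mul, map_inv, map_zpow, hmid, hsw, htw, zpow_neg, hpwk]
    have c := hN _ (N.zpow_mem hai k) _ hbj
    rw [c]
    group
  · intro l hli hlj
    constructor
    · rw [MulAut.mul_apply, e1_apply, e1h_a, psh_apply, ph_a' hlj]
    · rw [MulAut.mul_apply, e1_apply, e1h_b' hli, psh_apply, ph_b' hli hlj]

end

theorem st_KSlide (hc : St_KConj) : St_KSlide := by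
  intro Q _ _ g n h ρ N hNn hρ hN hI i j hij hj q k
  have hne : j ≠ i := by
    rintro rfl
    exact lt_irrefl _ hij
  have hi : (i : ℕ) < h := lt_trans hij hj
  -- conjugate the handle `i`
  obtain ⟨φ₁, m1, a1, b1, c1⟩ := hc ρ N hNn hρ hN hI i hi q⁻¹
  rw [inv_inv] at a1 b1
  obtain ⟨ρ₁, hρ₁⟩ : ∃ ρ₁ : F g n →* Q, ∀ x, ρ₁ x = ρ (φ₁ x) :=
    ⟨ρ.comp (MulEquiv.toMonoidHom φ₁), fun _ => rfl⟩
  have s1 : Function.Surjective ρ₁ := by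
    intro y
    obtain ⟨x, hx⟩ := hρ y
    obtain ⟨z, hz⟩ := (φ₁ : F g n ≃* F g n).surjective x
    exact ⟨z, by rw [hρ₁, ← hx, ← hz]⟩
  have I1 : Inv h N ρ₁ := by
    intro l hl
    obtain ⟨u, v⟩ := hI l hl
    by_cases hli : l = i
    · subst hli
      rw [hρ₁, hρ₁, a1, b1]
      have t1 := hNn.conj_mem _ u q⁻¹
      have t2 := hNn.conj_mem _ v q⁻¹
      rw [inv_inv] at t1 t2
      exact ⟨t1, t2⟩
    · rw [hρ₁, hρ₁, (c1 l hli).1, (c1 l hli).2]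
      exact ⟨u, v⟩
  -- slide
  obtain ⟨φ₂, m2, a2, b2, a2', b2', c2⟩ := slide_one hN I1 hij hj k
  obtain ⟨ρ₂, hρ₂⟩ : ∃ ρ₂ : F g n →* Q, ∀ x, ρ₂ x = ρ₁ (φ₂ x) :=
    ⟨ρ₁.comp (MulEquiv.toMonoidHom φ₂), fun _ => rfl⟩
  have s2 : Function.Surjective ρ₂ := by
    intro y
    obtain ⟨x, hx⟩ := s1 y
    obtain ⟨z, hz⟩ := (φ₂ : F g n ≃* F g n).surjective x
    exact ⟨z, by rw [hρ₂, ← hx, ← hz]⟩
  have I2 : Inv h N ρ₂ := by
    intro l hl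
    obtain ⟨u, v⟩ := I1 l hl
    by_cases hli : l = i
    · subst hli
      rw [hρ₂, hρ₂, a2, b2]
      exact ⟨u, N.mul_mem (N.zpow_mem (I1 j hj).1 k) v⟩
    · by_cases hlj : l = j
      · subst hlj
        rw [hρ₂, hρ₂, a2', b2']
        exact ⟨u, N.mul_mem (N.zpow_mem (I1 i hi).1 k) v⟩
      · rw [hρ₂, hρ₂, (c2 l hli hlj).1, (c2 l hli hlj).2]
        exact ⟨u, v⟩
  -- conjugate back
  obtain ⟨φ₃, m3, a3, b3, c3⟩ := hc ρ₂ N hNn s2 hN I2 i hi q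
  have key : ∀ x, ρ ((φ₁ * φ₂ * φ₃) x) = ρ₂ (φ₃ x) := by
    intro x
    rw [hρ₂, hρ₁, MulAut.mul_apply, MulAut.mul_apply]
  have kai : ρ₁ (ga i) = q⁻¹ * ρ (ga i) * q := by rw [hρ₁, a1]
  have kbi : ρ₁ (gb i) = q⁻¹ * ρ (gb i) * q := by rw [hρ₁, b1]
  have kaj : ρ₁ (ga j) = ρ (ga j) := by rw [hρ₁, (c1 j hne).1]
  have kbj : ρ₁ (gb j) = ρ (gb j) := by rw [hρ₁, (c1 j hne).2]
  refine ⟨φ₁ * φ₂ * φ₃, (MCG g n).mul_mem ((MCG g n).mul_mem m1 m2) m3, ?_, ?_, ?_, ?_, ?_⟩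
  · rw [key, a3, hρ₂, a2, kai]
    group
  · rw [key, b3, hρ₂, b2, kaj, kbi]
    group
  · rw [key, (c3 j hne).1, hρ₂, a2', kaj]
  · rw [key, (c3 j hne).2, hρ₂, b2', kai, kbj]
    have : (q⁻¹ * ρ (ga i) * q) ^ k = q⁻¹ * ρ (ga i) ^ k * q := by
      have := conj_zpow (i := k) (a := q⁻¹) (b := ρ (ga i))
      rw [inv_inv] at this
      exact this
    rw [this]
  · intro l hli hlj
    rw [key, key, (c3 l hli).1, (c3 l hli).2, hρ₂, hρ₂, (c2 l hli hlj).1, (c2 l hli hlj).2, hρ₁,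
      hρ₁]
    exact c1 l hli

end Pool.Agent.PWB
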