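import Pool.Agent.PWB.KSt

/-!
# The module KSol of the killing part (Putman-Wieland)
-/

set_option autoImplicit false

namespace Pool.Agent.PWB

/-- In a group whose quotient by `M` is solvable a chief factor above `M` is abelian. -/
theorem ksol_comm {G : Type} [Group G] (M N : Subgroup G) [hM : M.Normal] (hN : N.Normal)
    (hs : Group.IsSolvable (G ⧸ M)) (hlt : M < N)
    (hch : ∀ L : Subgroup G, L.Normal → M ≤ L → L ≤ N → L = M ∨ L = N) :
    ∀ x ∈ N, ∀ y ∈ N, x * y * x⁻¹ * y⁻¹ ∈ M := by
  have hle : ⁅N, N⁆ ≤ N := Subgroup.commutator_le_left N N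
  have hnorm : (⁅N, N⁆ ⊔ M).Normal := inferInstance
  rcases hch (⁅N, N⁆ ⊔ M) hnorm le_sup_right (sup_le hle hlt.le) with h | h
  · intro x hx y hy
    have h1 : x * y * x⁻¹ * y⁻¹ ∈ ⁅N, N⁆ := Subgroup.commutator_mem_commutator hx hy
    have h2 : x * y * x⁻¹ * y⁻¹ ∈ ⁅N, N⁆ ⊔ M := Subgroup.mem_sup_left h1
    rw [h] at h2
    exact h2
  · exfalso
    set π : G →* G ⧸ M := QuotientGroup.mk' M with hπ
    have hker : M.map π = ⊥ := by
      rw [hπ]
      exact QuotientGroup.map_mk'_self M
    have h1 : N.map π = ⁅N.map π, N.map π⁆ := by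
      conv_lhs => rw [← h]
      rw [Subgroup.map_sup, hker, sup_bot_eq, Subgroup.map_commutator]
    have h2 : ∀ n, N.map π ≤ derivedSeries (G ⧸ M) n := by
      intro n
      induction n with
      | zero => simp
      | succ k ih =>
        rw [h1, derivedSeries_succ]
        exact Subgroup.commutator_mono ih ih
    obtain ⟨n, hn⟩ := hs.solvable
    have h3 : N.map π = ⊥ := by
      rw [eq_bot_iff, ← hn]
      exact h2 n
    have h4 : N ≤ M := by
      have := (Subgroup.map_eq_bot_iff N).mp h3
      rwa [hπ, QuotientGroup.ker_mk'] at this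
    exact absurd h4 (not_le_of_gt hlt)

/-- One chief step down. -/
theorem ksol_step {G : Type} [Group G] [Finite G] (B N : Subgroup G) (hB : B.Normal)
    (hN : N.Normal) (hs : Group.IsSolvable (G ⧸ B)) (hlt : B < N) :
    ∃ M : Subgroup G, M.Normal ∧ B ≤ M ∧ M < N ∧
      (∀ x ∈ N, ∀ y ∈ N, x * y * x⁻¹ * y⁻¹ ∈ M) ∧
      (∀ L : Subgroup G, L.Normal → M ≤ L → L ≤ N → L = M ∨ L = N) := by
  classical
  have hfin : Set.Finite {M : Subgroup G | M.Normal ∧ B ≤ M ∧ M < N} := Set.toFinite _
  obtain ⟨M, hM⟩ := hfin.exists_maximal ⟨B, hB, le_refl B, hlt⟩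
  obtain ⟨hM1, hM2⟩ := hM
  have hch : ∀ L : Subgroup G, L.Normal → M ≤ L → L ≤ N → L = M ∨ L = N := by
    intro L hL h1 h2
    rcases eq_or_lt_of_le h2 with h3 | h3
    · exact Or.inr h3
    · exact Or.inl (le_antisymm (hM2 ⟨hL, le_trans hM1.2.1 h1, h3⟩ h1) h1)
  have : M.Normal := hM1.1
  have hsM : Group.IsSolvable (G ⧸ M) := by
    have := hs
    have hcomap : B ≤ Subgroup.comap (MonoidHom.id G) M := by
      intro x hx
      exact hM1.2.1 hx
    refine Group.isSolvable_of_surjective (f := QuotientGroup.map B M (MonoidHom.id G) hcomap) ?_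
    intro q
    induction q using QuotientGroup.induction_on with
    | H z => exact ⟨(z : G ⧸ B), rfl⟩
  exact ⟨M, hM1.1, hM1.2.1, hM1.2.2, ksol_comm M N hN hsM hM1.2.2 hch, hch⟩

/-- Going down to `B`. -/
theorem ksol_down {G : Type} [Group G] [Finite G] (B : Subgroup G) (hB : B.Normal)
    (hs : Group.IsSolvable (G ⧸ B)) : ∀ (m t : ℕ) (c : ℕ → Subgroup G),
    Nat.card (c t) ≤ m → Cost G t (c t) → (∀ i, i ≤ t → (c i).Normal ∧ B ≤ c i) →
    (∀ i j, i < j → j ≤ t → c j < c i) →
    ∃ (t' : ℕ) (c' : ℕ → Subgroup G), Cost G t' B ∧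
      (∀ i, i ≤ t' → (c' i).Normal ∧ B ≤ c' i) ∧ (∀ i j, i < j → j ≤ t' → c' j < c' i) := by
  intro m
  induction m with
  | zero =>
    intro t c h
    have : 0 < Nat.card (c t) := Nat.card_pos
    omega
  | succ m ih =>
    intro t c hcard hcost hn hanti
    rcases eq_or_lt_of_le (hn t le_rfl).2 with h | h
    · refine ⟨t, c, ?_, hn, hanti⟩
      rw [h]
      exact hcost
    · obtain ⟨M, hM1, hM2, hM3, hM4, hM5⟩ := ksol_step B (c t) hB (hn t le_rfl).1 hs h
      obtain ⟨c', hc1, hc2⟩ : ∃ c' : ℕ → Subgroup G, (∀ i, i ≤ t → c' i = c i) ∧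
          c' (t + 1) = M := by
        refine ⟨fun i => if i ≤ t then c i else M, ?_, ?_⟩
        · intro i hi
          simp [hi]
        · simp
      refine ih (t + 1) c' ?_ ?_ ?_ ?_
      · rw [hc2]
        have : Nat.card M < Nat.card (c t) := by
          have hss : (M : Set G) ⊂ (c t : Set G) := hM3
          exact Set.Finite.card_lt_card (Set.toFinite _) hss
        omega
      · rw [hc2]
        exact Cost.chief hcost (hn t le_rfl).1 hM1 hM3.le hM4 hM5
      · intro i hi
        rcases Nat.lt_or_ge t i with h1 | h1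
        · have : i = t + 1 := by omega
          subst this
          rw [hc2]
          exact ⟨hM1, hM2⟩
        · rw [hc1 i h1]
          exact hn i h1
      · intro i j hij hj
        rcases Nat.lt_or_ge t j with h1 | h1
        · have : j = t + 1 := by omega
          subst this
          rw [hc2, hc1 i (by omega)]
          rcases Nat.lt_or_ge i t with h2 | h2
          · exact lt_trans hM3 (hanti i t h2 le_rfl)
          · have : i = t := by omega
            subst this
            exact hM3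
        · rw [hc1 i (by omega), hc1 j h1]
          exact hanti i j hij h1

theorem st_KSol : St_KSol := by
  intro G _ _ B hB hs s hchain
  obtain ⟨t, c, h1, h2, h3⟩ := ksol_down B hB hs (Nat.card (⊤ : Subgroup G)) 0 (fun _ => ⊤)
    (le_refl _) Cost.top (fun i _ => ⟨inferInstance, le_top⟩) (by intro i j hij hj; omega)
  refine ⟨t, ?_, h1⟩
  by_contra hts
  push Not at hts
  refine hchain (fun i => c i) (fun i => h2 i (by have := i.2; omega)) ?_
  intro i j hij
  exact h3 i j hij (by have := j.2; omega)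

end Pool.Agent.PWB
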