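import Pool.Agent.PW.Solv
import Pool.Agent.PWM.Far
import Pool.Agent.PWM.Rot

/-!
# Killing handles: definitions and statements (Putman-Wieland, theorem AB, killing part)

`ρ : F g n →* Q` is a surjective homomorphism to a finite group.  `Inv h H ρ` (PW/Solv): the handles
with index `< h` go to `H`.  `Cost G s N`: from `⊤` one can go down to `N` in steps which cost
`s` handles.  The assembly is `go_of_cost` in `Kill.lean`.
-/

namespace Pool.Agent.PWB

open Pool.Agent.PW Pool.Agent.PWM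

/-- The subgroup `N` of `G` can be reached from `⊤` with cost `s`.  Three kinds of steps from `N` to
a smaller subgroup `M`: `N/M` cyclic (cost 1), `N/M` an abelian chief factor of `G` (cost 1), and
`N/M` central in `G/M` and consisting of non-generators of `G/M` (no cost). -/
inductive Cost (G : Type*) [Group G] : ℕ → Subgroup G → Prop
  | top : Cost G 0 ⊤
  | cyclic {s : ℕ} {N M : Subgroup G} : Cost G s N → M ≤ N →
      (∀ x ∈ N, ∀ y ∈ M, x * y * x⁻¹ ∈ M) → (∃ c ∈ N, ∀ x ∈ N, ∃ k : ℤ, (c ^ k)⁻¹ * x ∈ M) →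
      Cost G (s + 1) M
  | chief {s : ℕ} {N M : Subgroup G} : Cost G s N → N.Normal → M.Normal → M ≤ N →
      (∀ x ∈ N, ∀ y ∈ N, x * y * x⁻¹ * y⁻¹ ∈ M) →
      (∀ L : Subgroup G, L.Normal → M ≤ L → L ≤ N → L = M ∨ L = N) → Cost G (s + 1) M
  | frattini {s : ℕ} {N M : Subgroup G} : Cost G s N → N.Normal → M.Normal → M ≤ N →
      (∀ x ∈ N, ∀ y, x * y * x⁻¹ * y⁻¹ ∈ M) → (∀ H : Subgroup G, H ⊔ N = ⊤ → H ⊔ M = ⊤) →
      Cost G s M

/-- (KEuc) Clear the pair `i` at the expense of the pair `j`, over `ZMod m` for every `m` (Euclid's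
algorithm on integer lifts).
Proof.  Choose integers `(a,b)` and `(c,d)` which lift `v i` and `v j`.  The moves of `Op h` on the
two pairs, with `k : ℤ` arbitrary, are `(a, b + k a)`, `(a + k b, b)`, the same for `(c,d)`, and
`((a, b + k (c - a)), (c, d + k a))`.
(1) One pair: `(a,b)` can be moved to `(0,e)` (by induction on `|a|`: if `a = 0` nothing to do; else
`b ↦ b % a`; if this is `0`, `(a,0) → (a,a) → (0,a)`; else `a ↦ a % b` and `|a % b| < b < |a|`),
and then to `(e,0)` (`(0,e) → (e,e) → (e,0)`).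
(2) Two pairs: claim, by induction on `|y|`: `((0,x),(y,0))` can be moved to `((0,0),*)`.  If `y = 0`:
if `x = 0` done; else `(x,0)` on `i`, last move with `k = 1`: `((x,-x),(0,x))`, then `((x,0),(x,0))`
by (1)-moves on both pairs, `((0,x),(x,0))`, last move with `k = -1`: `((0,0),(x,0))`.  If `y ≠ 0`:
last move with a suitable `k` (first entry of `i` is `0`): `x ↦ x % y`; if it is `0` done; else put
`x' = x % y` on the first entry of `i` (`(x',0)`) and `y` on the second entry of `j` (`(0,y)`), last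
move with `k`: `(x', - k x')` and `(0, y + k x')`; choose `k` with `y + k x' = y % x'`, clear the
second entry of `i`, and exchange the entries: `((0,x'),(y % x',0))`, `|y % x'| < x' < |y|`. -/
def St_KEuc : Prop := ∀ {g m h : ℕ} (v : Fin g → ZMod m × ZMod m) (i j : Fin g), (i : ℕ) < j →
  (j : ℕ) < h → ∃ v', Relation.ReflTransGen (Op h) v v' ∧ v' i = 0 ∧
    ∀ l, l ≠ i → l ≠ j → v' l = v l

/-- (KCyc) A cyclic quotient costs one handle.
Proof.  As `PW.op_all` and `PW.drop_one`, with `St_KEuc` in the place of `op_clear` (`PW.real_ops`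
does not use that `p` is prime). -/
def St_KCyc : Prop := ∀ {Q : Type} [Group Q] {H M : Subgroup Q} {m : ℕ} {X : Q → ZMod m},
  Chr H M m X → ∀ {g n h : ℕ}, h + 1 ≤ g → ∀ ρ : F g n →* Q, Inv (h + 1) H ρ →
  ∃ φ ∈ MCG g n, Inv h M (ρ.comp (MulEquiv.toMonoidHom φ))

/-- (KChr) A subgroup `M` of `N`, normalised by `N`, with cyclic `N/M` is the kernel of a `Chr`.
Proof.  Let `c` be as in the hypothesis.  If no power `c ^ m`, `m > 0`, lies in `M` take `m = 0`
(`ZMod 0 = ℤ`), else the least such `m > 0`.  For `x ∈ N` choose `k` with `(c ^ k)⁻¹ * x ∈ M` and put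
`X x = (k : ZMod m)`; well defined because `c ^ k ∈ M` iff `m ∣ k`; additive because `M` is normalised
by `N`. -/
def St_KChr : Prop := ∀ {Q : Type} [Group Q] {N M : Subgroup Q}, M ≤ N →
  (∀ x ∈ N, ∀ y ∈ M, x * y * x⁻¹ ∈ M) → (∃ c ∈ N, ∀ x ∈ N, ∃ k : ℤ, (c ^ k)⁻¹ * x ∈ M) →
  ∃ (m : ℕ) (X : Q → ZMod m), Chr N M m X

/-- (KConj) Conjugation of one handle, all the others fixed.
Proof.  Call `ρ'` good if it agrees with `ρ` on all letters except those of the handle `i`, and maps
these two into `N`.  Let `E` be the set of `q : Q` such that for every good `ρ'` there is `φ ∈ MCG g n`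
with `ρ' (φ x) = ρ' x` for all letters `x` outside the handle `i` and `ρ' (φ t) = q * ρ' t * q⁻¹` for
`t = ga i, gb i`.  `E` contains `N` (`φ = 1`, `N` is commutative) and `1`, and is closed under products
(`ρ' ∘ φ` is good: `N` is normal); `Q` is finite, so `E` is the carrier of a subgroup (or use `φ⁻¹`).
For `i < j` the automorphism `Pb i j` (PWM/Far) shows `ρ (tw i j) ∈ E`: `ρ' (dl i) = 1` since `N` is
commutative, so `px`, `py` go to `1`.  The conjugate `rr j * Pb i j * (rr j)⁻¹` shows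
`ρ ((rr j) (tw i j)) = (ρ (sw i j))⁻¹ ∈ E` (`Cla.rr_tw`).  `Pc i j` gives `ρ (dl i * sc i j)`,
so `ρ (sc i j) ∈ E`.  The letters of the handles `< h` go to `N ≤ E`.  Now `tw i j = w * gb j * w⁻¹` with
`w = mid g n i j` a product of `dl l`, `i < l < j`, so by induction on `j` all the letters of the handles
`j > i`, and then all `gc j`, go to `E` (compare `PW.gen_moved`, `PWM.put_gen`).  So `E = ⊤`. -/
def St_KConj : Prop := ∀ {Q : Type} [Group Q] [Finite Q] {g n h : ℕ} (ρ : F g n →* Q)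
  (N : Subgroup Q), N.Normal → Function.Surjective ρ → (∀ x ∈ N, ∀ y ∈ N, x * y = y * x) →
  Inv h N ρ → ∀ (i : Fin g), (i : ℕ) < h → ∀ q : Q, ∃ φ ∈ MCG g n,
    ρ (φ (ga i)) = q * ρ (ga i) * q⁻¹ ∧ ρ (φ (gb i)) = q * ρ (gb i) * q⁻¹ ∧
    ∀ l : Fin g, l ≠ i → ρ (φ (ga l)) = ρ (ga l) ∧ ρ (φ (gb l)) = ρ (gb l)

/-- (KSlide) The slide of two handles in the commutative subgroup `N`, twisted by `q : Q`.
Proof.  `q = 1`: `φ = psh i j k * e1 i k`: `psh` maps `b i` to `pw ^ k * b i` with
`ρ (pw i j) = (ρ (a i))⁻¹ * ρ (a j)` (everything in the block commutes, `mid` goes to `1` because all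
`dl l`, `i < l < j < h` go to `1`), fixes `ρ (a i)`, `ρ (a j)` and multiplies `ρ (b j)` by
`ρ (a i) ^ k`; `e1 i k` multiplies `b i` by `a i ^ k`.  General `q`: conjugate the handle `i` by `q⁻¹`
(`St_KConj`), slide, conjugate the handle `i` by `q`.  (All the formulas are for the composite
`ρ ∘ φ₁ ∘ φ₂ ∘ φ₃`; `Inv h N` and surjectivity are kept at each stage.) -/
def St_KSlide : Prop := ∀ {Q : Type} [Group Q] [Finite Q] {g n h : ℕ} (ρ : F g n →* Q)
  (N : Subgroup Q), N.Normal → Function.Surjective ρ → (∀ x ∈ N, ∀ y ∈ N, x * y = y * x) →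
  Inv h N ρ → ∀ (i j : Fin g), (i : ℕ) < j → (j : ℕ) < h → ∀ (q : Q) (k : ℤ), ∃ φ ∈ MCG g n,
    ρ (φ (ga i)) = ρ (ga i) ∧ ρ (φ (gb i)) = (q * ρ (ga j) ^ k * q⁻¹) * ρ (gb i) ∧
    ρ (φ (ga j)) = ρ (ga j) ∧ ρ (φ (gb j)) = (q⁻¹ * ρ (ga i) ^ k * q) * ρ (gb j) ∧
    ∀ l : Fin g, l ≠ i → l ≠ j → ρ (φ (ga l)) = ρ (ga l) ∧ ρ (φ (gb l)) = ρ (gb l)

/-- (KPair) In a commutative minimal normal subgroup the handle `i` can be killed at the expense of the
handle `j`.
Proof.  If the handle `i` is dead nothing to do.  If the handle `j` is dead, make `ρ (ga i) ≠ 1` by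
`e2 i 1` and slide (`St_KSlide`, `q = 1`, `k = 1`): `ρ (gb j) = ρ (ga i) ≠ 1`.  So the handle `j` is
alive; make `ρ (ga j) ≠ 1` by `e2 j 1` if necessary; call this value `α`.  The set of `x ∈ N` such that
for every `β ∈ N`... precisely: let `C` be the set of `x : Q` such that for every surjective `ρ'` with
`Inv h N ρ'` and `ρ' (ga j) = α` there is `φ ∈ MCG g n` with `ρ' (φ (ga i)) = ρ' (ga i)`,
`ρ' (φ (gb i)) = x * ρ' (gb i)`, `ρ' (φ (ga j)) = α`, `ρ' (φ (gb j)) ∈ N` and `= ρ' (gb j)` if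
`ρ' (ga i) = 1`, and all the other handles unchanged.  `C` is closed under products and contains
`q * α ^ k * q⁻¹` (`St_KSlide`); so it contains the normal closure of `α`, which is `N` (minimal).
Step 1: with the rotation `rr i` (`ga i ↦` conjugate of `gb i`, `gb i ↦ (ga i)⁻¹`) in front, make
`ρ (ga i) = 1`.  Step 2: make `ρ (gb i) = 1` (now the handle `j` does not change).  -/
def St_KPair : Prop := ∀ {Q : Type} [Group Q] [Finite Q] {g n h : ℕ} (ρ : F g n →* Q)
  (N : Subgroup Q), N.Normal → Function.Surjective ρ → (∀ x ∈ N, ∀ y ∈ N, x * y = y * x) →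
  (∀ L : Subgroup Q, L.Normal → L ≤ N → L = ⊥ ∨ L = N) →
  Inv h N ρ → ∀ (i j : Fin g), (i : ℕ) < j → (j : ℕ) < h → ∃ φ ∈ MCG g n,
    ρ (φ (ga i)) = 1 ∧ ρ (φ (gb i)) = 1 ∧ ρ (φ (ga j)) ∈ N ∧ ρ (φ (gb j)) ∈ N ∧
    ∀ l : Fin g, l ≠ i → l ≠ j → (l : ℕ) < h → ρ (φ (ga l)) = ρ (ga l) ∧ ρ (φ (gb l)) = ρ (gb l)

/-- (KChief) An abelian chief factor costs one handle.
Proof.  Apply `St_KPair` in `Q ⧸ M` (to the composite of `ρ` and the projection, `N` replaced by its
image) to the pairs `(i, h)`, `i = 0, …, h - 1`, one after the other; the dead handles stay dead. -/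
def St_KChief : Prop := ∀ {Q : Type} [Group Q] [Finite Q] {g n h : ℕ}, h + 1 ≤ g →
  ∀ (ρ : F g n →* Q) (N M : Subgroup Q), Function.Surjective ρ → N.Normal → M.Normal → M ≤ N →
  (∀ x ∈ N, ∀ y ∈ N, x * y * x⁻¹ * y⁻¹ ∈ M) →
  (∀ L : Subgroup Q, L.Normal → M ≤ L → L ≤ N → L = M ∨ L = N) → Inv (h + 1) N ρ →
  ∃ φ ∈ MCG g n, Inv h M (ρ.comp (MulEquiv.toMonoidHom φ))

/-- (KPush) Foot push for a handle of the block whose `a`-letter is central, around everything after
the block.
Proof.  Let `A` be the subgroup generated by `α = ρ (ga i)`; it is central.  Call `ρ'` good if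
`ρ' (ga i) = α`, `ρ'` agrees with `ρ` on the letters of the handles `l < h`, `l ≠ i`, and modulo `A` on
the letters of `Fge g n h`.  Let `E` be the set of the `q : Q` such that for every good `ρ'` there is
`φ ∈ MCG g n` with `ρ' ∘ φ` good and `ρ' (φ (gb i)) ∈ q * ρ' (gb i) * A`.  `E` is closed under products
and finite, so a subgroup.  It contains `A`.  For `h ≤ j` the automorphism `psh i j 1` shows that
`ρ (sw i j) ∈ E` (`ρ' (pw i j) = α⁻¹ * ρ' (sw i j)`; `ph_aj`: `a j` does not change; `ph_bj`: `b j` is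
multiplied by `α`; `ρ' (sw i j)` is `ρ (sw i j)` modulo `A` because `ρ' (dl l)` is `ρ (dl l)`, `l ≥ h`),
`e2 j 1 * psh i j 1 * (e2 j 1)⁻¹` (or the like with `rr j`) shows `ρ (sw i j * tw i j) ∈ E`, and
`qsh i j 1` shows `ρ (sc i j) ∈ E`.  The words `mid g n i j` are products of `dl l`, `i < l < h`, which go
to `1` (the handles of the block go to the commutative `N`), and of `dl l`, `h ≤ l < j`.  So as in
`PW.gen_moved` all of `ρ (Fge g n h)` is in `E`. -/
def St_KPush : Prop := ∀ {Q : Type} [Group Q] [Finite Q] {g n h : ℕ} (ρ : F g n →* Q)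
  (N : Subgroup Q), (∀ x ∈ N, ∀ y : Q, x * y = y * x) → Inv h N ρ → ∀ (i : Fin g), (i : ℕ) < h →
  ∀ y ∈ Fge g n h, ∃ φ ∈ MCG g n, ρ (φ (ga i)) = ρ (ga i) ∧
    (∃ k : ℤ, ρ (φ (gb i)) = ρ y * ρ (gb i) * ρ (ga i) ^ k) ∧
    (∀ l : Fin g, (l : ℕ) < h → l ≠ i → ρ (φ (ga l)) = ρ (ga l) ∧ ρ (φ (gb l)) = ρ (gb l)) ∧
    ∀ z ∈ Fge g n h, ∃ k : ℤ, ρ (φ z) = ρ z * ρ (ga i) ^ k

/-- (KFrat) A central Frattini factor costs nothing.
Proof.  Work in `Q ⧸ M`, so `M = 1` and `N` is central.  `ρ (Fge g n h)` together with `N` generates `Q`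
(`ρ` is surjective and the first `h` handles go to `N`), so `ρ (Fge g n h) = ⊤` by the hypothesis.  Kill
the handles `i = 0, …, h - 1` one after the other: take `y ∈ Fge g n h` with `ρ y = (ρ (gb i))⁻¹` and
`St_KPush`; then `ρ (gb i) = ρ (ga i) ^ k`, remove it by `e1 i (-k)`; then rotate (`rr i`) and push again:
now `ρ (ga i) = 1`, so the push changes nothing else and the handle `i` is dead.  The other handles of the
block do not change, `Fge g n h` is changed by elements of `N` only, so its image and `N` still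
generate `Q`. -/
def St_KFrat : Prop := ∀ {Q : Type} [Group Q] [Finite Q] {g n h : ℕ}, h ≤ g →
  ∀ (ρ : F g n →* Q) (N M : Subgroup Q), Function.Surjective ρ → N.Normal → M.Normal → M ≤ N →
  (∀ x ∈ N, ∀ y, x * y * x⁻¹ * y⁻¹ ∈ M) → (∀ H : Subgroup Q, H ⊔ N = ⊤ → H ⊔ M = ⊤) → Inv h N ρ →
  ∃ φ ∈ MCG g n, Inv h M (ρ.comp (MulEquiv.toMonoidHom φ))

/-- (KNil) Nilpotent quotients generated by `s` elements have cost `s`.
Proof.  Let `C` be the commutator subgroup of `G` times `B` (normal).  Going down from `⊤` through the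
subgroups generated by `C` and a shrinking part of `S` gives `Cost G S.card C` (cyclic steps).  Then
go down from `C` to `B` through the preimages of the lower central series of `G ⧸ B`
(`Subgroup.lowerCentralSeries`), whose factors are central; they consist of non-generators: if
`H ⊔ N = ⊤` with `N ≤ C` then `H ⊔ C = ⊤`, and `H ⊔ B = ⊤` because in the nilpotent group `G ⧸ B` a proper
subgroup is contained in a maximal one, which is normal of prime index (`Group.isNilpotent` TFAE,
`NormalizerCondition.normal_of_coatom`) and so contains the commutator subgroup. -/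
def St_KNil : Prop := ∀ {G : Type} [Group G] [Finite G] (B : Subgroup G) [B.Normal],
  Group.IsNilpotent (G ⧸ B) → ∀ S : Finset G, Subgroup.closure (S : Set G) ⊔ B = ⊤ →
  Cost G S.card B

/-- (KSol) Solvable quotients of chief length at most `s` have cost at most `s`.
Proof.  Take a maximal `t` with a chain `⊤ = N 0 > N 1 > … > N t ≥ B` of normal subgroups whose
consecutive factors are abelian chief factors (so `Cost G t (N t)`); `t ≤ s` by the hypothesis.  If
`N t ≠ B` take `M` maximal among the normal subgroups with `B ≤ M < N t`; then `N t / M` is a chief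
factor, and abelian because `G ⧸ B` is solvable (the subgroup generated by `M` and the commutators of
`N t` is normal, contains `M`, and is not `N t`).  Contradiction to the maximality of `t`. -/
def St_KSol : Prop := ∀ {G : Type} [Group G] [Finite G] (B : Subgroup G) [B.Normal],
  Group.IsSolvable (G ⧸ B) → ∀ s : ℕ,
  (∀ N : Fin (s + 2) → Subgroup G, (∀ i, (N i).Normal ∧ B ≤ N i) → ¬ StrictAnti N) →
  ∃ t ≤ s, Cost G t B

end Pool.Agent.PWB
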