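import Pool.Agent.PWB.KSt

/-!
# Killing handles: assembly
-/

namespace Pool.Agent.PWB

open Pool.Agent.PW Pool.Agent.PWM

/-- After a mapping class the first `g - s` handles go to `N`, if `N` has cost `s`. -/
theorem go_of_cost (kcyc : St_KCyc) (kchr : St_KChr) (kchief : St_KChief) (kfrat : St_KFrat)
    {Q : Type} [Group Q] [Finite Q] {g n s : ℕ} {N : Subgroup Q} (hc : Cost Q s N) (hs : s ≤ g)
    (ρ : F g n →* Q) (hρ : Function.Surjective ρ) :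
    ∃ φ ∈ MCG g n, Inv (g - s) N (ρ.comp (MulEquiv.toMonoidHom φ)) := by
  induction hc with
  | top => exact ⟨1, (MCG g n).one_mem, fun i _ => ⟨Subgroup.mem_top _, Subgroup.mem_top _⟩⟩
  | @cyclic s N M _ hMN hn hc ih =>
    obtain ⟨φ, hφ, h1⟩ := ih (by omega)
    obtain ⟨m, X, hX⟩ := kchr hMN hn hc
    have e : g - s = (g - (s + 1)) + 1 := by omega
    rw [e] at h1
    obtain ⟨ψ, hψ, h2⟩ := kcyc hX (by omega) (ρ.comp (MulEquiv.toMonoidHom φ)) h1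
    exact ⟨φ * ψ, (MCG g n).mul_mem hφ hψ, h2⟩
  | @chief s N M _ hN hM hMN hab hmin ih =>
    obtain ⟨φ, hφ, h1⟩ := ih (by omega)
    have e : g - s = (g - (s + 1)) + 1 := by omega
    rw [e] at h1
    obtain ⟨ψ, hψ, h2⟩ := kchief (by omega) (ρ.comp (MulEquiv.toMonoidHom φ)) N M
      (hρ.comp φ.surjective) hN hM hMN hab hmin h1
    exact ⟨φ * ψ, (MCG g n).mul_mem hφ hψ, h2⟩
  | @frattini s N M _ hN hM hMN hz hg ih =>
    obtain ⟨φ, hφ, h1⟩ := ih hs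
    obtain ⟨ψ, hψ, h2⟩ := kfrat (by omega) (ρ.comp (MulEquiv.toMonoidHom φ)) N M
      (hρ.comp φ.surjective) hN hM hMN hz hg h1
    exact ⟨φ * ψ, (MCG g n).mul_mem hφ hψ, h2⟩

end Pool.Agent.PWB
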