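import Pool.Agent.PWB.BlkD
import Pool.Agent.PWM.IndKill
import Pool.Agent.PWM.Swp

/-!
# The theorem for a block in an abelian normal subgroup of the deck group
-/

namespace Pool.Agent.PWB

open Pool.Agent.PW Pool.Agent.PWM

variable {g n : ℕ}

/-- The preimage of a subgroup of the deck group. -/
def pre {K : Subgroup (F g n)} (B : Subgroup (Deck K)) : Subgroup (F g n) :=
  B.comap (QuotientGroup.mk' K.normalCore)

/-- The system of a class whose handles have finite order. -/
theorem zero_of_block (h2 : 2 ≤ g) {K : Subgroup (F g n)} [K.FiniteIndex]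
    (B : Subgroup (Deck K)) [hBn : B.Normal] (hB : ∀ x ∈ B, ∀ y ∈ B, x * y = y * x)
    {φ : MulAut (F g n)} (hφ : φ ∈ MCG g n)
    (hφB : ∀ i : Fin g, (i : ℕ) < 2 → ((φ (ga i) : F g n) : Deck K) ∈ B ∧
      ((φ (gb i) : F g n) : Deck K) ∈ B) {f : F g n → ℚ} (hG : Good K.normalCore f)
    (k : Type) [Field k] [NumberField k] (ζ : k) (hζ : IsPrimitiveRoot ζ K.normalCore.index) :
    ∀ x ∈ K.normalCore, f x = 0 := by
  have hNf : K.normalCore.FiniteIndex := hG.fin
  have hM : K.normalCore.index ≠ 0 := hNf.index_ne_zero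
  have hfq : Finite (F g n ⧸ K.normalCore) := Subgroup.finite_quotient_of_finiteIndex
  have hpow : ∀ x : F g n, x ^ K.normalCore.index ∈ K.normalCore := fun x =>
    Subgroup.pow_index_mem _ x
  let S : KSys g n k ((F g n ⧸ K.normalCore) → k) :=
    { ρ := indρ K.normalCore k
      v := indv K.normalCore k f
      P := pre B
      coc := fun x y => indv_coc k hG.add x y
      fin := by
        have hsub : Set.range (indρ K.normalCore k) ⊆
            Set.range (fun q : F g n ⧸ K.normalCore => indρ K.normalCore k q.out) := by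
          rintro _ ⟨x, rfl⟩
          refine ⟨(x : F g n ⧸ K.normalCore), ?_⟩
          apply LinearMap.ext
          intro H
          funext q
          show indρ K.normalCore k _ H q = indρ K.normalCore k x H q
          rw [indρ_apply, indρ_apply, QuotientGroup.out_eq']
        exact (Set.finite_range _).subset hsub
      roots := ⟨K.normalCore.index, ζ,
        Nat.pos_of_ne_zero hM, fun x => by
          rw [← map_pow]
          exact indρ_mem k (hpow x), hζ⟩
      nor := by
        intro x hx w
        show ((w * x * w⁻¹ : F g n) : Deck K) ∈ B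
        rw [QuotientGroup.mk_mul, QuotientGroup.mk_mul, QuotientGroup.mk_inv]
        exact hBn.conj_mem _ hx _
      comm := by
        intro x hx y hy
        have hx' : (x : Deck K) ∈ B := hx
        have hy' : (y : Deck K) ∈ B := hy
        have h1 : x * y * (y * x)⁻¹ ∈ K.normalCore := by
          rw [← QuotientGroup.eq_one_iff, QuotientGroup.mk_mul, QuotientGroup.mk_inv,
            QuotientGroup.mk_mul, QuotientGroup.mk_mul]
          have h3 := hB _ hx' _ hy'
          rw [h3, mul_inv_cancel]
        have e : x * y = (x * y * (y * x)⁻¹) * (y * x) := by group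
        rw [← map_mul, ← map_mul, e, map_mul, indρ_mem k h1, one_mul]
      kill := fun φ hφ i => st_IndKill st_Move K.normalCore f k hG φ hφ i }
  have hE : Bk g n 0 2 ≤ (S.comp hφ).P := by
    unfold Bk
    rw [Subgroup.closure_le]
    rintro x ⟨i, -, hi, rfl | rfl⟩
    · exact (hφB i hi).1
    · exact (hφB i hi).2
  intro x hx
  have h1 : S.ρ x = 1 := indρ_mem k hx
  have h3 : (S.comp hφ).ρ (φ⁻¹ x) = 1 := by
    show S.ρ (φ (φ⁻¹ x)) = 1
    have e : φ (φ⁻¹ x) = x := by simp
    rw [e, h1]
  have h4 : S.v (φ (φ⁻¹ x)) = 0 := kMain (S.comp hφ) h2 hE _ h3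
  have e : φ (φ⁻¹ x) = x := by simp
  rw [e] at h4
  exact indv_zero k hG.add hx h4

/-- Putman-Wieland for a block of two handles in an abelian normal subgroup. -/
theorem infinite_of_block {g n : ℕ} (h2 : 2 ≤ g) (K : Subgroup (F g n)) [K.FiniteIndex]
    (hR : bdry g n ∈ K.normalCore) (B : Subgroup (Deck K)) [B.Normal]
    (hB : ∀ x ∈ B, ∀ y ∈ B, x * y = y * x) {φ : MulAut (F g n)} (hφ : φ ∈ MCG g n)
    (hφB : ∀ i : Fin g, (i : ℕ) < 2 → ((φ (ga i) : F g n) : Deck K) ∈ B ∧
      ((φ (gb i) : F g n) : Deck K) ∈ B) {f : K → ℚ} (hf : IsClass K f) (h0 : f ≠ 0) :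
    (orbit K f).Infinite := by
  intro hfin
  have hG := good_of_finite hR hf hfin
  have hM : K.normalCore.index ≠ 0 := hG.fin.index_ne_zero
  have hne : NeZero K.normalCore.index := ⟨hM⟩
  have hne2 : NeZero ((K.normalCore.index : ℕ) : ℚ) := ⟨by exact_mod_cast hM⟩
  have hcy : IsCyclotomicExtension {K.normalCore.index} ℚ (CyclotomicField K.normalCore.index ℚ) :=
    CyclotomicField.isCyclotomicExtension K.normalCore.index ℚ
  have hzero : ∀ y ∈ K.normalCore, ext0 K f y = 0 :=
    zero_of_block h2 B hB hφ hφB hG (CyclotomicField K.normalCore.index ℚ)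
    (IsCyclotomicExtension.zeta K.normalCore.index ℚ (CyclotomicField K.normalCore.index ℚ))
    (IsCyclotomicExtension.zeta_spec K.normalCore.index ℚ (CyclotomicField K.normalCore.index ℚ))
  apply h0
  funext x
  obtain ⟨L, hL, hLN⟩ := exists_exp hG.normal hG.fin
  have h1 := hzero _ (hLN (x : F g n))
  have h2 : (x : F g n) ^ L ∈ K := K.pow_mem x.2 L
  rw [ext0_mem h2] at h1
  have h3 : ∀ m : ℕ, f (x ^ m) = m * f x := by
    have hone : f 1 = 0 := by
      have := hf.add 1 1
      rw [mul_one] at this
      linarith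
    intro m
    induction m with
    | zero => simp [hone]
    | succ m ih =>
      rw [pow_succ, hf.add, ih]
      push_cast
      ring
  have h4 : (⟨(x : F g n) ^ L, h2⟩ : K) = x ^ L := rfl
  rw [h4, h3] at h1
  have h5 : (L : ℚ) ≠ 0 := by exact_mod_cast hL.ne'
  rcases mul_eq_zero.mp h1 with h6 | h6
  · exact absurd h6 h5
  · exact h6

end Pool.Agent.PWB
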